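import Pool.Agent.L0h21.RW.PerDef2
import Pool.Agent.L0h21.SN.CentreB

set_option autoImplicit false

/-! # Periods of weighted cones: statement -/

namespace Pool.Agent.L0h21.RW

open MvPolynomial Pool.Agent.L0h21.SN

/-- Job HB: the exponent `e0 = -|w| / d` of a weighted cone `G = c ∏ f_j ^ m_j` of degree
`d = ∑ m_j e_j`.

Proof. Everything from `root_centre` (`SN/Centre.lean`, end of the file) and `root_core`
(`SN/Root2.lean`): the proof of `root_centre` shows how to get the hypotheses of `root_core` from the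
hypotheses here (`gen_dep1`, `gen_ne1`, `gen_snc1`, with `P = genP1 w`). Its conclusion, for `β = 1`,
says (`nonexact`): there are no `N` and `g : V → MvPolynomial V ℂ`, `g v = 0` if `w v = 0`, with
`G ^ (N + 1) = G * dvg g + C (e0 - N) * act g G`, where `dvg g = ∑ ∂_v (g v)`, `act g G = ∑ g v ∂_v G`.
Let `B = ℕ →₀ MvPolynomial V ℂ` (`single k h` is to be read as `h G ^ (e0 - k)`), and let `Rel ⊆ B` be
the span of
* `single (k + 1) (G h) - single k h`,
* `single k h`, for `h` weighted homogeneous of a degree different from `k d`,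
* `single k (dvg g) + (e0 - k) single (k + 1) (act g G)`, for `g` with `g v = 0` if `w v = 0`.
Claim: `single 0 1 ∉ Rel`. For a finite sum of such relations with all `k < N`, apply the linear map
`single k h ↦ component of degree N d of G ^ (N - k) h` (`k ≤ N`): the first two kinds go to `0`, the
third one to the component of `G * dvg g' + (e0 - (N - 1)) act g' G`, `g' = G ^ (N - 1 - k) g`, so (the
components of `g'` of degree `N d - d + w v`) we get `G ^ N = G * dvg g'' + (e0 - (N - 1)) act g'' G`,
against `nonexact`. So there is a linear functional `Λ` on `B` which vanishes on `Rel`,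
`Λ (single 0 1) = 1`. Let `c⁰ m h = (∏_{i < m} (i - e0)) Λ (single m h)`: it satisfies `e2`, and
`c⁰ m (∂_v h) = c⁰ (m + 1) (∂_v G h)` if `w v > 0`, and `c⁰ m h = 0` for `h` homogeneous of degree
`≠ m d`. For a family `c` let `(T_v c) m h = c m (∂_v h) - c (m + 1) (∂_v G h)`,
`(X_v c) m h = c m (X_v h)`. The `T_v` commute (on families with `e2`... in fact on all families),
`T_v X_u - X_u T_v` is `δ_{uv}` up to sign, both preserve `e2`. Let `S` be the smallest set of families
which contains `c⁰`, closed under `+`, `ℂ`-multiples, all `X_v` and all `T_v` with `w v = 0`. By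
induction: `e2`; the degree condition (`T_v`, `w v = 0`, preserves it, `X_v` as well); `mu` (clear);
`d2` for `w v = 0` (clear), and for `w v > 0`: `T_v c ∈ S` for all `c ∈ S` by induction, because
`T_v c⁰ = 0`, `T_v X_u c = X_u T_v c ± δ_{uv} c`, `T_v T_u c = T_u T_v c`. -/
def S_HB : Prop := ∀ {V J : Type} [Fintype V] [DecidableEq V] [Fintype J] [DecidableEq J]
  (w : V → ℕ) (f : J → MvPolynomial V ℂ) (e m : J → ℕ) (c : ℂ) (h : MvPolynomial V ℂ),
  2 ≤ Fintype.card (Pos w) → (∀ j, IsWeightedHomogeneous w (f j) (e j)) → (∀ j, 0 < m j) →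
  c ≠ 0 → h ≠ 0 → IsWeightedHomogeneous w h 0 →
  (∀ P : V → ℂ, aeval P h ≠ 0 → (SNCAt' f P ↔ ∃ v, 0 < w v ∧ P v ≠ 0)) →
  0 < ∑ j, m j * e j ∧
    HP w (∑ j, m j * e j) (C c * ∏ j, f j ^ m j)
      (-((∑ v, w v : ℕ) : ℂ) / (∑ j, m j * e j : ℕ))

end Pool.Agent.L0h21.RW
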