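import Pool.Agent.L0h21.RW.P15
import Pool.Agent.N138.RF.E1
import Pool.Agent.N138.RF.E2

/-! Polynomials which are good at all the points with coordinates in `ℚ_p`. -/

set_option autoImplicit false
set_option linter.unusedSectionVars false

namespace Pool.Agent.L0h21.RW

open MvPolynomial MeasureTheory
open Pool.Agent.W427.SMC (msZ bsZ mu isom_surj)
open Pool.Agent.Y230.PT (msK bsK inc inc_emb rr)
open Pool.Agent.Y230.PS (EP)
open Pool.Agent.N138.SU Pool.Agent.N138.SV Pool.Agent.N138.RF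
open Pool.Agent.L0h21.SN hiding bal

attribute [local instance] msK bsK msZ bsZ

variable {p : ℕ} [Fact p.Prime] {V W : Type} [Fintype V] [Fintype W]

/-- From a good polynomial to the points. -/
theorem lq_of_gi (σ : ℚ_[p] →+* ℂ) (F : MvPolynomial V ℚ_[p]) (h : GI σ F) (P : V → ℤ_[p]) :
    LQ σ F (fun v => PadicInt.Coe.ringHom (p := p) (P v)) := by
  classical
  have hp0 : (p : ℤ_[p]) ≠ 0 := by exact_mod_cast (Fact.out : p.Prime).ne_zero
  have hp0' : (p : ℚ_[p]) ≠ 0 := by exact_mod_cast (Fact.out : p.Prime).ne_zero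
  have hpow : ∀ n : ℕ, PadicInt.Coe.ringHom (p := p) ((p : ℤ_[p]) ^ n) = (p : ℚ_[p]) ^ n :=
    fun n => by rw [map_pow, cc_p]
  obtain ⟨φ, hM, hloc⟩ := h
  set Q : V → ℚ_[p] := fun v => PadicInt.Coe.ringHom (p := p) (P v) with hQ
  obtain ⟨N, hN⟩ := exists_int (trl Q F - C (eval Q F))
  obtain ⟨Fz, hFz⟩ := hN N le_rfl
  obtain ⟨k0, hk0⟩ := hloc P
  have hMP : inc p (φ P) = eval Q F := hM P
  refine ⟨N, Fz, hFz, k0, fun a k hk ha => ?_⟩
  have h1 := hk0 (fun i => P i + a i) k hk (fun i => by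
    have h2 := ha i
    rw [Pi.zero_apply, sub_zero] at h2
    rwa [add_sub_cancel_left])
  have hφm : Measurable φ := hM.meas
  have h2 := L2.Gd_smul (Measure.pi fun _ : V => mu p)
    ((bal_meas hφm (fun i => P i + a i) k).sub measurable_const) (pow_ne_zero N hp0) h1
  have h3 : (fun y => (p : ℤ_[p]) ^ N * (bal φ (fun i => P i + a i) k y - φ P)) =
      bal (fun x => eval x Fz) a k := by
    funext y
    apply cc_inj (p := p)
    unfold Pool.Agent.N138.RF.bal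
    beta_reduce
    rw [map_mul, map_sub, hpow, ← eval_emC, hFz, map_mul, map_sub, eval_C, eval_C, eval_trl]
    have h4 : PadicInt.Coe.ringHom (p := p) (φ fun i => P i + a i + (p : ℤ_[p]) ^ k * y i) =
      eval (fun i => PadicInt.Coe.ringHom (p := p) (P i + a i + (p : ℤ_[p]) ^ k * y i)) F := hM _
    have h5 : PadicInt.Coe.ringHom (p := p) (φ P) = eval Q F := hMP
    rw [h4, h5]
    congr 3
    congr 1
    funext i
    rw [hQ]
    beta_reduce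
    rw [← map_add]
    congr 1
    ring
  have h2' : Gd (Measure.pi fun _ : V => mu p)
      (fun y => (p : ℤ_[p]) ^ N * (bal φ (fun i => P i + a i) k y - φ P)) _ := h2
  rw [h3] at h2'
  refine h2'.mono fun T _ => ?_
  rw [hMP]
  have hm2 : map (emC σ) Fz = C (σ ((p : ℚ_[p]) ^ N)) *
      (trl (fun v => σ (Q v)) (map σ F) - C (σ (eval Q F))) := by
    have h7 : map (emC σ) Fz = map σ (map (PadicInt.Coe.ringHom (p := p)) Fz) := by
      rw [map_map]; rfl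
    rw [h7, hFz, map_mul, map_C, map_sub, map_trl, map_C]
  rcases mP_or (p := p) (map σ F - C (σ (eval Q F))) T with h7 | h7
  · rw [h7]
    exact bot_le
  · have h8 := mP_le (p := p) (g := map σ F - C (σ (eval Q F))) (T := T) (a := 1) le_rfl
      (by rw [h7]; exact le_top)
    have h15 : Per (map (emC σ) Fz) ((rr p T : ℝ) : ℂ) := by
      rw [hm2]
      refine per_C' _ _ (fun h0 => pow_ne_zero N hp0' ((map_eq_zero σ).1 h0)) _ ?_
      have h16 := per_trl' _ (fun v => σ (Q v)) _ h8.2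
      rw [map_sub, trl_C] at h16
      exact h16
    rw [mP_top h8.1 h15]
    exact le_top

theorem lq_C (σ : ℚ_[p] →+* ℂ) (F : MvPolynomial V ℚ_[p]) (K : ℕ) (Q : V → ℚ_[p])
    (h : LQ σ (C ((p : ℚ_[p]) ^ K) * F) Q) : LQ σ F Q := by
  classical
  obtain ⟨N, Fz, hFz, h⟩ := h
  refine ⟨N + K, Fz, ?_, h⟩
  rw [hFz, map_mul (trl Q), trl_C, map_mul (eval Q), eval_C, pow_add, map_mul C, map_mul C]
  ring

/-- The scaling of the variables. -/
noncomputable def sc (n : ℕ) (F : MvPolynomial V ℚ_[p]) : MvPolynomial V ℚ_[p] :=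
  aeval (fun v => C (((p : ℚ_[p]) ^ n)⁻¹) * X v) F

/-- The inverse scaling. -/
noncomputable def sc' (n : ℕ) (F : MvPolynomial V ℚ_[p]) : MvPolynomial V ℚ_[p] :=
  aeval (fun v => C ((p : ℚ_[p]) ^ n) * X v) F

theorem pn0 (n : ℕ) : (p : ℚ_[p]) ^ n ≠ 0 :=
  pow_ne_zero _ (by exact_mod_cast (Fact.out : p.Prime).ne_zero)

theorem sc_a (n : ℕ) (v : V) : aeval (fun v => C (((p : ℚ_[p]) ^ n)⁻¹) * X v)
    (C ((p : ℚ_[p]) ^ n) * X v : MvPolynomial V ℚ_[p]) = X v := by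
  rw [map_mul, aeval_X, aeval_C, algebraMap_eq, ← mul_assoc, ← map_mul, mul_inv_cancel₀ (pn0 n),
    map_one, one_mul]

theorem sc_b (n : ℕ) (v : V) : aeval (fun v => C ((p : ℚ_[p]) ^ n) * X v)
    (C (((p : ℚ_[p]) ^ n)⁻¹) * X v : MvPolynomial V ℚ_[p]) = X v := by
  rw [map_mul, aeval_X, aeval_C, algebraMap_eq, ← mul_assoc, ← map_mul, inv_mul_cancel₀ (pn0 n),
    map_one, one_mul]

theorem sc_sc' (n : ℕ) (F : MvPolynomial V ℚ_[p]) : sc' n (sc n F) = F := by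
  classical exact aeval_inv _ _ (sc_b n) F

theorem sc_C (n : ℕ) (c : ℚ_[p]) : sc n (C c : MvPolynomial V ℚ_[p]) = C c := by
  rw [sc, aeval_C, algebraMap_eq]

theorem sc_ne (n : ℕ) {F : MvPolynomial V ℚ_[p]} (hF : ∀ c, F ≠ C c) (c : ℚ_[p]) :
    sc n F ≠ C c := by
  intro h
  apply hF c
  rw [← sc_sc' n F, h, sc', aeval_C, algebraMap_eq]

theorem sc_rename (n : ℕ) (i : V → W) (F : MvPolynomial V ℚ_[p]) :
    sc n (rename i F) = rename i (sc n F) := by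
  unfold sc
  induction F using MvPolynomial.induction_on with
  | C a => simp
  | add f g hf hg => rw [map_add, map_add, map_add, map_add, hf, hg]
  | mul_X f v hf =>
    rw [map_mul, map_mul, map_mul, map_mul, hf, rename_X, aeval_X, aeval_X, map_mul, rename_X,
      rename_C]

/-- Good at all the points with coordinates in `ℚ_p`. -/
def LQA (σ : ℚ_[p] →+* ℂ) (F : MvPolynomial V ℚ_[p]) : Prop := ∀ Q : V → ℚ_[p], LQ σ F Q

theorem lqa_of_gi (σ : ℚ_[p] →+* ℂ) (F : MvPolynomial V ℚ_[p])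
    (h : ∀ n, ∃ K, GI σ (C ((p : ℚ_[p]) ^ K) * sc n F)) : LQA σ F := by
  classical
  intro Q
  have hp : (1 : ℝ) < p := by exact_mod_cast (Fact.out : p.Prime).one_lt
  choose nf hnf using fun v => pow_unbounded_of_one_lt ‖Q v‖ hp
  set n := ∑ v, nf v with hn
  have h1 : ∀ v, ‖(p : ℚ_[p]) ^ n * Q v‖ ≤ 1 := by
    intro v
    rw [norm_mul, norm_pow, Padic.norm_p, inv_pow, inv_mul_le_iff₀ (by positivity), mul_one]
    exact (hnf v).le.trans (pow_le_pow_right₀ hp.le (Finset.single_le_sum (f := nf)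
      (fun _ _ => Nat.zero_le _) (Finset.mem_univ v)))
  set P : V → ℤ_[p] := fun v => ⟨_, h1 v⟩ with hP
  obtain ⟨K, hK⟩ := h n
  have h2 := lq_C σ _ K _ (lq_of_gi σ _ hK P)
  refine lq_aut σ _ _ (sc_a n) (sc_b n) F Q _ (fun v => ?_) h2
  rw [map_mul, eval_C, eval_X]
  show ((p : ℚ_[p]) ^ n)⁻¹ * ((p : ℚ_[p]) ^ n * Q v) = Q v
  rw [← mul_assoc, inv_mul_cancel₀ (pn0 n), one_mul]

theorem gi_of_lqa (σ : ℚ_[p] →+* ℂ) (F : MvPolynomial V ℚ_[p]) (h : LQA σ F) (n : ℕ) :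
    ∃ K0, ∀ K, K0 ≤ K → GI σ (C ((p : ℚ_[p]) ^ K) * sc n F) := by
  classical
  obtain ⟨K0, hK0⟩ := exists_int (sc n F)
  refine ⟨K0, fun K hK => ?_⟩
  obtain ⟨Fz, hFz⟩ := hK0 K hK
  refine gi_of_lq σ (sc n F) K Fz hFz fun P => ?_
  refine lq_aut σ _ _ (sc_b n) (sc_a n) (sc n F) _
    (fun v => ((p : ℚ_[p]) ^ n)⁻¹ * PadicInt.Coe.ringHom (p := p) (P v)) (fun v => ?_) ?_
  · rw [map_mul, eval_C, eval_X, ← mul_assoc, mul_inv_cancel₀ (pn0 n), one_mul]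
  · have h1 : aeval (fun v => C ((p : ℚ_[p]) ^ n) * X v) (sc n F) = F := sc_sc' n F
    rw [h1]
    exact h _

/-- Automorphisms. -/
theorem lqa_aut (σ : ℚ_[p] →+* ℂ) (φ ψ : V → MvPolynomial V ℚ_[p])
    (h1 : ∀ v, aeval φ (ψ v) = X v) (h2 : ∀ v, aeval ψ (φ v) = X v) (F : MvPolynomial V ℚ_[p])
    (h : LQA σ F) : LQA σ (aeval φ F) := by
  classical
  intro P
  refine lq_aut σ ψ φ h2 h1 (aeval φ F) P (fun v => eval P (φ v)) (fun v => ?_) ?_
  · rw [← eval_aeval', h1, eval_X]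
  · rw [aeval_inv ψ φ h2]
    exact h _

theorem lqa_add (hG1 : StG1) (σ : ℚ_[p] →+* ℂ) (F : MvPolynomial V ℚ_[p])
    (G : MvPolynomial W ℚ_[p]) (hF : LQA σ F) (hG : LQA σ G) :
    LQA σ (rename Sum.inl F + rename Sum.inr G : MvPolynomial (V ⊕ W) ℚ_[p]) := by
  refine lqa_of_gi σ _ fun n => ?_
  obtain ⟨K1, h1⟩ := gi_of_lqa σ F hF n
  obtain ⟨K2, h2⟩ := gi_of_lqa σ G hG n
  refine ⟨max K1 K2, ?_⟩
  have h3 := hG1 p σ _ _ (h1 _ (le_max_left K1 K2)) (h2 _ (le_max_right K1 K2))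
  rw [map_mul, map_mul, rename_C, rename_C, ← mul_add, ← sc_rename, ← sc_rename] at h3
  have h4 : sc n (rename Sum.inl F + rename Sum.inr G : MvPolynomial (V ⊕ W) ℚ_[p]) =
      sc n (rename Sum.inl F) + sc n (rename Sum.inr G) := by
    unfold sc
    rw [map_add]
  rw [h4]
  exact h3

theorem ne_Cmul {F : MvPolynomial V ℚ_[p]} (hF : ∀ c, F ≠ C c) (K : ℕ) (c : ℚ_[p]) :
    C ((p : ℚ_[p]) ^ K) * F ≠ C c := by
  intro h
  apply hF (((p : ℚ_[p]) ^ K)⁻¹ * c)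
  rw [map_mul, ← h, ← mul_assoc, ← map_mul, inv_mul_cancel₀ (pn0 K), map_one, one_mul]

theorem lqa_mul (hG2 : StG2) (σ : ℚ_[p] →+* ℂ) (F : MvPolynomial V ℚ_[p])
    (G : MvPolynomial W ℚ_[p]) (hF0 : ∀ c, F ≠ C c) (hG0 : ∀ c, G ≠ C c) (hF : LQA σ F)
    (hG : LQA σ G) :
    LQA σ (rename Sum.inl F * rename Sum.inr G : MvPolynomial (V ⊕ W) ℚ_[p]) := by
  refine lqa_of_gi σ _ fun n => ?_
  obtain ⟨K1, h1⟩ := gi_of_lqa σ F hF n
  obtain ⟨K2, h2⟩ := gi_of_lqa σ G hG n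
  refine ⟨K1 + K2, ?_⟩
  have h3 := hG2 p σ _ _ (ne_Cmul (sc_ne n hF0) K1) (ne_Cmul (sc_ne n hG0) K2) (h1 _ le_rfl)
    (h2 _ le_rfl)
  rw [map_mul, map_mul, rename_C, rename_C, mul_mul_mul_comm, ← sc_rename, ← sc_rename,
    ← map_mul C, ← pow_add] at h3
  have h4 : sc n (rename Sum.inl F * rename Sum.inr G : MvPolynomial (V ⊕ W) ℚ_[p]) =
      sc n (rename Sum.inl F) * sc n (rename Sum.inr G) := by
    unfold sc
    rw [map_mul]
  rw [h4]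
  exact h3

theorem lqa_comp (hG3 : StG3) (σ : ℚ_[p] →+* ℂ) (F : MvPolynomial V ℚ_[p]) (P : Polynomial ℚ)
    (hP : 1 ≤ P.natDegree) (hF0 : ∀ c, F ≠ C c) (hF : LQA σ F) :
    LQA σ (Polynomial.aeval F (P.map (algebraMap ℚ ℚ_[p]))) := by
  refine lqa_of_gi σ _ fun n => ?_
  obtain ⟨K1, h1⟩ := gi_of_lqa σ F hF n
  obtain ⟨K0, hQ⟩ := E2.exists_Q (p := p) P K1
  refine ⟨K0, ?_⟩
  obtain ⟨Q, hQ⟩ := hQ K0 le_rfl
  have h3 := hG3 p σ _ Q (ne_Cmul (sc_ne n hF0) K1) (by rw [E2.natDegree_Q hQ]; exact hP)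
    (h1 K1 le_rfl)
  rw [hQ] at h3
  have h4 : Polynomial.aeval (C ((p : ℚ_[p]) ^ K1) * sc n F) (Polynomial.C ((p : ℚ_[p]) ^ K0) *
      (P.map (algebraMap ℚ ℚ_[p])).comp (Polynomial.C (((p : ℚ_[p]) ^ K1)⁻¹) * Polynomial.X)) =
      C ((p : ℚ_[p]) ^ K0) * sc n (Polynomial.aeval F (P.map (algebraMap ℚ ℚ_[p]))) := by
    rw [map_mul, Polynomial.aeval_C, Polynomial.aeval_comp, map_mul, Polynomial.aeval_C,
      Polynomial.aeval_X]
    have h5 : algebraMap ℚ_[p] (MvPolynomial V ℚ_[p]) ((p : ℚ_[p]) ^ K1)⁻¹ *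
        (C ((p : ℚ_[p]) ^ K1) * sc n F) = sc n F := by
      rw [algebraMap_eq, ← mul_assoc, ← map_mul, inv_mul_cancel₀ (pn0 K1), map_one, one_mul]
    rw [h5, algebraMap_eq]
    congr 1
    exact Polynomial.aeval_algHom_apply (aeval fun v => C (((p : ℚ_[p]) ^ n)⁻¹) * X v) F _
  rw [h4] at h3
  exact h3

theorem lqa_drop (σ : ℚ_[p] →+* ℂ) (F : MvPolynomial V ℚ_[p])
    (h : LQA σ (rename Sum.inl F : MvPolynomial (V ⊕ W) ℚ_[p])) : LQA σ F := by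
  refine lqa_of_gi σ _ fun n => ?_
  obtain ⟨K0, h1⟩ := gi_of_lqa σ _ h n
  refine ⟨K0, E1.GI_drop (κ := W) σ _ ?_⟩
  have h2 := h1 K0 le_rfl
  rw [sc_rename] at h2
  rw [map_mul, rename_C]
  exact h2

theorem lqa_equiv (hR5 : StR5) (σ : ℚ_[p] →+* ℂ) (i : V ≃ W) (F : MvPolynomial V ℚ_[p])
    (h : LQA σ F) : LQA σ (rename i F) := by
  refine lqa_of_gi σ _ fun n => ?_
  obtain ⟨K0, h1⟩ := gi_of_lqa σ _ h n
  refine ⟨K0, ?_⟩
  have h2 := E1.GI_equiv hR5 σ i _ (h1 K0 le_rfl)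
  rw [map_mul, rename_C, ← sc_rename] at h2
  exact h2

theorem lqa_curve (hG4 : StG4) (σ : ℚ_[p] →+* ℂ) (F : MvPolynomial (Fin 2) ℚ_[p])
    (hF : ∀ c, F ≠ C c) : LQA σ F := by
  refine lqa_of_gi σ _ fun n => ?_
  obtain ⟨K0, hK0⟩ := exists_int (sc n F)
  obtain ⟨Fz, hFz⟩ := hK0 K0 le_rfl
  refine ⟨K0, hG4 p σ _ (fun x => eval x Fz) ?_ (ne_Cmul (sc_ne n hF) K0)⟩
  rw [← hFz]
  exact G5.inc_eval Fz

end Pool.Agent.L0h21.RW
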