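import Pool.Agent.L0h21.RW.P18
import Pool.Agent.L0h47.RW.HB
import Pool.Agent.L0h47.RW.TT
import Pool.Agent.N138.RF.Fin

/-! The formulas are good. -/

set_option autoImplicit false
set_option linter.unusedSectionVars false

namespace Pool.Agent.L0h21.RW

open MvPolynomial MeasureTheory
open Pool.Agent.W427.SMC (msZ bsZ mu isom_surj)
open Pool.Agent.Y230.PT (msK bsK inc inc_emb rr)
open Pool.Agent.Y230.PS (EP)
open Pool.Agent.N138.SU Pool.Agent.N138.SV Pool.Agent.N138.RF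
open Pool.Agent.L0h21.SN hiding bal

attribute [local instance] msK bsK msZ bsZ

variable {p : ℕ} [Fact p.Prime]

theorem nc_aut {V : Type} [Fintype V] (φ ψ : V → MvPolynomial V ℚ) (h : IsAut φ ψ)
    {F : MvPolynomial V ℚ} (hF : ∀ c, F ≠ C c) (c : ℚ) : aeval φ F ≠ C c := by
  classical
  intro h0
  apply hF c
  rw [← aeval_inv ψ φ h.2 F, h0, aeval_C, algebraMap_eq]

/-- **The formulas are good.** -/
theorem lqa_fw (σ : ℚ_[p] →+* ℂ) {V : Type} {F : MvPolynomial V ℚ} (h : FW V F) :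
    (∀ c, F ≠ C c) ∧ ∀ [Fintype V], LQA σ (map (algebraMap ℚ ℚ_[p]) F) := by
  have hnc : ∀ {V : Type} {F : MvPolynomial V ℚ}, (∀ c, F ≠ C c) → ∀ c,
      map (algebraMap ℚ ℚ_[p]) F ≠ C c := fun hF c => map_nc (algebraMap ℚ ℚ_[p]) _ hF c
  induction h with
  | @good V i1 F hF h =>
    refine ⟨hF, fun {inst} => ?_⟩
    obtain rfl : inst = i1 := Subsingleton.elim _ _
    exact lqa_good σ Pool.Agent.L0h47.RW.hb Pool.Agent.L0h47.RW.t F h
  | curve f hf =>
    refine ⟨hf, fun {inst} => ?_⟩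
    obtain rfl : inst = Fin.fintype 2 := Subsingleton.elim _ _
    exact lqa_curve hy3.r.g4 σ _ (hnc hf)
  | @wh τ i1 i2 G w D hG =>
    refine ⟨E2.nc_wh hG, fun {inst} => ?_⟩
    obtain rfl : inst = i1 := Subsingleton.elim _ _
    exact lqa_wh hy3.r σ G w D hG
  | add V W F G hF hG ihF ihG =>
    refine ⟨E2.nc_add ihF.1, fun {inst} => ?_⟩
    obtain rfl : inst = _ := Subsingleton.elim inst (instFintypeSum V W)
    have h1 := lqa_add hy3.r.g1 σ _ _ ihF.2 ihG.2
    rw [map_add, map_rename, map_rename]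
    exact h1
  | mul V W F G hF hG ihF ihG =>
    have hG0 : G ≠ 0 := fun h0 => ihG.1 0 (by rw [h0, map_zero])
    refine ⟨E2.nc_mul ihF.1 hG0, fun {inst} => ?_⟩
    obtain rfl : inst = _ := Subsingleton.elim inst (instFintypeSum V W)
    have h1 := lqa_mul hy3.r.g2 σ _ _ (hnc ihF.1) (hnc ihG.1) ihF.2 ihG.2
    rw [map_mul, map_rename, map_rename]
    exact h1
  | comp V F P hP hF ihF =>
    refine ⟨E2.nc_comp hP ihF.1, fun {inst} => ?_⟩
    have h1 := lqa_comp hy3.r.g3 σ _ P hP (hnc ihF.1) ihF.2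
    have h6 := Polynomial.hom_eval₂ P (algebraMap ℚ (MvPolynomial V ℚ))
      (MvPolynomial.map (algebraMap ℚ ℚ_[p])) F
    have h7 : (MvPolynomial.map (algebraMap ℚ ℚ_[p])).comp (algebraMap ℚ (MvPolynomial V ℚ)) =
        (algebraMap ℚ_[p] (MvPolynomial V ℚ_[p])).comp (algebraMap ℚ ℚ_[p]) :=
      RingHom.ext_rat _ _
    rw [h7, ← Polynomial.eval₂_map] at h6
    have h8 : map (algebraMap ℚ ℚ_[p]) (Polynomial.aeval F P) =
      Polynomial.aeval (map (algebraMap ℚ ℚ_[p]) F) (P.map (algebraMap ℚ ℚ_[p])) := h6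
    rw [h8]
    exact h1
  | drop V κ F hF ihF =>
    refine ⟨fun c h => ihF.1 c (by rw [h, rename_C]), fun {inst} => ?_⟩
    have h1 := @(ihF.2)
    refine lqa_drop (W := κ) σ _ ?_
    rw [← map_rename]
    exact h1
  | equiv V W i F hF ihF =>
    refine ⟨fun c h => ihF.1 c ?_, fun {inst} => ?_⟩
    · have h1 := congrArg (rename i.symm) h
      rw [rename_rename, rename_C] at h1
      simpa using h1
    · have h1 := lqa_equiv hy3.r.r5 σ i _ ihF.2
      rw [map_rename]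
      exact h1
  | @aut V i1 φ ψ h F hF ihF =>
    refine ⟨nc_aut φ ψ h ihF.1, fun {inst} => ?_⟩
    obtain rfl : inst = i1 := Subsingleton.elim _ _
    classical
    rw [map_aeval']
    refine lqa_aut σ (fun v => map (algebraMap ℚ ℚ_[p]) (φ v))
      (fun v => map (algebraMap ℚ ℚ_[p]) (ψ v)) (fun v => ?_) (fun v => ?_) _ ihF.2
    · rw [← map_aeval', h.1, map_X]
    · rw [← map_aeval', h.2, map_X]

theorem sc_zero {V : Type} [Fintype V] (F : MvPolynomial V ℚ_[p]) : sc 0 F = F := by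
  unfold sc
  have h1 : (fun v : V => C (((p : ℚ_[p]) ^ 0)⁻¹) * X v : V → MvPolynomial V ℚ_[p]) = X := by
    funext v
    rw [pow_zero, inv_one, map_one, one_mul]
  rw [h1, aeval_X_left, AlgHom.id_apply]

open Pool.Agent.W427.SMC Pool.Agent.Y230.PT Pool.Agent.Y230.PS Pool.Agent.Y230.TH Pool.Agent.R852.PP in
/-- the formulas -/
theorem XG_fw {V : Type} [Fintype V] (F : MvPolynomial V ℚ) (h : FW V F) : XG w2 p F := by
  obtain ⟨emb⟩ := exists_emb p
  obtain ⟨h2, h3⟩ := lqa_fw (p := p) emb h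
  obtain ⟨K0, hK⟩ := gi_of_lqa emb _ h3 0
  have h4 := hK K0 le_rfl
  rw [sc_zero] at h4
  have h1 : XW w2 p F := G6.main hy3.d emb F K0 h4
  exact ⟨fun h0 => h2 0 (by rw [h0, map_zero]), FR_of_XW (FK_nc _ h2) h1, h1⟩

end Pool.Agent.L0h21.RW
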