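import Pool.Agent.N138.SU.Cl

set_option autoImplicit false

/-! # The formulas over the plane curves and the polynomials with weighted centres -/

namespace Pool.Agent.L0h21.RW

open MvPolynomial Pool.Agent.N138.SU

section points

variable {V J : Type}

/-- The hypersurfaces `{f_j = 0}`, `j : J`, have normal crossings at the point `P` of `ℂ ^ V`: the
gradients at `P` of those `f_j` which vanish at `P` are linearly independent. -/
def NormalCrossingsAt (f : J → MvPolynomial V ℂ) (P : V → ℂ) : Prop :=
  LinearIndependent ℂ fun (j : {j : J // eval P (f j) = 0}) (v : V) => eval P (pderiv v (f j.1))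

/-- The polynomial `q(P + x)`. -/
noncomputable def shift (P : V → ℂ) (q : MvPolynomial V ℂ) : MvPolynomial V ℂ :=
  aeval (fun v => C (P v) + X v) q

/-- `g` is the component of weighted degree `e` of `q`, and all the components of lower weighted
degree vanish. -/
def IsInitialForm (w : V → ℕ) (e : ℕ) (q g : MvPolynomial V ℂ) : Prop :=
  (∀ a < e, weightedHomogeneousComponent w a q = 0) ∧ weightedHomogeneousComponent w e q = g

/-- The point `P` is a weighted centre of the divisors `{f_j = 0}`, with weights `w v`, initial
forms `g j` of degree `e j`, and a polynomial `h` in the variables of weight zero. -/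
structure IsWeightedCentre (f : J → MvPolynomial V ℂ) (P : V → ℂ) (w : V → ℕ)
    (e : J → ℕ) (g : J → MvPolynomial V ℂ) (h : MvPolynomial V ℂ) : Prop where
  /-- At least two weights are positive. -/
  two : ∃ v v', v ≠ v' ∧ 0 < w v ∧ 0 < w v'
  /-- `g j` is the initial form of `f j (P + x)`, and `e j` is its degree. -/
  initial : ∀ j, IsInitialForm w (e j) (shift P (f j)) (g j)
  /-- Only variables of weight zero occur in `h`. -/
  vars : ∀ v ∈ h.vars, w v = 0
  /-- `h` does not vanish at the origin. -/
  ne : eval 0 h ≠ 0
  /-- The initial forms have normal crossings at the points `y`, with `h y ≠ 0`, which are not on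
  the subspace where the variables of positive weight vanish. -/
  normal : ∀ y, eval y h ≠ 0 → (∃ v, 0 < w v ∧ y v ≠ 0) → NormalCrossingsAt g y
  /-- The `f j` do not have normal crossings at the points `P + y`, with `h y ≠ 0` and with `y` on
  the subspace where the variables of positive weight vanish. -/
  bad : ∀ y, eval y h ≠ 0 → (∀ v, 0 < w v → y v = 0) → ¬ NormalCrossingsAt f (P + y)

/-- `x ↦ φ(x)` is an automorphism of the affine space, and `ψ` is its inverse. -/
def IsAut {K : Type} [CommRing K] (φ ψ : V → MvPolynomial V K) : Prop :=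
  (∀ v, aeval φ (ψ v) = X v) ∧ ∀ v, aeval ψ (φ v) = X v

/-- The coefficients of `q` are in the field `ℚ(P)` generated by the coordinates of `P`. -/
def OverPoint (P : V → ℂ) (q : MvPolynomial V ℂ) : Prop :=
  ∀ d, coeff d q ∈ Subfield.closure (Set.range P)

/-- The fibre of the polynomial `F` through the point `P` of `ℂ ^ V` has normal crossings or a
weighted centre at `P`. In detail: there are a factorization
`F(x) - F(P) = c ∏_j f_j(x) ^ (m_j)` and an automorphism `φ` of the affine space, with
`φ(Q) = P`, all of them over the field `ℚ(P)` generated by the coordinates of `P`, such that the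
`f_j` have normal crossings at `P`, or `Q` is a weighted centre of the `f_j(φ(x))`. (For instance,
there is only one `j`, `f_j = F - F(P)`, `m_j = 1` and `φ` is the identity, `Q = P`.) -/
def GoodPoint [Fintype V] (F : MvPolynomial V ℂ) (P : V → ℂ) : Prop :=
  ∃ (J : Type) (_ : Fintype J) (f : J → MvPolynomial V ℂ) (m : J → ℕ) (c : ℂ)
    (φ ψ : V → MvPolynomial V ℂ) (Q : V → ℂ),
    F - C (eval P F) = C c * ∏ j, f j ^ m j ∧ (∀ j, 0 < m j) ∧ c ≠ 0 ∧
    IsAut φ ψ ∧ (∀ v, eval Q (φ v) = P v) ∧
    OverPoint P (C c) ∧ (∀ j, OverPoint P (f j)) ∧ (∀ v, OverPoint P (φ v)) ∧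
    (∀ v, OverPoint P (ψ v)) ∧
    (NormalCrossingsAt f P ∨ ∃ w e g h, IsWeightedCentre (fun j => aeval φ (f j)) Q w e g h)

end points

/-- The smallest class of polynomials `F`, in any finite set of variables `V`, with the following
properties. -/
inductive FW : (V : Type) → MvPolynomial V ℚ → Prop
  /-- it contains the nonconstant polynomials all of whose fibres have, at each one of their
  complex points, normal crossings or a weighted centre -/
  | good (V : Type) [Fintype V] (F : MvPolynomial V ℚ) (hF : ∀ c : ℚ, F ≠ C c)
      (h : ∀ P : V → ℂ, GoodPoint (map (algebraMap ℚ ℂ) F) P) : FW V F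
  /-- it contains all nonconstant polynomials in two variables -/
  | curve (f : MvPolynomial (Fin 2) ℚ) (hf : ∀ c : ℚ, f ≠ C c) : FW (Fin 2) f
  /-- it contains the weighted homogeneous polynomials with an isolated critical point -/
  | wh (τ : Type) [Fintype τ] [Nonempty τ] (G : MvPolynomial τ ℚ) (w : τ → ℕ) (D : ℕ)
      (hG : IsWH G w D) : FW τ G
  /-- the sums `F(x) + G(y)` -/
  | add (V W : Type) [Fintype V] [Fintype W] (F : MvPolynomial V ℚ) (G : MvPolynomial W ℚ)
      (hF : FW V F) (hG : FW W G) : FW (V ⊕ W) (rename Sum.inl F + rename Sum.inr G)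
  /-- the products `F(x) G(y)` -/
  | mul (V W : Type) [Fintype V] [Fintype W] (F : MvPolynomial V ℚ) (G : MvPolynomial W ℚ)
      (hF : FW V F) (hG : FW W G) : FW (V ⊕ W) (rename Sum.inl F * rename Sum.inr G)
  /-- the compositions `P(F(x))`, for every nonconstant polynomial `P` in one variable -/
  | comp (V : Type) [Fintype V] (F : MvPolynomial V ℚ) (P : Polynomial ℚ) (hP : 1 ≤ P.natDegree)
      (hF : FW V F) : FW V (Polynomial.aeval F P)
  /-- variables which do not occur may be dropped -/
  | drop (V κ : Type) [Fintype V] [Fintype κ] (F : MvPolynomial V ℚ)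
      (hF : FW (V ⊕ κ) (rename Sum.inl F)) : FW V F
  /-- the variables may be renamed -/
  | equiv (V W : Type) [Fintype V] [Fintype W] (i : V ≃ W) (F : MvPolynomial V ℚ)
      (hF : FW V F) : FW W (rename i F)
  /-- automorphisms of the affine space may be applied -/
  | aut (V : Type) [Fintype V] (φ ψ : V → MvPolynomial V ℚ) (h : IsAut φ ψ)
      (F : MvPolynomial V ℚ) (hF : FW V F) : FW V (aeval φ F)

end Pool.Agent.L0h21.RW
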