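import Pool.Agent.N138.RF.Cl3
import Pool.Agent.L0h21.RW.FW

set_option autoImplicit false

/-! # The larger class of polynomials and ideals -/

namespace Pool.Agent.L0h21.RW

open MvPolynomial Pool.Agent.Y230.PS Pool.Agent.Y230.TH Pool.Agent.R852.PP Pool.Agent.N138.SU
open Pool.Agent.N138.RF

/-- The smallest classes of ideals, of polynomials, and of polynomials `F` for which the sums
`F(x) + G(y)` may be formed, with the following properties. They contain the classes `Cl3`, and the
formulas `FW`. A polynomial `F` is the family with the only member `F`, `hyp F`. -/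
inductive Cl4 : Kd → FamQ → Prop
  /-- the members of the class `Cl3` -/
  | cl (c : Kd) (A : FamQ) (h : Cl3 c A) : Cl4 c A
  /-- the formulas -/
  | fw (V : Type) [Fintype V] (F : MvPolynomial V ℚ) (h : FW V F) : Cl4 .susp (hyp F)
  /-- the sums `F(x) + G(y)`, `G` weighted homogeneous with an isolated critical point -/
  | add (V τ : Type) [Fintype V] [Fintype τ] [Nonempty τ] (F : MvPolynomial V ℚ)
      (G : MvPolynomial τ ℚ) (w : τ → ℕ) (D : ℕ) (hG : IsWH G w D)
      (hF : Cl4 .susp (hyp F)) : Cl4 .susp (hyp (addF F G))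
  /-- the polynomials `∑ y_j f_j(x)` -/
  | univ (A : FamQ) (hA : Cl4 .ideal A) : Cl4 .susp A.univ
  /-- the Thom-Sebastiani sums `∑ y_j f_j(x) + g(z)` -/
  | ts (c : Kd) (hc : c ≠ .ideal) (A : FamQ) (τ : Type) [Fintype τ] (g : MvPolynomial τ ℚ)
      (hA : Cl4 .ideal A) (hg : Cl4 c (hyp g)) : Cl4 c (tsum A τ g)
  /-- the product of two polynomials, or two ideals, in disjoint sets of variables -/
  | mul (c : Kd) (A B : FamQ) (hA : Cl4 c A) (hB : Cl4 c B) : Cl4 c (A.mul B)
  /-- variables which do not occur may be dropped -/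
  | drop (c : Kd) (hc : c ≠ .ideal) (V κ : Type) [Fintype V] [Fintype κ] (g : MvPolynomial V ℚ)
      (h : Cl4 c (hyp (rename Sum.inl g : MvPolynomial (V ⊕ κ) ℚ))) : Cl4 c (hyp g)
  /-- the variables and the generators may be indexed differently -/
  | equiv (c : Kd) (A B : FamQ) (i : A.σ ≃ B.σ) (k : A.ι ≃ B.ι)
      (h : ∀ j, B.f (k j) = rename i (A.f j)) (hA : Cl4 c A) : Cl4 c B
  /-- the third class is contained in the second one -/
  | poly (A : FamQ) (h : Cl4 .susp A) : Cl4 .poly A
  /-- the products of powers `h(x) ∏_t (∑_j y_{t, j} f_{t, j}(x)) ^ a_t`, if the ideal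
  `h ∏_t (f_{t, j})_j ^ a_t` is in the class -/
  | form (V : Type) [Fintype V] (m : ℕ) (r a : Fin m → ℕ) (hm : 0 < m) (ha : ∀ t, 0 < a t)
      (h : MvPolynomial V ℚ) (f : (t : Fin m) → Fin (r t) → MvPolynomial V ℚ)
      (hA : Cl4 .ideal (genQ a h f)) : Cl4 .poly (formQ a h f)
  /-- a polynomial is a principal ideal -/
  | prin (A : FamQ) (h : Cl4 .poly A) : Cl4 .ideal A
  /-- the powers of a polynomial -/
  | pow (V : Type) [Fintype V] (g : MvPolynomial V ℚ) (k : ℕ) (hk : k ≠ 0)
      (h : Cl4 .poly (hyp g)) : Cl4 .ideal (hyp (g ^ k))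
  /-- the sum of two ideals in disjoint sets of variables -/
  | sum (A B : FamQ) (hA : Cl4 .ideal A) (hB : Cl4 .ideal B) : Cl4 .ideal (A.sum B)
  /-- a polynomial `F` is in the second class if the ideal `(F)` is in the first one and `(s + 1) ^ 2`
  divides every Bernstein-Sato polynomial of `F` -/
  | up (V : Type) [Fintype V] (F : MvPolynomial V ℚ)
      (hm : ∀ b : Polynomial ℂ, Pool.Agent.H628R4.TP.IsBFunction (map (algebraMap ℚ ℂ) F) b →
        (Polynomial.X + 1) ^ 2 ∣ b)
      (h : Cl4 .ideal (hyp F)) : Cl4 .poly (hyp F)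

end Pool.Agent.L0h21.RW
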