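import Pool.Agent.L0h21.RW.P16
import Pool.Agent.L0h21.RW.FW
import Pool.Agent.L0h21.RW.StmB

/-! The base cases. -/

set_option autoImplicit false
set_option linter.unusedSectionVars false

namespace Pool.Agent.L0h21.RW

open MvPolynomial MeasureTheory
open Pool.Agent.W427.SMC (msZ bsZ mu isom_surj)
open Pool.Agent.Y230.PT (msK bsK inc inc_emb rr)
open Pool.Agent.Y230.PS (EP)
open Pool.Agent.N138.SU Pool.Agent.N138.SV Pool.Agent.N138.RF
open Pool.Agent.L0h21.SN hiding bal

attribute [local instance] msK bsK msZ bsZ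

variable {p : ℕ} [Fact p.Prime] {V : Type} [Fintype V]

section lift

variable (σ : ℚ_[p] →+* ℂ)

theorem sig_eval (P : V → ℚ_[p]) (q : MvPolynomial V ℚ_[p]) :
    σ (eval P q) = eval (fun v => σ (P v)) (map σ q) := by
  induction q using MvPolynomial.induction_on with
  | C a => rw [eval_C, map_C, eval_C]
  | add f g hf hg => rw [map_add, map_add, map_add, map_add, hf, hg]
  | mul_X f i hf => rw [map_mul, map_mul, map_mul, map_mul, hf, eval_X, map_X, eval_X]

theorem closure_le_range (P : V → ℚ_[p]) :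
    Subfield.closure (Set.range fun v => σ (P v)) ≤ σ.fieldRange := by
  rw [Subfield.closure_le]
  rintro _ ⟨v, rfl⟩
  exact ⟨P v, rfl⟩

theorem lift_over (P : V → ℚ_[p]) (q : MvPolynomial V ℂ) (h : OverPoint (fun v => σ (P v)) q) :
    ∃ q' : MvPolynomial V ℚ_[p], map σ q' = q := by
  have h1 : q ∈ Set.range (MvPolynomial.map σ) := by
    rw [mem_range_map_iff_coeffs_subset]
    intro a ha
    rw [Finset.mem_coe, mem_coeffs_iff] at ha
    obtain ⟨d, -, rfl⟩ := ha
    obtain ⟨b, hb⟩ := closure_le_range σ P (h d)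
    exact ⟨b, hb⟩
  exact h1

theorem nc_iff {J : Type} [DecidableEq V] [Fintype J] [DecidableEq J]
    (f : J → MvPolynomial V ℂ) (P : V → ℂ) : NormalCrossingsAt f P ↔ SNCAt' f P := by
  unfold SNCAt' NormalCrossingsAt
  have h1 : ⇑(aeval P : MvPolynomial V ℂ →ₐ[ℂ] ℂ) = ⇑(eval P) := by
    funext g
    rw [aeval_eq_eval]
  rw [h1]

theorem shift_eq [DecidableEq V] (P : V → ℂ) (q : MvPolynomial V ℂ) : shift P q = trl P q := by
  rw [shift, trl]
  congr 2
  funext v
  exact add_comm _ _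

theorem centre_of {J : Type} [DecidableEq V] [Fintype J] [DecidableEq J]
    {f : J → MvPolynomial V ℂ} {P : V → ℂ} {w : V → ℕ} {e : J → ℕ} {g : J → MvPolynomial V ℂ}
    {h : MvPolynomial V ℂ} (H : IsWeightedCentre f P w e g h) : CentreAt f P w e g h := by
  refine ⟨?_, ?_, ?_, H.ne, ?_, ?_⟩
  · obtain ⟨v, v', h1, h2, h3⟩ := H.two
    exact Fintype.one_lt_card_iff.mpr ⟨⟨v, h2⟩, ⟨v', h3⟩, fun h => h1 (congrArg Subtype.val h)⟩
  · intro j
    have h1 := H.initial j
    rw [shift_eq] at h1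
    exact h1
  · intro d hd
    rw [Finsupp.weight_apply, Finsupp.sum_fintype _ _ (by simp)]
    refine Finset.sum_eq_zero fun v _ => ?_
    by_cases hv : d v = 0
    · rw [hv, zero_smul]
    · rw [H.vars v ((mem_vars_iff_mem_support v).mpr ⟨d, mem_support_iff.mpr hd,
        Finsupp.mem_support_iff.mpr hv⟩), smul_zero]
  · intro y hy hv
    rw [aeval_eq_eval] at hy
    exact (nc_iff _ y).mp (H.normal y hy hv)
  · intro y hy hv hs
    rw [aeval_eq_eval] at hy
    refine H.bad y hy hv ((nc_iff _ _).mpr ?_)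
    have h1 : (P + y) = fun v => y v + P v := by
      funext v
      rw [Pi.add_apply, add_comm]
    rw [h1]
    exact hs

/-- **Polynomials all of whose fibres have weighted centres.** -/
theorem lqa_good (hb : S_HB) (ht : S_T) (F : MvPolynomial V ℚ)
    (h : ∀ P : V → ℂ, GoodPoint (map (algebraMap ℚ ℂ) F) P) :
    LQA σ (map (algebraMap ℚ ℚ_[p]) F) := by
  classical
  intro P
  have hemb : σ.comp (algebraMap ℚ ℚ_[p]) = algebraMap ℚ ℂ := RingHom.ext_rat _ _
  set F' : MvPolynomial V ℚ_[p] := map (algebraMap ℚ ℚ_[p]) F with hF'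
  have hFσ : map σ F' = map (algebraMap ℚ ℂ) F := by rw [hF', map_map, hemb]
  obtain ⟨J, iJ, f, m, c, φ, ψ, Q, hfac, hm, hc, ⟨ha1, ha2⟩, hQ, hoc, hof, hoφ, hoψ, hcen⟩ :=
    h (fun v => σ (P v))
  have hinj : Function.Injective (MvPolynomial.map σ : MvPolynomial V ℚ_[p] → MvPolynomial V ℂ) :=
    MvPolynomial.map_injective σ σ.injective
  choose f' hf' using fun j => lift_over σ P (f j) (hof j)
  choose φ' hφ' using fun v => lift_over σ P (φ v) (hoφ v)
  choose ψ' hψ' using fun v => lift_over σ P (ψ v) (hoψ v)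
  obtain ⟨c', hc'⟩ : ∃ c' : ℚ_[p], σ c' = c := by
    have h1 := hoc 0
    rw [coeff_zero_C] at h1
    exact closure_le_range σ P h1
  have hφφ : (fun v => map σ (φ' v)) = φ := funext hφ'
  have hψψ : (fun v => map σ (ψ' v)) = ψ := funext hψ'
  have ha1' : ∀ v, aeval φ' (ψ' v) = X v := by
    intro v
    apply hinj
    rw [map_aeval', hφφ, hψ', ha1, map_X]
  have ha2' : ∀ v, aeval ψ' (φ' v) = X v := by
    intro v
    apply hinj
    rw [map_aeval', hψψ, hφ', ha2, map_X]
  set Q' : V → ℚ_[p] := fun v => eval P (ψ' v) with hQ'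
  have hφQ' : ∀ v, eval Q' (φ' v) = P v := by
    intro v
    have h1 := congrArg (eval P) (ha2' v)
    rw [eval_aeval', eval_X] at h1
    exact h1
  have hσQ : (fun v => σ (Q' v)) = Q := by
    funext v
    have h1 := congrArg (eval Q) (ha1 v)
    rw [eval_aeval', eval_X] at h1
    have h2 : (fun v => eval Q (φ v)) = fun v => σ (P v) := funext hQ
    rw [← h1, h2, ← hψ' v, ← sig_eval]
  have hc0' : c' ≠ 0 := by
    rintro rfl
    rw [map_zero] at hc'
    exact hc hc'.symm
  have hfac' : F' - C (eval P F') = C c' * ∏ j, f' j ^ m j := by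
    apply hinj
    rw [map_sub, map_mul, map_prod, map_C, map_C, hc', hFσ]
    rw [sig_eval, hFσ, hfac]
    congr 1
    refine Finset.prod_congr rfl fun j _ => ?_
    rw [map_pow, hf']
  have hfac2 : aeval φ' F' - C (eval Q' (aeval φ' F')) =
      C c' * ∏ j, (aeval φ' (f' j)) ^ m j := by
    have h1 := congrArg (aeval φ') hfac'
    rw [map_sub, map_mul, map_prod, aeval_C, aeval_C, algebraMap_eq] at h1
    rw [eval_aeval', funext hφQ', h1]
    congr 1
    exact Finset.prod_congr rfl fun j _ => map_pow _ _ _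
  rcases hcen with h1 | ⟨w, e, g, h2, H⟩
  · refine lq_of_family hb ht σ F' P f' m hm c' hc0' hfac' (Or.inl ?_)
    have h2 : (fun j => map σ (f' j)) = f := funext hf'
    rw [h2]
    exact (nc_iff f _).mp h1
  · refine lq_aut σ φ' ψ' ha1' ha2' F' P Q' hφQ' ?_
    refine lq_of_family hb ht σ (aeval φ' F') Q' (fun j => aeval φ' (f' j)) m hm c' hc0' hfac2 ?_
    right
    have h3 : (fun j => map σ (aeval φ' (f' j))) = fun j => aeval φ (f j) := by
      funext j
      rw [map_aeval', hφφ, hf']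
    rw [h3, hσQ]
    exact ⟨w, e, g, h2, centre_of H⟩

end lift

end Pool.Agent.L0h21.RW
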