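import Pool.Agent.N138.RF.Gen
import Pool.Agent.N138.RF.G5
import Pool.Agent.N138.RF.S
import Pool.Agent.N138.RF.Wh
import Pool.Agent.N138.RF.L4
import Pool.Agent.N138.RF.L5
import Pool.Agent.N138.RF.D
import Pool.Agent.L0h21.SN.PadR2

/-! Good distributions: products of powers of linear functions of independent variables. -/

set_option autoImplicit false
set_option linter.unusedSectionVars false

namespace Pool.Agent.L0h21.RW

open MvPolynomial MeasureTheory
open Pool.Agent.W427.SMC (msZ bsZ mu)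
open Pool.Agent.Y230.PT (msK bsK inc inc_emb rr)
open Pool.Agent.Y230.PS (EP)
open Pool.Agent.N138.SU Pool.Agent.N138.SV Pool.Agent.N138.RF

attribute [local instance] msK bsK msZ bsZ

variable {p : ℕ} [Fact p.Prime]

/-- `m`-th roots of the numbers near `1`. -/
theorem exists_root (m : ℕ) (hm : 1 ≤ m) : ∃ (C : ℕ) (R : ℤ_[p] → ℤ_[p]), R 1 = 1 ∧
    (∀ u, ‖u - 1‖ ≤ ((p : ℝ)⁻¹) ^ C → R u ^ m = u) ∧
    ∀ u u', ‖u - 1‖ ≤ ((p : ℝ)⁻¹) ^ C → ‖u' - 1‖ ≤ ((p : ℝ)⁻¹) ^ C →
      ‖R u - R u'‖ * ‖(m : ℤ_[p])‖ = ‖u - u'‖ := by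
  have hp1 : (1 : ℝ) < p := by exact_mod_cast (Fact.out : p.Prime).one_lt
  have hm0 : (0 : ℝ) < ‖(m : ℤ_[p])‖ := by
    rw [norm_pos_iff]
    exact_mod_cast (by omega : m ≠ 0)
  have hinv : (p : ℝ)⁻¹ < 1 := inv_lt_one_of_one_lt₀ hp1
  obtain ⟨C, hC⟩ := exists_pow_lt_of_lt_one (show 0 < ‖(m : ℤ_[p])‖ ^ 2 by positivity) hinv
  have key : ∀ u : ℤ_[p], ‖u - 1‖ ≤ ((p : ℝ)⁻¹) ^ C → ∃ z : ℤ_[p], z ^ m = u ∧
      ‖z - 1‖ < ‖(m : ℤ_[p])‖ := by
    intro v hv
    have hv' : ‖v - 1‖ < ‖(m : ℤ_[p])‖ ^ 2 := lt_of_le_of_lt hv hC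
    let F : Polynomial ℤ_[p] := Polynomial.X ^ m - Polynomial.C v
    have h1 : F.aeval (1 : ℤ_[p]) = 1 - v := by
      simp [F]
    have h2 : F.derivative.aeval (1 : ℤ_[p]) = m := by
      simp [F, Polynomial.derivative_X_pow]
    have hnorm : ‖F.aeval (1 : ℤ_[p])‖ < ‖F.derivative.aeval (1 : ℤ_[p])‖ ^ 2 := by
      rw [h1, h2, norm_sub_rev]
      exact hv'
    obtain ⟨z, hz1, hz2, -⟩ := hensels_lemma hnorm
    rw [h2] at hz2
    refine ⟨z, ?_, hz2⟩
    have : F.aeval z = z ^ m - v := by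
      simp [F]
    rw [this] at hz1
    exact sub_eq_zero.1 hz1
  have key2 : ∀ z z' : ℤ_[p], ‖z - 1‖ < ‖(m : ℤ_[p])‖ → ‖z' - 1‖ < ‖(m : ℤ_[p])‖ →
      ‖z - z'‖ * ‖(m : ℤ_[p])‖ = ‖z ^ m - z' ^ m‖ := by
    intro z z' hz hz'
    have hpow : ∀ (w : ℤ_[p]), ‖w - 1‖ < ‖(m : ℤ_[p])‖ → ∀ i : ℕ,
        ‖w ^ i - 1‖ < ‖(m : ℤ_[p])‖ := by
      intro w hw i
      induction i with
      | zero => simpa using hm0
      | succ i ih =>
        have e : w ^ (i + 1) - 1 = w ^ i * (w - 1) + (w ^ i - 1) := by ring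
        rw [e]
        refine (PadicInt.nonarchimedean _ _).trans_lt (max_lt ?_ ih)
        rw [norm_mul]
        exact (mul_le_of_le_one_left (norm_nonneg _) (PadicInt.norm_le_one _)).trans_lt hw
    have h1 : z ^ m - z' ^ m = (z - z') * ∑ i ∈ Finset.range m, z ^ i * z' ^ (m - 1 - i) :=
      ((Commute.all z z').mul_geom_sum₂ m).symm
    have h2 : ‖(∑ i ∈ Finset.range m, z ^ i * z' ^ (m - 1 - i)) - (m : ℤ_[p])‖ <
        ‖(m : ℤ_[p])‖ := by
      have e : (∑ i ∈ Finset.range m, z ^ i * z' ^ (m - 1 - i)) - (m : ℤ_[p]) =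
          ∑ i ∈ Finset.range m, (z ^ i * z' ^ (m - 1 - i) - 1) := by
        rw [Finset.sum_sub_distrib]
        simp
      rw [e]
      obtain ⟨i, -, hi⟩ := IsUltrametricDist.exists_norm_finsetSum_le_of_nonempty
        (t := Finset.range m) (Finset.nonempty_range_iff.mpr (Nat.one_le_iff_ne_zero.mp hm))
        (fun i => z ^ i * z' ^ (m - 1 - i) - 1)
      refine hi.trans_lt ?_
      have e2 : z ^ i * z' ^ (m - 1 - i) - 1 = z ^ i * (z' ^ (m - 1 - i) - 1) + (z ^ i - 1) := by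
        ring
      rw [e2]
      refine (PadicInt.nonarchimedean _ _).trans_lt (max_lt ?_ (hpow z hz i))
      rw [norm_mul]
      exact (mul_le_of_le_one_left (norm_nonneg _) (PadicInt.norm_le_one _)).trans_lt
        (hpow z' hz' _)
    have h3 : ‖∑ i ∈ Finset.range m, z ^ i * z' ^ (m - 1 - i)‖ = ‖(m : ℤ_[p])‖ :=
      Pool.Agent.W427.SMC.norm_eq_of_sub_lt p _ _ h2
    rw [h1, norm_mul, h3]
  choose! R hR1 hR2 using key
  have h1 : ‖(1 : ℤ_[p]) - 1‖ ≤ ((p : ℝ)⁻¹) ^ C := by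
    rw [sub_self, norm_zero]
    positivity
  refine ⟨C, R, ?_, hR1, fun u u' hu hu' => ?_⟩
  · have h2 := key2 (R 1) 1 (hR2 1 h1) (by rw [sub_self, norm_zero]; exact hm0)
    rw [hR1 1 h1, one_pow, sub_self, norm_zero] at h2
    have h3 := (mul_eq_zero.mp h2).resolve_right hm0.ne'
    exact sub_eq_zero.mp (norm_eq_zero.mp h3)
  · rw [key2 _ _ (hR2 u hu) (hR2 u' hu'), hR1 u hu, hR1 u' hu']

/-- Small perturbations of isometries are isometries. -/
theorem isom_close {T : Type} [Fintype T] (ψ ψ' : (T → ℤ_[p]) → (T → ℤ_[p])) (hψ : Isometry ψ)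
    (h : ∀ a a', a ≠ a' → ‖(ψ' a - ψ a) - (ψ' a' - ψ a')‖ < ‖a - a'‖) : Isometry ψ' := by
  refine Isometry.of_dist_eq fun a a' => ?_
  rcases eq_or_ne a a' with rfl | hne
  · simp
  have h1 := hψ.dist_eq a a'
  rw [dist_eq_norm, dist_eq_norm] at h1 ⊢
  have h2 : ψ' a - ψ' a' = ((ψ' a - ψ a) - (ψ' a' - ψ a')) + (ψ a - ψ a') := by abel
  have h3 := h a a' hne
  rw [← h1] at h3
  rw [h2, IsUltrametricDist.norm_add_eq_max_of_norm_ne_norm h3.ne, max_eq_right h3.le, h1]

/-- Powers of linear functions of one variable. -/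
theorem gd_one (κ r N : ℤ_[p]) (hκ : κ ≠ 0) (hN : N ≠ 0) (m : ℕ) (hm : 1 ≤ m) (M : ℂ → ℕ∞)
    (hM : 2 ≤ m → ∀ T : ℂ, T ^ m = (p : ℂ) → M T = ⊤) :
    Gd (Measure.pi fun _ : Unit => mu p) (fun y => κ * (r + N * y ()) ^ m) M := by
  by_cases hc : m = 1 ∨ ∀ z, r + N * z ≠ 0
  · -- no critical points
    have h1 := S.t p (V := Unit) (map (PadicInt.Coe.ringHom (p := p))
      (C κ * (C r + C N * X ()) ^ m)) (fun y => κ * (r + N * y ()) ^ m) (fun x => by
        rw [← G5.inc_eval]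
        simp) (fun x => ⟨(), by
        rw [pderiv_map]
        have h2 := G5.inc_eval (pderiv () (C κ * (C r + C N * X ()) ^ m)) x
        rw [← h2]
        intro h3
        have h4 : eval x (pderiv () (C κ * (C r + C N * X ()) ^ m)) = 0 :=
          (inc_emb p).injective (h3.trans (map_zero (PadicInt.Coe.ringHom (p := p))).symm)
        rw [pderiv_C_mul, pderiv_pow, map_add, pderiv_C, pderiv_C_mul, pderiv_X_self] at h4
        simp only [zero_add, mul_one, map_mul, map_natCast, map_pow, map_add, eval_C, eval_X] at h4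
        have h5 : (m : ℤ_[p]) ≠ 0 := by exact_mod_cast (by omega : m ≠ 0)
        rcases mul_eq_zero.mp h4 with h6 | h6
        · exact hκ h6
        · rcases mul_eq_zero.mp h6 with h7 | h7
          · rcases mul_eq_zero.mp h7 with h8 | h8
            · exact h5 h8
            · rcases hc with hc | hc
              · rw [hc] at h8
                simp at h8
              · exact hc _ (eq_zero_of_pow_eq_zero h8)
          · exact hN h7⟩) 0
    simp only [sub_zero] at h1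
    exact h1.mono fun T _ => bot_le
  · push Not at hc
    obtain ⟨hm1, z, hz⟩ := hc
    have hr : r = -(N * z) := eq_neg_of_add_eq_zero_left hz
    have h1 := Wh.t p (C (κ * N ^ m) * X () ^ m : MvPolynomial Unit ℤ_[p]) (fun _ => 1) m
      (fun _ => Nat.one_pos) (by omega) (by
        have h2 := (isWeightedHomogeneous_C (fun _ : Unit => 1) (κ * N ^ m)).mul
          ((isWeightedHomogeneous_X ℤ_[p] (fun _ : Unit => 1) ()).pow m)
        simpa using h2) (fun x hx => by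
        funext i
        have h2 := hx ()
        rw [← eval_map, pderiv_C_mul, pderiv_pow, pderiv_X_self] at h2
        simp only [mul_one, map_mul, map_natCast, map_pow, map_X, map_C, eval_C, eval_X] at h2
        have hin : ∀ a : ℤ_[p], a ≠ 0 → PadicInt.Coe.ringHom a ≠ 0 := fun a ha h3 => ha
          ((inc_emb p).injective (h3.trans (map_zero (PadicInt.Coe.ringHom (p := p))).symm))
        have h5 : (m : ℚ_[p]) ≠ 0 := by exact_mod_cast (by omega : m ≠ 0)
        rcases mul_eq_zero.mp h2 with h6 | h6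
        · exact absurd h6 (mul_ne_zero (hin _ hκ) (pow_ne_zero _ (hin _ hN)))
        · rcases mul_eq_zero.mp h6 with h7 | h7
          · exact absurd h7 h5
          · exact eq_zero_of_pow_eq_zero h7)
    have h2 := G5.Gd_trans (fun y : Unit → ℤ_[p] => eval y (C (κ * N ^ m) * X () ^ m))
      (fun _ => -z) _ h1
    have e : (fun y : Unit → ℤ_[p] => eval ((fun _ => -z) + y) (C (κ * N ^ m) * X () ^ m)) =
        fun y => κ * (r + N * y ()) ^ m := by
      funext y
      simp only [map_mul, map_pow, eval_C, eval_X, Pi.add_apply]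
      rw [hr]
      have : -(N * z) + N * y () = N * (-z + y ()) := by ring
      rw [this, mul_pow]
      ring
    rw [e] at h2
    refine h2.mono fun T _ => ?_
    beta_reduce
    split_ifs with h3
    · have h4 : ∑ _i : Unit, 1 = 1 := by simp
      rw [h4, pow_one] at h3
      rw [hM (by omega) T h3]
      exact le_top
    · exact bot_le

theorem gd_prod_fin (n : ℕ) : ∀ (φ : Fin (n + 1) → ℤ_[p] → ℤ_[p]) (_ : ∀ t, Measurable (φ t))
    (M : ℂ → ℕ∞) (_ : ∀ T : ℂ, ‖T‖ ≤ 1 → M T = 0) (_ : ∀ T, M T = 0 ∨ M T = ⊤)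
    (_ : 1 ≤ n → M (p : ℂ) = ⊤)
    (_ : ∀ t, Gd (Measure.pi fun _ : Unit => mu p) (fun y => φ t (y ())) M),
    Gd (Measure.pi fun _ : Fin (n + 1) => mu p) (fun y => ∏ t, φ t (y t)) M := by
  induction n with
  | zero =>
    intro φ _ M _ _ _ hG
    have h1 := (Gd_pi_equiv (Equiv.ofUnique Unit (Fin 1)) (fun y => φ 0 (y ())) M).mpr (hG 0)
    refine (congrArg (fun q => Gd (Measure.pi fun _ : Fin 1 => mu p) q M) ?_).mpr h1
    funext y
    simp
  | succ n ih =>
    intro φ hφ M h0 h01 hp hG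
    have h1 := ih (fun t => φ (Fin.castAdd 1 t)) (fun t => hφ _) M h0 h01
      (fun h => hp (by omega)) (fun t => hG _)
    have hM1 : M (p : ℂ) = ⊤ := hp (by omega)
    have h2 := L4.t p (Measure.pi fun _ : Fin (n + 1) => mu p) (Measure.pi fun _ : Unit => mu p)
      (fun y => ∏ t, φ (Fin.castAdd 1 t) (y t)) (fun y => φ (Fin.last (n + 1)) (y ()))
      (Finset.measurable_prod _ fun t _ => (hφ _).comp (measurable_pi_apply t))
      ((hφ _).comp (measurable_pi_apply ())) M M M (fun T hT => ⟨h0 T hT, h0 T hT⟩)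
      (fun T => by
        rcases h01 T with h | h
        · rw [h, add_zero]
        · rw [h]; exact le_top) (by rw [hM1]; exact le_top) h1 (hG _)
    have h3 := (Gd_sumPi (V := Fin (n + 1)) (W := Unit) (fun y =>
      (∏ t, φ (Fin.castAdd 1 t) (y.1 t)) * φ (Fin.last (n + 1)) (y.2 ())) M).mpr h2
    have h4 := (Gd_pi_equiv ((Equiv.sumCongr (Equiv.refl (Fin (n + 1)))
      (Equiv.ofUnique Unit (Fin 1))).trans finSumFinEquiv) _ M).mpr h3
    refine (congrArg (fun q => Gd (Measure.pi fun _ : Fin (n + 2) => mu p) q M) ?_).mpr h4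
    funext y
    rw [Fin.prod_univ_castSucc]
    rfl

/-- Products of functions of independent variables. -/
theorem gd_prod {T : Type} [Fintype T] [Nonempty T] (φ : T → ℤ_[p] → ℤ_[p])
    (hφ : ∀ t, Measurable (φ t)) (M : ℂ → ℕ∞) (h0 : ∀ z : ℂ, ‖z‖ ≤ 1 → M z = 0)
    (h01 : ∀ z, M z = 0 ∨ M z = ⊤) (hp : 2 ≤ Fintype.card T → M (p : ℂ) = ⊤)
    (hG : ∀ t, Gd (Measure.pi fun _ : Unit => mu p) (fun y => φ t (y ())) M) :
    Gd (Measure.pi fun _ : T => mu p) (fun y => ∏ t, φ t (y t)) M := by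
  obtain ⟨n, hn⟩ : ∃ n, Fintype.card T = n + 1 :=
    ⟨Fintype.card T - 1, by have := Fintype.card_pos (α := T); omega⟩
  let i : Fin (n + 1) ≃ T := (Fintype.equivFinOfCardEq hn).symm
  have h1 := gd_prod_fin n (fun t => φ (i t)) (fun t => hφ _) M h0 h01
    (fun h => hp (by omega)) (fun t => hG _)
  have h2 := (Gd_pi_equiv i (fun y => ∏ t, φ (i t) (y t)) M).mpr h1
  refine (congrArg (fun q => Gd (Measure.pi fun _ : T => mu p) q M) ?_).mpr h2
  funext y
  exact (Equiv.prod_comp i fun t => φ t (y t)).symm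

end Pool.Agent.L0h21.RW
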