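import Pool.Agent.L0h21.RW.StmB
import Pool.Agent.N138.SV.A3
import Pool.Agent.LLead.RW.PC
import Pool.Agent.LLead.RW.PX

/-! Periods from points with normal crossings and from weighted centres. -/

set_option autoImplicit false
set_option linter.unusedSectionVars false

namespace Pool.Agent.L0h21.RW

open MvPolynomial
open Pool.Agent.N138.SV (Per)
open Pool.Agent.L0h21.SN

theorem to_per {τ : Type} {g : MvPolynomial τ ℂ} {e0 : ℂ} (h : Per' g e0) : Per g e0 := by
  obtain ⟨S, hS, h⟩ := h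
  exact ⟨S, ⟨hS.e1, hS.e2, hS.d1, hS.d2, hS.mu⟩, h⟩

variable {V J : Type} [Fintype V] [DecidableEq V] [Fintype J] [DecidableEq J]

/-- A prime factor which vanishes at the point. -/
theorem exists_prime_at (f : MvPolynomial V ℂ) (Q : V → ℂ) (h : eval Q f = 0) (v : V)
    (hv : eval Q (pderiv v f) ≠ 0) :
    ∃ q r : MvPolynomial V ℂ, Prime q ∧ f = q * r ∧ eval Q q = 0 ∧ eval Q r ≠ 0 := by
  have hf0 : f ≠ 0 := by
    rintro rfl
    simp at hv
  obtain ⟨s, hs, hs2⟩ := UniqueFactorizationMonoid.exists_prime_factors f hf0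
  have h1 : eval Q s.prod = 0 := by
    obtain ⟨u, hu⟩ := hs2.symm
    rw [← hu, map_mul, h, zero_mul]
  have h2 : ∃ q ∈ s, eval Q q = 0 := by
    rw [map_multiset_prod, Multiset.prod_eq_zero_iff, Multiset.mem_map] at h1
    exact h1
  obtain ⟨q, hq, hq0⟩ := h2
  obtain ⟨r, hr⟩ : q ∣ f := (Multiset.dvd_prod hq).trans hs2.dvd
  refine ⟨q, r, hs q hq, hr, hq0, fun h3 => hv ?_⟩
  rw [hr, Derivation.leibniz, map_add, smul_eq_mul, smul_eq_mul, map_mul, map_mul, hq0, h3,
    zero_mul, zero_mul, add_zero]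

theorem snc_grad {f : J → MvPolynomial V ℂ} {Q : V → ℂ} (hQ : SNCAt' f Q) (j : J)
    (hj : eval Q (f j) = 0) : ∃ v, eval Q (pderiv v (f j)) ≠ 0 := by
  have h1 := hQ.ne_zero ⟨j, by rw [aeval_ev]; exact hj⟩
  by_contra hcon
  push Not at hcon
  apply h1
  funext v
  rw [Pi.zero_apply, aeval_ev]
  exact hcon v

/-- Different components through the point have no common prime factors through the point. -/
theorem snc_not_dvd {f : J → MvPolynomial V ℂ} {Q : V → ℂ} (hQ : SNCAt' f Q) (i j : J)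
    (hij : i ≠ j) (hj : eval Q (f j) = 0) (q r : MvPolynomial V ℂ) (hqr : f j = q * r)
    (hq : eval Q q = 0) (hr : eval Q r ≠ 0) : ¬ q ∣ f i := by
  rintro ⟨s, hs⟩
  have hi : eval Q (f i) = 0 := by rw [hs, map_mul, hq, zero_mul]
  have hgi : ∀ v, eval Q (pderiv v (f i)) = eval Q s * eval Q (pderiv v q) := by
    intro v
    rw [hs, Derivation.leibniz, map_add, smul_eq_mul, smul_eq_mul, map_mul, map_mul, hq, zero_mul,
      zero_add]
  have hgj : ∀ v, eval Q (pderiv v (f j)) = eval Q r * eval Q (pderiv v q) := by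
    intro v
    rw [hqr, Derivation.leibniz, map_add, smul_eq_mul, smul_eq_mul, map_mul, map_mul, hq,
      zero_mul, zero_add]
  have h1 := linearIndependent_iff'.1 hQ
    {⟨i, by rw [aeval_ev]; exact hi⟩, ⟨j, by rw [aeval_ev]; exact hj⟩}
    (fun t => if t.1 = i then eval Q r else - eval Q s) (by
      rw [Finset.sum_pair (fun h => hij (congrArg Subtype.val h))]
      simp only [if_true, if_neg hij.symm]
      funext v
      simp only [Pi.add_apply, Pi.smul_apply, smul_eq_mul, Pi.zero_apply, aeval_ev, hgi, hgj]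
      ring) ⟨i, by rw [aeval_ev]; exact hi⟩ (Finset.mem_insert_self _ _)
  simp only [if_true] at h1
  exact hr h1

theorem prime_not_dvd_C {q : MvPolynomial V ℂ} (hq : Prime q) {c : ℂ} (hc : c ≠ 0) :
    ¬ q ∣ C c := by
  intro h
  refine hq.not_isUnit (isUnit_of_dvd_unit h ?_)
  exact (isUnit_iff_ne_zero.2 hc).map C

/-- The period of a component. -/
theorem per_comp (f : J → MvPolynomial V ℂ) (m : J → ℕ) (c : ℂ) (hc : c ≠ 0) (Q : V → ℂ)
    (hQ : SNCAt' f Q) (j : J) (hj : eval Q (f j) = 0) (h2 : 2 ≤ m j) :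
    Per (C c * ∏ j, f j ^ m j) (-1 / (m j : ℂ)) := by
  obtain ⟨v, hv⟩ := snc_grad hQ j hj
  obtain ⟨q, r, hq, hqr, hq0, hr0⟩ := exists_prime_at (f j) Q hj v hv
  have e1 : C c * ∏ j, f j ^ m j =
      q ^ m j * (C c * r ^ m j * ∏ i ∈ Finset.univ.erase j, f i ^ m i) := by
    rw [← Finset.mul_prod_erase Finset.univ (fun j => f j ^ m j) (Finset.mem_univ j), hqr,
      mul_pow]
    ring
  rw [e1]
  refine to_per (Pool.Agent.LLead.RW.c q _ (m j) h2 hq fun h => ?_)
  rcases hq.dvd_or_dvd h with h | h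
  · rcases hq.dvd_or_dvd h with h | h
    · exact prime_not_dvd_C hq hc h
    · obtain ⟨s, hs⟩ := hq.dvd_of_dvd_pow h
      exact hr0 (by rw [hs, map_mul, hq0, zero_mul])
  · obtain ⟨i, hi, h⟩ := (Prime.dvd_finsetProd_iff hq _).1 h
    exact snc_not_dvd hQ i j (Finset.ne_of_mem_erase hi) hj q r hqr hq0 hr0
      (hq.dvd_of_dvd_pow h)

/-- The period of a crossing. -/
theorem per_cross (f : J → MvPolynomial V ℂ) (m : J → ℕ) (hm : ∀ j, 1 ≤ m j) (c : ℂ) (hc : c ≠ 0)
    (Q : V → ℂ) (hQ : SNCAt' f Q) (i j : J) (hij : i ≠ j) (hi : eval Q (f i) = 0)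
    (hj : eval Q (f j) = 0) (hl : ∀ l, l ≠ i → l ≠ j → eval Q (f l) ≠ 0) :
    Per (C c * ∏ j, f j ^ m j) (-1) := by
  obtain ⟨v, hv⟩ := snc_grad hQ i hi
  obtain ⟨q, r, hq, hqr, hq0, hr0⟩ := exists_prime_at (f i) Q hi v hv
  obtain ⟨v', hv'⟩ := snc_grad hQ j hj
  obtain ⟨q', r', hq', hqr', hq0', hr0'⟩ := exists_prime_at (f j) Q hj v' hv'
  have e1 : C c * ∏ j, f j ^ m j = q ^ m i * q' ^ m j *
      (C c * r ^ m i * r' ^ m j * ∏ l ∈ (Finset.univ.erase i).erase j, f l ^ m l) := by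
    rw [← Finset.mul_prod_erase Finset.univ (fun j => f j ^ m j) (Finset.mem_univ i),
      ← Finset.mul_prod_erase (Finset.univ.erase i) (fun j => f j ^ m j)
        (Finset.mem_erase.2 ⟨hij.symm, Finset.mem_univ j⟩), hqr, hqr', mul_pow, mul_pow]
    ring
  rw [e1]
  refine to_per (Pool.Agent.LLead.RW.x q q' _ (m i) (m j) (hm i) (hm j) hq hq' (fun h => ?_) Q hq0
    hq0' ?_)
  · exact snc_not_dvd hQ j i hij.symm hi q r hqr hq0 hr0 (hqr' ▸ h.mul_right r')
  · rw [map_mul, map_mul, map_mul, map_pow, map_pow, eval_C, map_prod]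
    refine mul_ne_zero (mul_ne_zero (mul_ne_zero hc (pow_ne_zero _ hr0)) (pow_ne_zero _ hr0'))
      (Finset.prod_ne_zero_iff.2 fun l hl' => ?_)
    rw [map_pow]
    have h1 := Finset.mem_erase.1 hl'
    exact pow_ne_zero _ (hl l (Finset.ne_of_mem_erase h1.2) h1.1)

/-- The period of a weighted centre. -/
theorem per_centre (hb : S_HB) (ht : S_T) (f : J → MvPolynomial V ℂ) (P : V → ℂ) (w : V → ℕ)
    (e : J → ℕ) (g : J → MvPolynomial V ℂ) (h : MvPolynomial V ℂ) (H : CentreAt f P w e g h)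
    (m : J → ℕ) (hm : ∀ j, 0 < m j) (c : ℂ) (hc : c ≠ 0) :
    0 < ∑ j, m j * e j ∧
      Per (C c * ∏ j, f j ^ m j) (-((∑ v, w v : ℕ) : ℂ) / (∑ j, m j * e j : ℕ)) := by
  obtain ⟨hd, hHP⟩ := hb w g e m c h H.card (fun j => (H.low j).hom) hm hc H.h_ne H.hom H.iff
  refine ⟨hd, ?_⟩
  have hlow : LowC w (∑ j, m j * e j) (C c * ∏ j, trl P (f j) ^ m j) (C c * ∏ j, g j ^ m j) := by
    have h1 := LowC.prod (w := w) Finset.univ (e := fun j => m j * e j)
      (p := fun j => trl P (f j) ^ m j) (q := fun j => g j ^ m j) (fun j _ => (H.low j).pow (m j))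
    have h2 := (LowC.C (w := w) c).mul h1
    rwa [zero_add] at h2
  have h1 : Per (C c * ∏ j, trl P (f j) ^ m j)
      (-((∑ v, w v : ℕ) : ℂ) / (∑ j, m j * e j : ℕ)) := by
    refine to_per (ht w (∑ j, m j * e j) _ _ _ hd hlow.1 hlow.2 (fun he v => ?_) hHP)
    have hd0 : ((∑ j, m j * e j : ℕ) : ℂ) ≠ 0 := by exact_mod_cast hd.ne'
    have h3 : ((∑ v, w v : ℕ) : ℂ) = ((∑ j, m j * e j : ℕ) : ℂ) := by
      rw [neg_div, neg_inj, div_eq_one_iff_eq hd0] at he
      exact he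
    have h4 : ∑ v, w v = ∑ j, m j * e j := by exact_mod_cast h3
    rw [← h4]
    -- a second variable of positive weight
    obtain ⟨a, b, hab⟩ := Fintype.one_lt_card_iff.1 H.card
    obtain ⟨u, hu, huv⟩ : ∃ u : V, 0 < w u ∧ u ≠ v := by
      by_cases h5 : a.1 = v
      · exact ⟨b.1, b.2, fun h6 => hab (Subtype.ext (h5.trans h6.symm))⟩
      · exact ⟨a.1, a.2, h5⟩
    have h5 : w v + w u ≤ ∑ v, w v := by
      rw [← Finset.sum_pair huv.symm]
      exact Finset.sum_le_sum_of_subset (Finset.subset_univ _)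
    omega
  refine Pool.Agent.N138.SV.A3.t _ 1 1 P _ one_ne_zero one_ne_zero ?_
  refine (congrArg (fun q => Per q (-((∑ v, w v : ℕ) : ℂ) / (∑ j, m j * e j : ℕ))) ?_).mpr h1
  have h6 : ∀ q : MvPolynomial V ℂ, aeval (fun i => C 1 * X i + C (P i)) q = trl P q := by
    intro q
    rw [trl]
    congr 2
    funext v
    rw [map_one, one_mul]
  rw [h6, map_one, one_mul, map_mul, map_prod]
  congr 1
  · simp [trl]
  · exact Finset.prod_congr rfl fun j _ => by rw [map_pow]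

end Pool.Agent.L0h21.RW
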