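import Pool.Agent.L0h21.RW.P9
import Pool.Agent.L0h21.RW.P10

/-! Good polynomials: divisors with normal crossings outside of weighted centres. -/

set_option autoImplicit false
set_option linter.unusedSectionVars false

namespace Pool.Agent.L0h21.RW

open MvPolynomial MeasureTheory
open Pool.Agent.W427.SMC (msZ bsZ mu isom_surj)
open Pool.Agent.Y230.PT (msK bsK inc inc_emb rr)
open Pool.Agent.Y230.PS (EP)
open Pool.Agent.N138.SU Pool.Agent.N138.SV Pool.Agent.N138.RF
open Pool.Agent.L0h21.SN hiding bal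

attribute [local instance] msK bsK msZ bsZ

variable {p : ℕ} [Fact p.Prime] {V J : Type} [Fintype V] [DecidableEq V] [Fintype J]
  [DecidableEq J]

theorem map_fam (σ : ℚ_[p] →+* ℂ) (f : J → MvPolynomial V ℤ_[p]) (m : J → ℕ) (c : ℤ_[p]) :
    map (emC σ) (Fam f m c) = C (emC σ c) * ∏ j, map (emC σ) (f j) ^ m j := by
  rw [Fam, map_mul, map_C, map_prod]
  simp only [map_pow]

/-- A point where exactly two of the components cross. -/
theorem exists_cross (f : J → MvPolynomial V ℤ_[p]) (x : V → ℤ_[p]) (hx : NCat f x) (i j : J)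
    (hi : eval x (f i) = 0) (hj : eval x (f j) = 0) :
    ∃ x' : V → ℤ_[p], NCat f x' ∧ eval x' (f i) = 0 ∧ eval x' (f j) = 0 ∧
      ∀ l, l ≠ i → l ≠ j → eval x' (f l) ≠ 0 := by
  classical
  have hε0 : (0 : ℝ) < (p : ℝ)⁻¹ := inv_pos'
  have hε1 : (p : ℝ)⁻¹ < 1 := inv_lt_one_of_one_lt₀ (by
    exact_mod_cast (Fact.out : p.Prime).one_lt)
  have hp0 : (p : ℤ_[p]) ≠ 0 := by exact_mod_cast (Fact.out : p.Prime).ne_zero
  set I : Finset J := Finset.univ.filter fun j => eval x (f j) = 0 with hI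
  have hI0 : ∀ j, j ∈ I ↔ eval x (f j) = 0 := fun j => by simp [hI]
  obtain ⟨u, hu⟩ := hx I fun j hj => (hI0 j).1 hj
  rw [eval_minor'] at hu
  set δ : ℤ_[p] := (Matrix.of fun s t : I => eval x (pderiv (u s) (f t.1))).det with hδ
  obtain ⟨L, hL⟩ := ncat_open f x hx
  obtain ⟨k1, hk1⟩ := exists_pow_lt_of_lt_one (norm_pos_iff.2 hu) hε1
  have hk2 : ∀ l : J, ∃ k : ℕ, eval x (f l) ≠ 0 → ((p : ℝ)⁻¹) ^ k < ‖eval x (f l)‖ := by
    intro l
    by_cases h : eval x (f l) = 0
    · exact ⟨0, fun h' => absurd h h'⟩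
    · obtain ⟨k, hk⟩ := exists_pow_lt_of_lt_one (norm_pos_iff.2 h) hε1
      exact ⟨k, fun _ => hk⟩
  choose k2 hk2 using hk2
  set k := L + k1 + ∑ l, k2 l with hk
  have hk2' : ∀ l, k2 l ≤ k := fun l =>
    (Finset.single_le_sum (f := k2) (fun _ _ => Nat.zero_le _) (Finset.mem_univ l)).trans
      (Nat.le_add_left _ _)
  have hnd : ¬ (p : ℤ_[p]) ^ k ∣ δ := by
    intro h
    have h1 := norm_le_of_dvd p _ _ h
    rw [norm_pk] at h1
    have h2 : ((p : ℝ)⁻¹) ^ k ≤ ((p : ℝ)⁻¹) ^ k1 :=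
      pow_le_pow_of_le_one hε0.le hε1.le (by omega)
    exact absurd (hk1.trans_le (h1.trans h2)) (lt_irrefl _)
  obtain ⟨q, hq⟩ := exists_dir u (fun (t : I) v => eval x (pderiv v (f t.1)))
  obtain ⟨ψ, hψ, hψ2⟩ := exists_isom' p (fun t : I => f t.1) x x k δ hnd q hq
    (fun v => by rw [sub_self]; exact dvd_zero _)
  obtain ⟨α, hα⟩ := isom_surj ψ hψ fun t => if t.1 = i ∨ t.1 = j then 0 else 1
  set x' : V → ℤ_[p] := fun v => x v + (p : ℤ_[p]) ^ k * ∑ s, α s * q s v with hx'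
  have hval : ∀ t : I, eval x' (f t.1) =
      (p : ℤ_[p]) ^ k * δ * (if t.1 = i ∨ t.1 = j then 0 else 1) := by
    intro t
    have h1 := hψ2 α t
    rw [hα, (hI0 _).1 t.2, zero_add] at h1
    exact h1
  have hnear : ∀ v, x' v - x v = (p : ℤ_[p]) ^ k * ∑ s, α s * q s v := fun v => by
    rw [hx']
    ring
  refine ⟨x', hL x' fun v => ?_, ?_, ?_, fun l hli hlj => ?_⟩
  · rw [hnear]
    exact Dvd.dvd.mul_right (pow_dvd_pow _ (by omega)) _
  · have h1 := hval ⟨i, (hI0 i).2 hi⟩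
    rw [if_pos (Or.inl rfl), mul_zero] at h1
    exact h1
  · have h1 := hval ⟨j, (hI0 j).2 hj⟩
    rw [if_pos (Or.inr rfl), mul_zero] at h1
    exact h1
  · by_cases hl : eval x (f l) = 0
    · have h1 := hval ⟨l, (hI0 l).2 hl⟩
      rw [if_neg (not_or.2 ⟨hli, hlj⟩), mul_one] at h1
      rw [h1]
      exact mul_ne_zero (pow_ne_zero _ hp0) hu
    · intro h0
      have h1 := eval_lip_norm (f l) x' x (((p : ℝ)⁻¹) ^ k) (by positivity) (fun v => by
        rw [hnear, norm_mul, norm_pk]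
        exact mul_le_of_le_one_right (by positivity) (PadicInt.norm_le_one _))
      rw [h0, zero_sub, norm_neg] at h1
      have h2 : ((p : ℝ)⁻¹) ^ k ≤ ((p : ℝ)⁻¹) ^ k2 l :=
        pow_le_pow_of_le_one hε0.le hε1.le (hk2' l)
      exact absurd ((hk2 l hl).trans_le (h1.trans h2)) (lt_irrefl _)

theorem mP_of (g : MvPolynomial V ℂ) (T : ℂ) (a n : ℕ) (ha : 0 < a) (hn : 0 < n)
    (hT : T ^ a = (p : ℂ) ^ n) (h : Per g (-(n : ℂ) / a)) : mP p g T = ⊤ := by
  have hT0 : T ≠ 0 := by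
    rintro rfl
    rw [zero_pow ha.ne'] at hT
    exact pow_ne_zero n (by exact_mod_cast (Fact.out : p.Prime).ne_zero : (p : ℂ) ≠ 0) hT.symm
  have hT1 : 1 < ‖T‖ := by
    by_contra hcon
    exact Pool.Agent.Y230.PT.not_crit_small (not_lt.1 hcon) a n hn hT
  have h3 := Pool.Agent.Y230.PT.crit_r hT0 a n hT
  have ha0 : (a : ℂ) ≠ 0 := by exact_mod_cast ha.ne'
  have h4 : ((rr p T : ℝ) : ℂ) = -(n : ℂ) / a := by
    rw [eq_div_iff ha0]
    linear_combination h3
  exact mP_top hT1 (h4 ▸ h)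

/-- The conditions on the multiplicities are satisfied. -/
theorem mcat_per (σ : ℚ_[p] →+* ℂ) (f : J → MvPolynomial V ℤ_[p]) (m : J → ℕ)
    (hm : ∀ j, 1 ≤ m j) (c : ℤ_[p]) (hc : c ≠ 0) (x : V → ℤ_[p]) (hx : NCat f x) :
    MCat f m (mP p (map (emC σ) (Fam f m c))) x := by
  have hcσ : emC σ c ≠ 0 := fun h => hc (emC_inj σ (h.trans (map_zero _).symm))
  have hz : ∀ (x : V → ℤ_[p]) j, eval (fun v => emC σ (x v)) (map (emC σ) (f j)) = 0 ↔
      eval x (f j) = 0 := by
    intro x j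
    rw [eval_emC]
    exact ⟨fun h => emC_inj σ (h.trans (map_zero _).symm), fun h => by rw [h, map_zero]⟩
  rw [map_fam]
  refine ⟨fun j hj h2 z hzm => ?_, fun i j hij hi hj => ?_⟩
  · refine mP_of _ z (m j) 1 (by omega) one_pos (by rw [hzm, pow_one]) ?_
    have h1 := per_comp (fun j => map (emC σ) (f j)) m (emC σ c) hcσ (fun v => emC σ (x v))
      (ncat_iff_snc σ f x hx) j ((hz x j).2 hj) h2
    rwa [Nat.cast_one]
  · obtain ⟨x', hx', hi', hj', hl'⟩ := exists_cross f x hx i j hi hj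
    refine mP_of _ _ 1 1 one_pos one_pos rfl ?_
    have h1 := per_cross (fun j => map (emC σ) (f j)) m hm (emC σ c) hcσ
      (fun v => emC σ (x' v)) (ncat_iff_snc σ f x' hx') i j hij ((hz x' i).2 hi')
      ((hz x' j).2 hj') (fun l h1 h2 h3 => hl' l h1 h2 ((hz x' l).1 h3))
    rwa [Nat.cast_one, div_one]

/-- Periods and translations. -/
theorem per_trl (q : MvPolynomial V ℂ) (P : V → ℂ) (e0 : ℂ) (h : Per (trl P q) e0) : Per q e0 := by
  refine Pool.Agent.N138.SV.A3.t q 1 1 P e0 one_ne_zero one_ne_zero ?_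
  refine (congrArg (fun q => Per q e0) ?_).mpr h
  have h6 : ∀ q : MvPolynomial V ℂ, aeval (fun i => C 1 * X i + C (P i)) q = trl P q := by
    intro q
    rw [trl]
    congr 2
    funext v
    rw [map_one, one_mul]
  rw [h6, map_one, one_mul]

theorem mP_trl (q : MvPolynomial V ℂ) (P : V → ℂ) (T : ℂ) (h : mP p (trl P q) T = ⊤) :
    mP p q T = ⊤ := by
  have h1 := mP_le (p := p) (g := trl P q) (T := T) (a := 1) le_rfl (by rw [h]; exact le_top)
  exact mP_top h1.1 (per_trl q P _ h1.2)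

theorem mP_zero (g : MvPolynomial V ℂ) (z : ℂ) (h : ‖z‖ ≤ 1) : mP p g z = 0 := by
  unfold mP
  rw [if_neg fun h2 => absurd h2.1 (not_lt.2 h)]

theorem mP_or (g : MvPolynomial V ℂ) (z : ℂ) : mP p g z = 0 ∨ mP p g z = ⊤ := by
  unfold mP
  split_ifs
  · exact Or.inr rfl
  · exact Or.inl rfl

/-- The distribution near a weighted centre. -/
theorem loc_centre (hb : S_HB) (ht : S_T) (σ : ℚ_[p] →+* ℂ) (f : J → MvPolynomial V ℤ_[p])
    (m : J → ℕ) (hm : ∀ j, 1 ≤ m j) (c : ℤ_[p]) (hc : c ≠ 0) (P : V → ℤ_[p]) (w : V → ℕ)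
    (e : J → ℕ) (g : J → MvPolynomial V ℂ) (h : MvPolynomial V ℂ)
    (H : CentreAt (fun j => map (emC σ) (f j)) (fun v => emC σ (P v)) w e g h) :
    ∃ k0 : ℕ, ∀ (a : V → ℤ_[p]) (k : ℕ), k0 ≤ k → (∀ i, ‖a i - P i‖ ≤ ((p : ℝ)⁻¹) ^ k0) →
      Gd (Measure.pi fun _ : V => mu p) (bal (fun x => eval x (Fam f m c)) a k)
        (mP p (map (emC σ) (Fam f m c))) := by
  have hcσ : emC σ c ≠ 0 := fun h => hc (emC_inj σ (h.trans (map_zero _).symm))
  have htr : ∀ j, map (emC σ) (trl P (f j)) = trl (fun v => emC σ (P v)) (map (emC σ) (f j)) :=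
    fun j => map_trl _ _ _
  have hgp : ∀ j, map (emC σ) (weightedHomogeneousComponent w (e j) (trl P (f j))) = g j := by
    intro j
    rw [map_whc, htr]
    exact (H.low j).2
  have hlow : ∀ j, LowC w (e j) (trl P (f j))
      (weightedHomogeneousComponent w (e j) (trl P (f j))) := by
    intro j
    refine ⟨fun a ha => ?_, rfl⟩
    apply map_injective (emC σ) (emC_inj σ)
    rw [map_whc, htr, map_zero]
    exact (H.low j).1 a ha
  obtain ⟨M0, hM0⟩ := near_prim σ w
    (fun j => weightedHomogeneousComponent w (e j) (trl P (f j))) h H.hom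
    (by rw [← constantCoeff_eq, ← eval_zero]; exact H.ne) (fun y hy hv => by
      simp only [hgp]
      exact H.snc y hy hv)
  have hw : 0 < ∑ v, w v := by
    have : 0 < Fintype.card (Pos w) := by have := H.card; omega
    obtain ⟨v⟩ := Fintype.card_pos_iff.mp this
    exact lt_of_lt_of_le v.2
      (Finset.single_le_sum (f := w) (fun _ _ => Nat.zero_le _) (Finset.mem_univ v.1))
  obtain ⟨hd, hper⟩ := per_centre hb ht _ _ w e g h H m hm (emC σ c) hcσ
  have hFt : map (emC σ) (Fam (fun j => trl P (f j)) m c) =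
      trl (fun v => emC σ (P v)) (map (emC σ) (Fam f m c)) := by
    rw [map_fam, map_fam, map_mul, map_prod]
    congr 1
    · simp [trl]
    · exact Finset.prod_congr rfl fun j _ => by rw [map_pow, htr]
  obtain ⟨k0, hk0⟩ := centre_good w hw e (fun j => trl P (f j)) _ hlow m hm c hc hd M0 hM0
    (mP p (map (emC σ) (Fam f m c))) (mP_zero _) (mP_or _) (fun T hT => by
      rw [map_fam]
      exact mP_of _ T _ _ hd hw hT hper) (fun x hx => by
      have h1 := mcat_per σ (fun j => trl P (f j)) m hm c hc x hx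
      rw [hFt] at h1
      exact ⟨fun j hj h2 z hz => mP_trl _ _ z (h1.1 j hj h2 z hz),
        fun i j hij hi hj => mP_trl _ _ _ (h1.2 i j hij hi hj)⟩)
  refine ⟨k0, fun a k hk ha => ?_⟩
  have h1 := hk0 (fun i => a i - P i) k hk ha
  refine (congrArg (fun q => Gd (Measure.pi fun _ : V => mu p) q
    (mP p (map (emC σ) (Fam f m c)))) ?_).mpr h1
  funext y
  unfold Pool.Agent.N138.RF.bal
  have h2 : Fam (fun j => trl P (f j)) m c = trl P (Fam f m c) := by
    rw [Fam, Fam, map_mul, map_prod]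
    congr 1
    · simp [trl]
    · exact Finset.prod_congr rfl fun j _ => by rw [map_pow]
  rw [h2]
  beta_reduce
  rw [eval_trl]
  congr 2
  funext i
  ring

/-- **Good polynomials.** -/
theorem gi_base (hb : S_HB) (ht : S_T) (σ : ℚ_[p] →+* ℂ) (f : J → MvPolynomial V ℤ_[p])
    (m : J → ℕ) (hm : ∀ j, 1 ≤ m j) (c : ℤ_[p]) (hc : c ≠ 0)
    (hz : ∀ P : V → ℤ_[p], eval P (Fam f m c) = 0 → NCat f P ∨ ∃ w e g h,
      CentreAt (fun j => map (emC σ) (f j)) (fun v => emC σ (P v)) w e g h)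
    (hn : ∀ P : V → ℤ_[p], eval P (Fam f m c) ≠ 0 →
      (∃ v, eval P (pderiv v (Fam f m c)) ≠ 0) ∨ ∃ w e g h,
      CentreAt (fun _ : Unit => map (emC σ) (Fam f m c - C (eval P (Fam f m c))))
        (fun v => emC σ (P v)) w e g h) :
    GI σ (map (PadicInt.Coe.ringHom (p := p)) (Fam f m c)) := by
  refine ⟨fun x => eval x (Fam f m c), G5.inc_eval _, fun P => ?_⟩
  have hmap : map σ (map (PadicInt.Coe.ringHom (p := p)) (Fam f m c)) -
      C (σ (inc p (eval P (Fam f m c)))) =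
      map (emC σ) (Fam f m c - C (eval P (Fam f m c))) := by
    rw [map_map, map_sub, map_C]
    rfl
  rw [hmap]
  by_cases hF : eval P (Fam f m c) = 0
  · rw [hF, map_zero, sub_zero]
    simp only [hF, sub_zero]
    rcases hz P hF with h | ⟨w, e, g, h, H⟩
    · exact loc_good f m hm c hc P ⟨h, fun h1 => absurd hF h1⟩ _ (mP_zero _) (mP_or _)
        (mcat_per σ f m hm c hc P h)
    · exact loc_centre hb ht σ f m hm c hc P w e g h H
  · rcases hn P hF with ⟨v, hv⟩ | ⟨w, e, g, h, H⟩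
    · obtain ⟨k0, hk0⟩ := gd_reg _ P v hv
      exact ⟨k0, fun a k hk ha => hk0 a k hk ha _ _⟩
    · obtain ⟨k0, hk0⟩ := loc_centre hb ht σ
        (fun _ : Unit => Fam f m c - C (eval P (Fam f m c))) (fun _ => 1) (fun _ => le_rfl) 1
        one_ne_zero P w e g h H
      have h1 : Fam (fun _ : Unit => Fam f m c - C (eval P (Fam f m c))) (fun _ => 1) 1 =
          Fam f m c - C (eval P (Fam f m c)) := by
        generalize Fam f m c - C (eval P (Fam f m c)) = q
        simp [Fam]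
      rw [h1] at hk0
      refine ⟨k0, fun a k hk ha => ?_⟩
      have h2 := hk0 a k hk ha
      refine (congrArg (fun q => Gd (Measure.pi fun _ : V => mu p) q
        (mP p (map (emC σ) (Fam f m c - C (eval P (Fam f m c)))))) ?_).mpr h2
      funext y
      unfold Pool.Agent.N138.RF.bal
      beta_reduce
      rw [map_sub, eval_C]

end Pool.Agent.L0h21.RW
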