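import Pool.Agent.L0h21.RW.P11

/-! Scaling of the distributions and of the families. -/

set_option autoImplicit false
set_option linter.unusedSectionVars false

namespace Pool.Agent.L0h21.RW

open MvPolynomial MeasureTheory
open Pool.Agent.W427.SMC (msZ bsZ mu isom_surj)
open Pool.Agent.Y230.PT (msK bsK inc inc_emb rr)
open Pool.Agent.Y230.PS (EP)
open Pool.Agent.N138.SU Pool.Agent.N138.SV Pool.Agent.N138.RF
open Pool.Agent.L0h21.SN hiding bal

attribute [local instance] msK bsK msZ bsZ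

variable {p : ℕ} [Fact p.Prime] {V J : Type} [Fintype V] [DecidableEq V] [Fintype J]
  [DecidableEq J]

/-- Goodness and multiplication by a power of `p`. -/
theorem gd_unscale {Y : Type} [MeasurableSpace Y] (ν : Measure Y) [IsProbabilityMeasure ν]
    {φ : Y → ℤ_[p]} (n : ℕ) {M : ℂ → ℕ∞} (h : Gd ν (fun y => (p : ℤ_[p]) ^ n * φ y) M) :
    Gd ν φ M := by
  have hp0 : (p : ℤ_[p]) ^ n ≠ 0 := pow_ne_zero _ (by
    exact_mod_cast (Fact.out : p.Prime).ne_zero)
  obtain ⟨⟨N, hN⟩, hE⟩ := h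
  refine ⟨⟨N, fun v hv H hH hB => ?_⟩, fun χ => ?_⟩
  · have hc : Continuous fun z : ℤ_[p] => (p : ℤ_[p]) ^ n * z := continuous_const.mul continuous_id
    have hinj : Function.Injective fun z : ℤ_[p] => (p : ℤ_[p]) ^ n * z :=
      fun a b h => mul_left_cancel₀ hp0 h
    have hemb : MeasurableEmbedding fun z : ℤ_[p] => (p : ℤ_[p]) ^ n * z :=
      (hc.isClosedEmbedding hinj).measurableEmbedding
    set H' : ℤ_[p] → ℂ := Function.extend (fun z : ℤ_[p] => (p : ℤ_[p]) ^ n * z) H 0 with hH'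
    have hH'm : Measurable H' := hemb.measurable_extend hH measurable_const
    have hH'e : ∀ z, H' ((p : ℤ_[p]) ^ n * z) = H z := fun z => hinj.extend_apply H 0 z
    obtain ⟨B, hB⟩ := hB
    have h1 := hN v hv H' hH'm ⟨max B 0, fun z => by
      by_cases hz : ∃ z', (p : ℤ_[p]) ^ n * z' = z
      · obtain ⟨z', rfl⟩ := hz
        rw [hH'e]
        exact (hB z').trans (le_max_left _ _)
      · rw [hH', Function.extend_apply' _ _ _ hz]
        simp⟩
    have e1 : ∀ y, H' (v * ((p : ℤ_[p]) ^ n * φ y)) = H (v * φ y) := by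
      intro y
      rw [mul_left_comm, hH'e]
    simp only [e1, hH'e] at h1
    exact h1
  · have h1 := EP_shift M n _ (hE χ)
    refine (congrArg (· ∈ EP M) (funext fun e => ?_)).mp h1
    exact Eh_scale ν φ n χ e

/-- Periods and constant factors. -/
theorem per_C (g : MvPolynomial V ℂ) (κ : ℂ) (hκ : κ ≠ 0) (e0 : ℂ) (h : Per (C κ * g) e0) :
    Per g e0 := by
  refine Pool.Agent.N138.SV.A3.t g κ 1 (fun _ => 0) e0 hκ one_ne_zero ?_
  have e1 : (fun i : V => C (1 : ℂ) * X i + C ((fun _ : V => (0 : ℂ)) i)) = X := by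
    funext i
    simp
  rw [e1, aeval_X_left, AlgHom.id_apply]
  exact h

theorem mP_C (g : MvPolynomial V ℂ) (κ : ℂ) (hκ : κ ≠ 0) (T : ℂ) :
    mP p (C κ * g) T ≤ mP p g T := by
  rcases mP_or (p := p) (C κ * g) T with h | h
  · rw [h]
    exact bot_le
  · have h1 := mP_le (p := p) (g := C κ * g) (T := T) (a := 1) le_rfl (by rw [h]; exact le_top)
    rw [mP_top h1.1 (per_C g κ hκ _ h1.2)]
    exact le_top

/-- Normal crossings and constant factors. -/
theorem snc_C (f : J → MvPolynomial V ℂ) (κ : J → ℂ) (hκ : ∀ j, κ j ≠ 0) (P : V → ℂ)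
    (h : SNCAt' f P) : SNCAt' (fun j => C (κ j) * f j) P := by
  have hz : ∀ j, aeval P (C (κ j) * f j) = 0 → aeval P (f j) = 0 := by
    intro j hj
    rw [map_mul, aeval_C] at hj
    exact (mul_eq_zero.1 hj).resolve_left (hκ j)
  have h1 := LinearIndependent.comp h
    (fun j : {j // aeval P (C (κ j) * f j) = 0} => (⟨j.1, hz j.1 j.2⟩ : {j // aeval P (f j) = 0}))
    (fun a b hab => Subtype.ext (by simpa using congrArg Subtype.val hab))
  have h2 := h1.units_smul (fun j => Units.mk0 (κ j.1) (hκ j.1))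
  have h3 : (fun (j : {j // aeval P (C (κ j) * f j) = 0}) (v : V) =>
      aeval P (pderiv v (C (κ j.1) * f j.1))) =
      (fun j : {j // aeval P (C (κ j) * f j) = 0} => Units.mk0 (κ j.1) (hκ j.1)) •
        ((fun (j : {j // aeval P (f j) = 0}) (v : V) => aeval P (pderiv v (f j.1))) ∘
          fun j : {j // aeval P (C (κ j) * f j) = 0} =>
            (⟨j.1, hz j.1 j.2⟩ : {j // aeval P (f j) = 0})) := by
    funext j v
    show aeval P (pderiv v (C (κ j.1) * f j.1)) = κ j.1 * aeval P (pderiv v (f j.1))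
    rw [pderiv_C_mul, map_mul, aeval_C]
    rfl
  unfold SNCAt'
  rw [h3]
  exact h2

theorem snc_C_iff (f : J → MvPolynomial V ℂ) (κ : J → ℂ) (hκ : ∀ j, κ j ≠ 0) (P : V → ℂ) :
    SNCAt' (fun j => C (κ j) * f j) P ↔ SNCAt' f P := by
  refine ⟨fun h => ?_, snc_C f κ hκ P⟩
  have h1 := snc_C (fun j => C (κ j) * f j) (fun j => (κ j)⁻¹) (fun j => inv_ne_zero (hκ j)) P h
  have h2 : (fun j => C ((κ j)⁻¹) * (C (κ j) * f j)) = f := by
    funext j
    rw [← mul_assoc, ← map_mul, inv_mul_cancel₀ (hκ j), map_one, one_mul]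
  rwa [h2] at h1

theorem centre_C {f : J → MvPolynomial V ℂ} {P : V → ℂ} {w : V → ℕ} {e : J → ℕ}
    {g : J → MvPolynomial V ℂ} {h : MvPolynomial V ℂ} (H : CentreAt f P w e g h) (κ : J → ℂ)
    (hκ : ∀ j, κ j ≠ 0) :
    CentreAt (fun j => C (κ j) * f j) P w e (fun j => C (κ j) * g j) h where
  card := H.card
  low j := by
    have h1 := (LowC.C (w := w) (κ j)).mul (H.low j)
    rw [zero_add] at h1
    have h2 : trl P (C (κ j) * f j) = C (κ j) * trl P (f j) := by
      rw [map_mul]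
      congr 1
      simp [trl]
    rw [h2]
    exact h1
  hom := H.hom
  ne := H.ne
  snc y hy hv := snc_C g κ hκ y (H.snc y hy hv)
  bad y hy hv h1 := H.bad y hy hv ((snc_C_iff f κ hκ _).1 h1)

/-- The conclusion at a point. -/
def LG (σ : ℚ_[p] →+* ℂ) (F : MvPolynomial V ℤ_[p]) (P : V → ℤ_[p]) : Prop :=
  ∃ k0 : ℕ, ∀ (a : V → ℤ_[p]) (k : ℕ), k0 ≤ k → (∀ i, ‖a i - P i‖ ≤ ((p : ℝ)⁻¹) ^ k0) →
    Gd (Measure.pi fun _ : V => mu p) (bal (fun x => eval x F) a k) (mP p (map (emC σ) F))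

theorem LG.unscale {σ : ℚ_[p] →+* ℂ} {F : MvPolynomial V ℤ_[p]} {P : V → ℤ_[p]} (n : ℕ)
    (h : LG σ (C ((p : ℤ_[p]) ^ n) * F) P) : LG σ F P := by
  have hp0 : (p : ℤ_[p]) ^ n ≠ 0 := pow_ne_zero _ (by
    exact_mod_cast (Fact.out : p.Prime).ne_zero)
  obtain ⟨k0, hk0⟩ := h
  refine ⟨k0, fun a k hk ha => ?_⟩
  have h1 := hk0 a k hk ha
  have h2 : bal (fun x => eval x (C ((p : ℤ_[p]) ^ n) * F)) a k =
      fun y => (p : ℤ_[p]) ^ n * bal (fun x => eval x F) a k y := by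
    funext y
    unfold Pool.Agent.N138.RF.bal
    beta_reduce
    rw [map_mul, eval_C]
  rw [h2] at h1
  refine (gd_unscale _ n h1).mono fun T _ => ?_
  rw [map_mul, map_C]
  exact mP_C _ _ (fun h => hp0 (emC_inj σ (h.trans (map_zero _).symm))) T

/-- The points with normal crossings and the weighted centres, for families over `ℤ_p`. -/
theorem lg_of (hb : S_HB) (ht : S_T) (σ : ℚ_[p] →+* ℂ) (f : J → MvPolynomial V ℤ_[p])
    (m : J → ℕ) (hm : ∀ j, 1 ≤ m j) (c : ℤ_[p]) (hc : c ≠ 0) (P : V → ℤ_[p])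
    (hP : eval P (Fam f m c) = 0)
    (h : SNCAt' (fun j => map (emC σ) (f j)) (fun v => emC σ (P v)) ∨ ∃ w e g h,
      CentreAt (fun j => map (emC σ) (f j)) (fun v => emC σ (P v)) w e g h) :
    LG σ (Fam f m c) P := by
  rcases h with h | ⟨w, e, g, h, H⟩
  · have h1 := ncat_of_snc σ f P h
    exact loc_good f m hm c hc P ⟨h1, fun h2 => absurd hP h2⟩ _ (mP_zero _) (mP_or _)
      (mcat_per σ f m hm c hc P h1)
  · exact loc_centre hb ht σ f m hm c hc P w e g h H

end Pool.Agent.L0h21.RW
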