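import Pool.Agent.L0h21.RW.P12

/-! Local goodness of polynomials over `ℚ_p` at points with coordinates in `ℚ_p`. -/

set_option autoImplicit false
set_option linter.unusedSectionVars false

namespace Pool.Agent.L0h21.RW

open MvPolynomial MeasureTheory
open Pool.Agent.W427.SMC (msZ bsZ mu isom_surj)
open Pool.Agent.Y230.PT (msK bsK inc inc_emb rr)
open Pool.Agent.Y230.PS (EP)
open Pool.Agent.N138.SU Pool.Agent.N138.SV Pool.Agent.N138.RF
open Pool.Agent.L0h21.SN hiding bal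

attribute [local instance] msK bsK msZ bsZ

variable {p : ℕ} [Fact p.Prime] {V J : Type} [Fintype V] [DecidableEq V] [Fintype J]
  [DecidableEq J]


theorem cc_inj : Function.Injective (PadicInt.Coe.ringHom (p := p)) := Subtype.val_injective

theorem cc_p : PadicInt.Coe.ringHom (p := p) (p : ℤ_[p]) = (p : ℚ_[p]) := map_natCast _ _

/-- Integral models. -/
theorem exists_int (q : MvPolynomial V ℚ_[p]) : ∃ K : ℕ, ∀ K', K ≤ K' →
    ∃ qz : MvPolynomial V ℤ_[p], map (PadicInt.Coe.ringHom (p := p)) qz =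
      C ((p : ℚ_[p]) ^ K') * q := by
  have hp : (1 : ℝ) < p := by exact_mod_cast (Fact.out : p.Prime).one_lt
  induction q using MvPolynomial.induction_on with
  | C a =>
    obtain ⟨K, hK⟩ := pow_unbounded_of_one_lt ‖a‖ hp
    refine ⟨K, fun K' hK' => ?_⟩
    have h1 : ‖(p : ℚ_[p]) ^ K' * a‖ ≤ 1 := by
      rw [norm_mul, norm_pow, Padic.norm_p, inv_pow, inv_mul_le_iff₀ (by positivity), mul_one]
      exact hK.le.trans (pow_le_pow_right₀ hp.le hK')
    obtain ⟨z, hz⟩ : ∃ z : ℤ_[p], PadicInt.Coe.ringHom (p := p) z = (p : ℚ_[p]) ^ K' * a :=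
      ⟨⟨_, h1⟩, rfl⟩
    refine ⟨C z, ?_⟩
    rw [map_C, hz, map_mul]
  | add f g hf hg =>
    obtain ⟨K1, h1⟩ := hf
    obtain ⟨K2, h2⟩ := hg
    refine ⟨max K1 K2, fun K' hK' => ?_⟩
    obtain ⟨a, ha⟩ := h1 K' ((le_max_left _ _).trans hK')
    obtain ⟨b, hb⟩ := h2 K' ((le_max_right _ _).trans hK')
    exact ⟨a + b, by rw [map_add, ha, hb, mul_add]⟩
  | mul_X f i hf =>
    obtain ⟨K1, h1⟩ := hf
    refine ⟨K1, fun K' hK' => ?_⟩
    obtain ⟨a, ha⟩ := h1 K' hK'
    exact ⟨a * X i, by rw [map_mul, ha, map_X, mul_assoc]⟩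

/-- Local goodness at a point with coordinates in `ℚ_p`. -/
def LQ (σ : ℚ_[p] →+* ℂ) (F : MvPolynomial V ℚ_[p]) (Q : V → ℚ_[p]) : Prop :=
  ∃ (N : ℕ) (Fz : MvPolynomial V ℤ_[p]), map (PadicInt.Coe.ringHom (p := p)) Fz =
    C ((p : ℚ_[p]) ^ N) * (trl Q F - C (eval Q F)) ∧ LG σ Fz 0

theorem trl_C {K : Type} [CommRing K] (Q : V → K) (a : K) :
    trl Q (C a : MvPolynomial V K) = C a := by simp [trl]

theorem centre_trl {f : J → MvPolynomial V ℂ} {P : V → ℂ} {w : V → ℕ} {e : J → ℕ}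
    {g : J → MvPolynomial V ℂ} {h : MvPolynomial V ℂ} (H : CentreAt f P w e g h) :
    CentreAt (fun j => trl P (f j)) 0 w e g h where
  card := H.card
  low j := by
    have h1 : trl (0 : V → ℂ) (trl P (f j)) = trl P (f j) := by
      rw [trl]
      have h2 : (fun v : V => X v + C ((0 : V → ℂ) v)) = (X : V → MvPolynomial V ℂ) := by
        funext v
        simp
      rw [h2, aeval_X_left, AlgHom.id_apply]
    rw [h1]
    exact H.low j
  hom := H.hom
  ne := H.ne
  snc := H.snc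
  bad y hy hv h1 := by
    refine H.bad y hy hv ?_
    rw [snc_trl] at h1
    refine (congrArg (SNCAt' f) ?_).mp h1
    funext v
    simp

/-- Families. -/
theorem lq_of_family (hb : S_HB) (ht : S_T) (σ : ℚ_[p] →+* ℂ) (F : MvPolynomial V ℚ_[p])
    (Q : V → ℚ_[p]) (f : J → MvPolynomial V ℚ_[p]) (m : J → ℕ) (hm : ∀ j, 1 ≤ m j)
    (c : ℚ_[p]) (hc : c ≠ 0) (hF : F - C (eval Q F) = C c * ∏ j, f j ^ m j)
    (h : SNCAt' (fun j => map σ (f j)) (fun v => σ (Q v)) ∨ ∃ w e g h,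
      CentreAt (fun j => map σ (f j)) (fun v => σ (Q v)) w e g h) : LQ σ F Q := by
  have hp0 : (p : ℚ_[p]) ≠ 0 := by exact_mod_cast (Fact.out : p.Prime).ne_zero
  choose Kf hKf using fun j => exists_int (trl Q (f j))
  choose fz hfz using fun j => hKf j (Kf j) le_rfl
  obtain ⟨Kc, hKc⟩ := exists_int (V := V) (C c : MvPolynomial V ℚ_[p])
  obtain ⟨cz', hcz'⟩ := hKc Kc le_rfl
  obtain ⟨cz, hcz⟩ : ∃ cz : ℤ_[p], PadicInt.Coe.ringHom (p := p) cz = (p : ℚ_[p]) ^ Kc * c := by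
    refine ⟨coeff 0 cz', ?_⟩
    have h1 := congrArg (coeff 0) hcz'
    rw [coeff_map, ← map_mul, coeff_zero_C] at h1
    exact h1
  have hcz0 : cz ≠ 0 := by
    rintro rfl
    rw [map_zero] at hcz
    exact mul_ne_zero (pow_ne_zero _ hp0) hc hcz.symm
  set A : ℕ := Kc + ∑ j, Kf j * m j with hA
  have hFz : map (PadicInt.Coe.ringHom (p := p)) (Fam fz m cz) =
      C ((p : ℚ_[p]) ^ A) * (trl Q F - C (eval Q F)) := by
    have h1 : trl Q F - C (eval Q F) = C c * ∏ j, trl Q (f j) ^ m j := by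
      have h2 := congrArg (trl Q) hF
      rw [map_sub, trl_C, map_mul, trl_C, map_prod] at h2
      rw [h2]
      congr 1
      exact Finset.prod_congr rfl fun j _ => by rw [map_pow]
    rw [h1, Fam, map_mul, map_C, hcz, map_prod, hA, pow_add, map_mul]
    have h3 : ∀ j, map (PadicInt.Coe.ringHom (p := p)) (fz j ^ m j) =
        C ((p : ℚ_[p]) ^ (Kf j * m j)) * trl Q (f j) ^ m j := by
      intro j
      rw [map_pow, hfz, mul_pow, ← map_pow, ← pow_mul]
    rw [Finset.prod_congr rfl fun j _ => h3 j, Finset.prod_mul_distrib,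
      ← Finset.prod_pow_eq_pow_sum, map_mul, map_prod]
    ring
  have hemb : ∀ j, map (emC σ) (fz j) = C (σ ((p : ℚ_[p]) ^ Kf j)) *
      trl (fun v => σ (Q v)) (map σ (f j)) := by
    intro j
    have h1 : map (emC σ) (fz j) = map σ (map (PadicInt.Coe.ringHom (p := p)) (fz j)) := by
      rw [map_map]; rfl
    rw [h1, hfz, map_mul, map_C, map_trl]
  have hκ : ∀ j, σ ((p : ℚ_[p]) ^ Kf j) ≠ 0 := fun j h0 =>
    pow_ne_zero _ hp0 ((map_eq_zero σ).1 h0)
  have h00 : (fun v => emC σ ((0 : V → ℤ_[p]) v)) = (0 : V → ℂ) := by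
    funext v
    exact map_zero _
  refine ⟨A, Fam fz m cz, hFz, lg_of hb ht σ fz m hm cz hcz0 0 ?_ ?_⟩
  · apply cc_inj (p := p)
    have h1 := eval_emC (PadicInt.Coe.ringHom (p := p)) (Fam fz m cz) 0
    rw [← h1, hFz]
    have h2 : (fun v => PadicInt.Coe.ringHom (p := p) ((0 : V → ℤ_[p]) v)) = 0 := by
      funext v
      exact map_zero _
    rw [h2, map_mul, map_sub, eval_trl, eval_C, eval_C, map_zero]
    have h3 : (fun v => (0 : V → ℚ_[p]) v + Q v) = Q := by
      funext v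
      simp
    rw [h3, sub_self, mul_zero]
  · rw [h00]
    simp only [hemb]
    rcases h with h | ⟨w, e, g, h, H⟩
    · left
      refine snc_C _ _ hκ _ ?_
      rw [snc_trl]
      refine (congrArg (SNCAt' fun j => map σ (f j)) ?_).mp h
      funext v
      simp
    · right
      exact ⟨w, e, _, h, centre_C (centre_trl H) _ hκ⟩

/-- From the points to the polynomial. -/
theorem gi_of_lq (σ : ℚ_[p] →+* ℂ) (F : MvPolynomial V ℚ_[p]) (K : ℕ)
    (Fz : MvPolynomial V ℤ_[p]) (hFz : map (PadicInt.Coe.ringHom (p := p)) Fz =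
      C ((p : ℚ_[p]) ^ K) * F)
    (h : ∀ P : V → ℤ_[p], LQ σ F (fun v => PadicInt.Coe.ringHom (p := p) (P v))) :
    GI σ (C ((p : ℚ_[p]) ^ K) * F) := by
  have hp0 : (p : ℤ_[p]) ≠ 0 := by exact_mod_cast (Fact.out : p.Prime).ne_zero
  have hp0' : (p : ℚ_[p]) ≠ 0 := by exact_mod_cast (Fact.out : p.Prime).ne_zero
  rw [← hFz]
  refine ⟨fun x => eval x Fz, G5.inc_eval _, fun P => ?_⟩
  set Q : V → ℚ_[p] := fun v => PadicInt.Coe.ringHom (p := p) (P v) with hQ
  obtain ⟨N, Gz, hGz, k0, hk0⟩ := h P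
  -- `p ^ N (Fz(P + x) - Fz(P)) = p ^ K Gz(x)`
  have hE : C ((p : ℤ_[p]) ^ N) * (trl P Fz - C (eval P Fz)) = C ((p : ℤ_[p]) ^ K) * Gz := by
    apply map_injective _ (cc_inj (p := p))
    have hev : PadicInt.Coe.ringHom (p := p) (eval P Fz) = (p : ℚ_[p]) ^ K * eval Q F := by
      rw [← eval_emC, hFz, map_mul, eval_C]
    have hpow : ∀ n : ℕ, PadicInt.Coe.ringHom (p := p) ((p : ℤ_[p]) ^ n) = (p : ℚ_[p]) ^ n :=
      fun n => by rw [map_pow, cc_p]
    rw [map_mul (map (PadicInt.Coe.ringHom (p := p))), map_sub, map_trl, map_C, map_C, hFz,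
      map_mul (map (PadicInt.Coe.ringHom (p := p))), map_C, hGz, hev, hpow, hpow,
      map_mul (trl _), trl_C, map_mul C]
    ring
  have hEv : ∀ x : V → ℤ_[p], (p : ℤ_[p]) ^ N * (eval (fun v => x v + P v) Fz - eval P Fz) =
      (p : ℤ_[p]) ^ K * eval x Gz := by
    intro x
    have h1 := congrArg (eval x) hE
    rw [map_mul, map_sub, map_mul, eval_C, eval_C, eval_C, eval_trl] at h1
    exact h1
  refine ⟨k0, fun a k hk ha => ?_⟩
  have h1 := hk0 (fun i => a i - P i) k hk (fun i => by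
    rw [Pi.zero_apply, sub_zero]
    exact ha i)
  have h2 := L2.Gd_smul (Measure.pi fun _ : V => mu p)
    (bal_cont (MvPolynomial.continuous_eval Gz) (fun i => a i - P i) k).measurable
    (pow_ne_zero K hp0) h1
  have h3 : (fun y => (p : ℤ_[p]) ^ K * bal (fun x => eval x Gz) (fun i => a i - P i) k y) =
      fun y => (p : ℤ_[p]) ^ N * (bal (fun x => eval x Fz) a k y - eval P Fz) := by
    funext y
    unfold Pool.Agent.N138.RF.bal
    beta_reduce
    rw [← hEv]
    congr 3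
    congr 1
    funext v
    ring
  rw [h3] at h2
  refine (gd_unscale _ N h2).mono fun T _ => ?_
  -- the periods
  have hm1 : map (emC σ) Gz = C (σ ((p : ℚ_[p]) ^ N)) *
      (trl (fun v => σ (Q v)) (map σ F) - C (σ (eval Q F))) := by
    have h4 : map (emC σ) Gz = map σ (map (PadicInt.Coe.ringHom (p := p)) Gz) := by
      rw [map_map]; rfl
    rw [h4, hGz, map_mul, map_C, map_sub, map_trl, map_C]
  have hm2 : map σ (map (PadicInt.Coe.ringHom (p := p)) Fz) -
      C (σ (inc p (eval P Fz))) = C (σ ((p : ℚ_[p]) ^ K)) * (map σ F - C (σ (eval Q F))) := by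
    have h5 : inc p (eval P Fz) = (p : ℚ_[p]) ^ K * eval Q F := by
      have h6 : inc p (eval P Fz) = PadicInt.Coe.ringHom (p := p) (eval P Fz) := rfl
      rw [h6, ← eval_emC, hFz, map_mul, eval_C]
    rw [h5, hFz, map_mul, map_C, map_mul, map_mul]
    ring
  rw [hm2]
  rcases mP_or (p := p) (map (emC σ) Gz) T with h4 | h4
  · rw [h4]
    exact bot_le
  · have h5 := mP_le (p := p) (g := map (emC σ) Gz) (T := T) (a := 1) le_rfl
      (by rw [h4]; exact le_top)
    have h6 : Per (map (emC σ) Gz) ((rr p T : ℝ) : ℂ) := h5.2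
    rw [hm1] at h6
    have h7 := per_C _ _ (fun h0 => pow_ne_zero N hp0' ((map_eq_zero σ).1 h0)) _ h6
    have h8 : trl (fun v => σ (Q v)) (map σ F) - C (σ (eval Q F)) =
        trl (fun v => σ (Q v)) (map σ F - C (σ (eval Q F))) := by
      rw [map_sub, trl_C]
    rw [h8] at h7
    have h9 := per_trl _ _ _ h7
    have h10 : Per (C (σ ((p : ℚ_[p]) ^ K)) * (map σ F - C (σ (eval Q F))))
        ((rr p T : ℝ) : ℂ) := by
      refine per_C _ (σ ((p : ℚ_[p]) ^ K))⁻¹ (inv_ne_zero fun h0 =>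
        pow_ne_zero K hp0' ((map_eq_zero σ).1 h0)) _ ?_
      rw [← mul_assoc, ← map_mul, inv_mul_cancel₀ (fun h0 =>
        pow_ne_zero K hp0' ((map_eq_zero σ).1 h0)), map_one, one_mul]
      exact h9
    rw [mP_top h5.1 h10]
    exact le_top

end Pool.Agent.L0h21.RW
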