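import Pool.Agent.L0h21.RW.P13

/-! Periods and distributions under polynomial automorphisms. -/

set_option autoImplicit false
set_option linter.unusedSectionVars false

namespace Pool.Agent.L0h21.RW

open MvPolynomial MeasureTheory
open Pool.Agent.W427.SMC (msZ bsZ mu isom_surj)
open Pool.Agent.Y230.PT (msK bsK inc inc_emb rr)
open Pool.Agent.Y230.PS (EP)
open Pool.Agent.N138.SU Pool.Agent.N138.SV Pool.Agent.N138.RF
open Pool.Agent.L0h21.SN hiding bal

attribute [local instance] msK bsK msZ bsZ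

section per

variable {V : Type} [Fintype V] [DecidableEq V]

/-- The chain rule. -/
theorem chain_rule {K : Type} [CommRing K] (φ : V → MvPolynomial V K) (i : V)
    (u : MvPolynomial V K) :
    pderiv i (aeval φ u) = ∑ v, pderiv i (φ v) * aeval φ (pderiv v u) := by
  induction u using MvPolynomial.induction_on with
  | C a => simp [algebraMap_eq]
  | add f g hf hg =>
    rw [map_add, map_add, hf, hg, ← Finset.sum_add_distrib]
    refine Finset.sum_congr rfl fun v _ => ?_
    rw [map_add, map_add]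
    ring
  | mul_X f j hf =>
    rw [map_mul, aeval_X, Derivation.leibniz, hf, smul_eq_mul, smul_eq_mul, Finset.mul_sum]
    have h1 : ∀ v, pderiv i (φ v) * aeval φ (pderiv v (f * X j)) =
        (if v = j then aeval φ f * pderiv i (φ v) else 0) +
          φ j * (pderiv i (φ v) * aeval φ (pderiv v f)) := by
      intro v
      rw [Derivation.leibniz, smul_eq_mul, smul_eq_mul, map_add, map_mul, map_mul, aeval_X,
        pderiv_X]
      by_cases h : v = j
      · subst h
        simp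
        ring
      · rw [if_neg h, Pi.single_eq_of_ne (Ne.symm h), map_zero]
        ring
    rw [Finset.sum_congr rfl fun v _ => h1 v, Finset.sum_add_distrib, Finset.sum_ite_eq',
      if_pos (Finset.mem_univ j)]

/-- **Periods and polynomial automorphisms.** -/
theorem per_aut (φ ψ : V → MvPolynomial V ℂ) (h1 : ∀ v, aeval φ (ψ v) = X v)
    (h2 : ∀ v, aeval ψ (φ v) = X v) {g : MvPolynomial V ℂ} {e0 : ℂ} (h : Per g e0) :
    Per (aeval φ g) e0 := by
  classical
  have hφψ : ∀ q : MvPolynomial V ℂ, aeval φ (aeval ψ q) = q := by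
    intro q
    have h3 : (aeval φ : MvPolynomial V ℂ →ₐ[ℂ] _).comp (aeval ψ) = AlgHom.id ℂ _ := by
      ext v : 1
      rw [AlgHom.comp_apply, aeval_X, h1]
      rfl
    exact DFunLike.congr_fun h3 q
  have hψφ : ∀ q : MvPolynomial V ℂ, aeval ψ (aeval φ q) = q := by
    intro q
    have h3 : (aeval ψ : MvPolynomial V ℂ →ₐ[ℂ] _).comp (aeval φ) = AlgHom.id ℂ _ := by
      ext v : 1
      rw [AlgHom.comp_apply, aeval_X, h2]
      rfl
    exact DFunLike.congr_fun h3 q
  obtain ⟨S, hS, c1, hc1, hc10⟩ := h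
  have hT := Pool.Agent.N138.SV.A3.isPer_span hS
  set T : Submodule ℂ (ℕ → MvPolynomial V ℂ →ₗ[ℂ] ℂ) := Submodule.span ℂ S with hTdef
  -- multiplication by polynomials
  have hmul : ∀ q : MvPolynomial V ℂ, ∀ c ∈ T, ∃ c' ∈ T, ∀ (m : ℕ) h, c m (q * h) = c' m h := by
    intro q
    induction q using MvPolynomial.induction_on with
    | C a =>
      intro c hc
      refine ⟨a • c, Submodule.smul_mem _ _ hc, fun m h => ?_⟩
      rw [← smul_eq_C_mul, map_smul]
      rfl
    | add q q' hq hq' =>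
      intro c hc
      obtain ⟨c', hc', e1⟩ := hq c hc
      obtain ⟨c'', hc'', e2⟩ := hq' c hc
      refine ⟨c' + c'', Submodule.add_mem _ hc' hc'', fun m h => ?_⟩
      rw [add_mul, map_add, e1, e2]
      rfl
    | mul_X q i hq =>
      intro c hc
      obtain ⟨c', hc', e1⟩ := hq c hc
      obtain ⟨c'', hc'', e2⟩ := hT.mu c' hc' i
      refine ⟨c'', hc'', fun m h => ?_⟩
      rw [mul_assoc, e1, e2]
  let Φ : (ℕ → MvPolynomial V ℂ →ₗ[ℂ] ℂ) → (ℕ → MvPolynomial V ℂ →ₗ[ℂ] ℂ) :=
    fun c m => c m ∘ₗ (aeval ψ : MvPolynomial V ℂ →ₐ[ℂ] MvPolynomial V ℂ).toLinearMap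
  have hΦ : ∀ c m h, Φ c m h = c m (aeval ψ h) := fun c m h => rfl
  set a : V → V → MvPolynomial V ℂ := fun i v => aeval ψ (pderiv i (φ v)) with ha
  have hd : ∀ i u, aeval ψ (pderiv i (aeval φ u)) = ∑ v, a i v * pderiv v u := by
    intro i u
    rw [chain_rule, map_sum]
    refine Finset.sum_congr rfl fun v _ => ?_
    rw [map_mul, hψφ]
  refine ⟨Φ '' (T : Set (ℕ → MvPolynomial V ℂ →ₗ[ℂ] ℂ)), ⟨?_, ?_, ?_, ?_, ?_⟩, Φ c1,
    ⟨c1, Submodule.subset_span hc1, rfl⟩, ?_⟩
  · rintro _ ⟨c, hc, rfl⟩ h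
    rw [hΦ, map_mul, hψφ, hT.e1 c hc]
  · rintro _ ⟨c, hc, rfl⟩ m h
    rw [hΦ, hΦ, map_mul, hψφ, hT.e2 c hc]
  · rintro _ ⟨c, hc, rfl⟩ i h
    rw [hΦ, map_mul, hd, Finset.sum_mul, map_sum]
    refine Finset.sum_eq_zero fun v _ => ?_
    have e : a i v * pderiv v g * aeval ψ h = pderiv v g * (a i v * aeval ψ h) := by ring
    rw [e, hT.d1 c hc]
  · rintro _ ⟨c, hc, rfl⟩ i
    have h3 : ∀ v, ∃ c' ∈ T, ∀ (m : ℕ) u, c m (a i v * pderiv v u) -
        c (m + 1) (a i v * pderiv v g * u) = c' m u := by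
      intro v
      obtain ⟨c', hc', e1⟩ := hT.d2 c hc v
      obtain ⟨c2, hc2, e2⟩ := hmul (a i v) c' hc'
      obtain ⟨c3, hc3, e3⟩ := hmul (pderiv v (a i v)) c hc
      refine ⟨c2 - c3, Submodule.sub_mem _ hc2 hc3, fun m u => ?_⟩
      have e4 : a i v * pderiv v u = pderiv v (a i v * u) - pderiv v (a i v) * u := by
        rw [Derivation.leibniz, smul_eq_mul, smul_eq_mul]
        ring
      have e5 : a i v * pderiv v g * u = pderiv v g * (a i v * u) := by ring
      rw [e4, map_sub, e5, Pi.sub_apply, LinearMap.sub_apply, ← e2, ← e3, ← e1]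
      ring
    choose c' hc' e1 using h3
    refine ⟨Φ (∑ v, c' v), ⟨∑ v, c' v, Submodule.sum_mem _ fun v _ => hc' v, rfl⟩, ?_⟩
    intro m h
    rw [hΦ, hΦ, hΦ]
    have e6 : aeval ψ (pderiv i h) = ∑ v, a i v * pderiv v (aeval ψ h) := by
      rw [← hd, hφψ]
    rw [e6, map_mul, hd, Finset.sum_mul, map_sum, map_sum, ← Finset.sum_sub_distrib,
      Finset.sum_apply, LinearMap.sum_apply]
    exact Finset.sum_congr rfl fun v _ => e1 v m _
  · rintro _ ⟨c, hc, rfl⟩ i
    obtain ⟨c', hc', e1⟩ := hmul (ψ i) c hc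
    refine ⟨Φ c', ⟨c', hc', rfl⟩, fun m h => ?_⟩
    rw [hΦ, hΦ, map_mul, aeval_X, e1]
  · rw [hΦ, map_one]
    exact hc10

end per

section pull

variable {p : ℕ} [Fact p.Prime] {V : Type} [Fintype V] [DecidableEq V]

/-- The pullback of a good function by a polynomial map with integral coefficients. -/
theorem gd_pull (Ψ : V → MvPolynomial V ℤ_[p]) (φ : (V → ℤ_[p]) → ℤ_[p]) (hφ : Measurable φ)
    (M : ℂ → ℕ∞) (P : V → ℤ_[p]) (hP : dlt Ψ id P ≠ 0) (k0 : ℕ)
    (hk0 : ∀ (b : V → ℤ_[p]) (l : ℕ), k0 ≤ l →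
      (∀ i, ‖b i - eval P (Ψ i)‖ ≤ ((p : ℝ)⁻¹) ^ k0) →
      Gd (Measure.pi fun _ : V => mu p) (bal φ b l) M) :
    ∃ k1 : ℕ, ∀ (a : V → ℤ_[p]) (k : ℕ), k1 ≤ k → (∀ i, ‖a i - P i‖ ≤ ((p : ℝ)⁻¹) ^ k1) →
      Gd (Measure.pi fun _ : V => mu p) (bal (fun x => φ fun i => eval x (Ψ i)) a k) M := by
  classical
  have hε0 : (0 : ℝ) < (p : ℝ)⁻¹ := inv_pos'
  have hε1 : (p : ℝ)⁻¹ < 1 := inv_lt_one_of_one_lt₀ (by
    exact_mod_cast (Fact.out : p.Prime).one_lt)
  have hp0 : (p : ℤ_[p]) ≠ 0 := by exact_mod_cast (Fact.out : p.Prime).ne_zero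
  have hle1 : ∀ z : ℤ_[p], ‖z‖ ≤ 1 := PadicInt.norm_le_one
  obtain ⟨k2, hk2⟩ := exists_pow_lt_of_lt_one (norm_pos_iff.2 hP) hε1
  refine ⟨k0 + k2, fun a k hk ha => ?_⟩
  have hka : ((p : ℝ)⁻¹) ^ k ≤ ((p : ℝ)⁻¹) ^ k2 :=
    pow_le_pow_of_le_one hε0.le hε1.le (by omega)
  have hδa : ‖dlt Ψ id a‖ = ‖dlt Ψ id P‖ := by
    refine Pool.Agent.W427.SMC.norm_eq_of_sub_lt p _ _
      ((dlt_lip Ψ id a P (((p : ℝ)⁻¹) ^ k2) (by positivity) fun i => ?_).trans_lt hk2)
    exact (ha i).trans (pow_le_pow_of_le_one hε0.le hε1.le (by omega))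
  set δ := dlt Ψ id a with hδ
  have hδ0 : δ ≠ 0 := by
    rw [← norm_pos_iff, hδa]
    exact norm_pos_iff.2 hP
  have hnd : ¬ (p : ℤ_[p]) ^ k ∣ δ := by
    intro h
    have h1 := norm_le_of_dvd p _ _ h
    rw [norm_pk, hδa] at h1
    exact absurd (hk2.trans_le (h1.trans hka)) (lt_irrefl _)
  -- `δ = p ^ v * unit`
  obtain ⟨v0, hv0⟩ : ∃ v0 : ℕ, ‖δ‖ = ((p : ℝ)⁻¹) ^ v0 := by
    refine ⟨δ.valuation, ?_⟩
    rw [PadicInt.norm_eq_zpow_neg_valuation hδ0, inv_pow, zpow_neg, zpow_natCast]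
  obtain ⟨ω, hω⟩ : (p : ℤ_[p]) ^ v0 ∣ δ := dvd_of_norm_le p _ _ (by rw [norm_pk, hv0])
  have hω1 : ‖ω‖ = 1 := by
    have h1 : ‖δ‖ = ‖δ‖ * ‖ω‖ := by
      conv_lhs => rw [hω]
      rw [norm_mul, norm_pk, hv0]
    have h2 : 0 < ‖δ‖ := norm_pos_iff.2 hδ0
    have h3 : ‖δ‖ * (‖ω‖ - 1) = 0 := by rw [mul_sub, ← h1]; ring
    have h4 := (mul_eq_zero.1 h3).resolve_left h2.ne'
    linarith
  obtain ⟨q, hq⟩ := exists_dir (id : V → V) (fun (t : V) v => eval a (pderiv v (Ψ t)))
  set ν : Measure (V → ℤ_[p]) := Measure.pi fun _ : V => mu p with hν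
  set Φ : (V → ℤ_[p]) → ℤ_[p] := bal (fun x => φ fun i => eval x (Ψ i)) a k with hΦ
  have hΨc : Continuous fun x : V → ℤ_[p] => fun i => eval x (Ψ i) :=
    continuous_pi fun i => MvPolynomial.continuous_eval _
  have hΦm : Measurable Φ := bal_meas (hφ.comp hΨc.measurable) a k
  set β : (V → ℤ_[p]) → V → ℤ_[p] := fun y i =>
    eval (fun v => a v + (p : ℤ_[p]) ^ k * y v) (Ψ i) with hβ
  have hβc : Continuous β := continuous_pi fun t =>
    (MvPolynomial.continuous_eval (Ψ t)).comp (continuous_pi fun v =>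
      continuous_const.add (continuous_const.mul (continuous_apply v)))
  set n := k + v0 with hn
  set rr' : (V → ℤ_[p]) → V → ZMod (p ^ n) := fun y => rho n (β y) with hrr
  have hrm : Measurable rr' := (Pool.Agent.L0h21.SN.rho_meas n).comp hβc.measurable
  set S : Finset (V → ZMod (p ^ n)) := Finset.univ.filter fun r => ∃ y, rr' y = r with hS
  refine L5.t p ν Φ hΦm ν S (fun r => ((ν.real (rr' ⁻¹' {r}) : ℝ) : ℂ))
    (fun r => bal φ (Pool.Agent.L0h21.SN.rep n r) n) (fun r _ => bal_meas hφ _ _)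
    (fun H hH hB => ?_) M (fun r hr => ?_)
  · obtain ⟨B, hB⟩ := hB
    have hφq : Measurable (fun (α : V → ℤ_[p]) (v : V) => ∑ s, α s * q s v) := by
      refine Continuous.measurable (continuous_pi fun v => ?_)
      exact continuous_finsetSum _ fun s _ => (continuous_apply s).mul continuous_const
    -- balls with equivalent centres
    have hball : ∀ c c' : V → ℤ_[p], (∀ i, (p : ℤ_[p]) ^ n ∣ c i - c' i) →
        ∫ b, H (bal φ c n b) ∂ν = ∫ b, H (bal φ c' n b) ∂ν := by
      intro c c' hcc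
      choose d hd using hcc
      have h1 := integral_add_left_eq_self (μ := ν) (fun b => H (bal φ c' n b)) d
      rw [← h1]
      refine integral_congr_ae (Filter.Eventually.of_forall fun b => ?_)
      beta_reduce
      congr 1
      unfold Pool.Agent.N138.RF.bal
      congr 1
      funext i
      rw [Pi.add_apply]
      linear_combination hd i
    have hin : ∀ y, ∫ α : V → ℤ_[p], H (Φ (y + fun v => ∑ s, α s * q s v)) ∂ν =
        ∑ r : V → ZMod (p ^ n), Set.indicator (rr' ⁻¹' {r}) (fun _ =>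
          ∫ b, H (bal φ (Pool.Agent.L0h21.SN.rep n r) n b) ∂ν) y := by
      intro y
      obtain ⟨ψ, hψ, hψ2⟩ := exists_isom' p Ψ a (fun v => a v + (p : ℤ_[p]) ^ k * y v) k δ hnd q
        hq (fun v => by rw [add_sub_cancel_left]; exact dvd_mul_right _ _)
      set ψ' : (V → ℤ_[p]) → (V → ℤ_[p]) := fun α t => ω * ψ α t with hψ'
      have hψ'i : Isometry ψ' := by
        refine Isometry.of_dist_eq fun α α' => ?_
        have h1 := hψ.dist_eq α α'
        rw [dist_eq_norm, dist_eq_norm] at h1 ⊢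
        rw [← h1]
        have h2 : ψ' α - ψ' α' = ω • (ψ α - ψ α') := by
          funext t
          simp only [hψ', Pi.sub_apply, Pi.smul_apply, smul_eq_mul]
          ring
        rw [h2]
        refine le_antisymm ?_ ?_
        · rw [pi_norm_le_iff_of_nonneg (norm_nonneg _)]
          intro t
          rw [Pi.smul_apply, smul_eq_mul, norm_mul, hω1, one_mul]
          exact norm_le_pi_norm (ψ α - ψ α') t
        · rw [pi_norm_le_iff_of_nonneg (norm_nonneg _)]
          intro t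
          have h4 := norm_le_pi_norm (ω • (ψ α - ψ α')) t
          rw [Pi.smul_apply, smul_eq_mul, norm_mul, hω1, one_mul] at h4
          exact h4
      have h1 : ∀ α : V → ℤ_[p], Φ (y + fun v => ∑ s, α s * q s v) = bal φ (β y) n (ψ' α) := by
        intro α
        show φ _ = φ _
        congr 1
        funext t
        have h2 := hψ2 α t
        have h3 : (fun v => a v + (p : ℤ_[p]) ^ k * (y + fun v => ∑ s, α s * q s v) v) =
            fun v => a v + (p : ℤ_[p]) ^ k * y v + (p : ℤ_[p]) ^ k * ∑ s, α s * q s v := by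
          funext v
          rw [Pi.add_apply]
          ring
        rw [h3, h2, hω, hn, pow_add]
        show β y t + _ = β y t + _
        simp only [hψ']
        ring
      simp only [h1]
      have hmp := isom_mp p ψ' hψ'i
      have h2 : ∫ α, H (bal φ (β y) n (ψ' α)) ∂ν = ∫ b, H (bal φ (β y) n b) ∂ν := by
        have h3 := integral_map (μ := ν) (φ := ψ') hmp.measurable.aemeasurable
          (f := fun b => H (bal φ (β y) n b))
          (hH.comp (bal_meas hφ _ _)).aestronglyMeasurable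
        rw [hmp.map_eq] at h3
        exact h3.symm
      rw [h2, Finset.sum_eq_single (rr' y)]
      · rw [Set.indicator_of_mem (by simp)]
        exact hball _ _ fun t => Pool.Agent.L0h21.SN.dvd_rep n (β y) t
      · intro r _ hr
        rw [Set.indicator_of_notMem]
        intro h
        exact hr (Set.mem_singleton_iff.1 h).symm
      · simp
    refine ((avgC (fun y => H (Φ y)) (hH.comp hΦm) ⟨B, fun y => hB _⟩ _ hφq).trans
      (integral_congr_ae (Filter.Eventually.of_forall fun y => hin y))).trans ?_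
    rw [integral_finsetSum]
    · have h5 : ∀ r : V → ZMod (p ^ n), ∫ y, Set.indicator (rr' ⁻¹' {r}) (fun _ =>
          ∫ b, H (bal φ (Pool.Agent.L0h21.SN.rep n r) n b) ∂ν) y ∂ν =
          ((ν.real (rr' ⁻¹' {r}) : ℝ) : ℂ) *
            ∫ b, H (bal φ (Pool.Agent.L0h21.SN.rep n r) n b) ∂ν := by
        intro r
        rw [integral_indicator_const _ (hrm (measurableSet_singleton r)), Complex.real_smul]
      rw [Finset.sum_congr rfl fun r _ => h5 r]
      symm
      refine Finset.sum_subset (Finset.subset_univ S) fun r _ hr => ?_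
      have h6 : rr' ⁻¹' {r} = ∅ := by
        rw [Set.eq_empty_iff_forall_notMem]
        intro y hy
        exact hr (Finset.mem_filter.2 ⟨Finset.mem_univ _, y, hy⟩)
      rw [h6]
      simp
    · intro r _
      exact (integrable_const _).indicator (hrm (measurableSet_singleton r))
  · obtain ⟨y, hy⟩ := (Finset.mem_filter.1 hr).2
    refine hk0 _ n (by omega) fun i => ?_
    have h1 : ‖Pool.Agent.L0h21.SN.rep n r i - β y i‖ ≤ ((p : ℝ)⁻¹) ^ n := by
      rw [← hy, norm_sub_rev]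
      have h2 := norm_le_of_dvd p _ _ (Pool.Agent.L0h21.SN.dvd_rep n (β y) i)
      rw [norm_pk] at h2
      exact h2
    have h2 : ‖β y i - eval P (Ψ i)‖ ≤ ((p : ℝ)⁻¹) ^ (k0 + k2) := by
      refine eval_lip_norm _ _ _ _ (by positivity) fun v => ?_
      have e : a v + (p : ℤ_[p]) ^ k * y v - P v = (a v - P v) + (p : ℤ_[p]) ^ k * y v := by ring
      rw [e]
      refine (PadicInt.nonarchimedean _ _).trans (max_le (ha v) ?_)
      rw [norm_mul, norm_pk]
      exact (mul_le_of_le_one_right (by positivity) (hle1 _)).trans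
        (pow_le_pow_of_le_one hε0.le hε1.le hk)
    have e : Pool.Agent.L0h21.SN.rep n r i - eval P (Ψ i) =
        (Pool.Agent.L0h21.SN.rep n r i - β y i) + (β y i - eval P (Ψ i)) := by ring
    rw [e]
    refine (PadicInt.nonarchimedean _ _).trans (max_le
      (h1.trans (pow_le_pow_of_le_one hε0.le hε1.le (by omega)))
      (h2.trans (pow_le_pow_of_le_one hε0.le hε1.le (by omega))))

end pull

end Pool.Agent.L0h21.RW
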