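import Pool.Agent.L0h21.RW.P14

/-! Local goodness and polynomial automorphisms. -/

set_option autoImplicit false
set_option linter.unusedSectionVars false

namespace Pool.Agent.L0h21.RW

open MvPolynomial MeasureTheory
open Pool.Agent.W427.SMC (msZ bsZ mu isom_surj)
open Pool.Agent.Y230.PT (msK bsK inc inc_emb rr)
open Pool.Agent.Y230.PS (EP)
open Pool.Agent.N138.SU Pool.Agent.N138.SV Pool.Agent.N138.RF
open Pool.Agent.L0h21.SN hiding bal

attribute [local instance] msK bsK msZ bsZ

variable {V : Type} [Fintype V] [DecidableEq V]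

theorem eval_aeval' {K : Type} [CommRing K] (φ : V → MvPolynomial V K) (Q : V → K)
    (q : MvPolynomial V K) : eval Q (aeval φ q) = eval (fun v => eval Q (φ v)) q := by
  induction q using MvPolynomial.induction_on with
  | C a => rw [aeval_C, algebraMap_eq, eval_C, eval_C]
  | add f g hf hg => rw [map_add, map_add, map_add, hf, hg]
  | mul_X f i hf => rw [map_mul, map_mul, map_mul, hf, aeval_X, eval_X]

theorem map_aeval' {K L : Type} [CommRing K] [CommRing L] (τ : K →+* L)
    (φ : V → MvPolynomial V K) (q : MvPolynomial V K) :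
    map τ (aeval φ q) = aeval (fun v => map τ (φ v)) (map τ q) := by
  induction q using MvPolynomial.induction_on with
  | C a => rw [aeval_C, algebraMap_eq, map_C, aeval_C, algebraMap_eq]
  | add f g hf hg => rw [map_add, map_add, map_add, map_add, hf, hg]
  | mul_X f i hf => rw [map_mul, map_mul, map_mul, map_mul, hf, aeval_X, map_X, aeval_X]

theorem aeval_inv {K : Type} [CommRing K] (φ ψ : V → MvPolynomial V K)
    (h : ∀ v, aeval φ (ψ v) = X v) (q : MvPolynomial V K) : aeval φ (aeval ψ q) = q := by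
  have h3 : (aeval φ : MvPolynomial V K →ₐ[K] _).comp (aeval ψ) = AlgHom.id K _ := by
    ext v : 1
    rw [AlgHom.comp_apply, aeval_X, h]
    rfl
  exact DFunLike.congr_fun h3 q

theorem per_trl' (q : MvPolynomial V ℂ) (P : V → ℂ) (e0 : ℂ) (h : Per q e0) :
    Per (trl P q) e0 := by
  refine per_aut (fun v => X v + C (P v)) (fun v => X v - C (P v)) (fun v => ?_) (fun v => ?_) h
  · rw [map_sub, aeval_X, aeval_C, algebraMap_eq]
    ring
  · rw [map_add, aeval_X, aeval_C, algebraMap_eq]
    ring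

theorem per_C' (g : MvPolynomial V ℂ) (κ : ℂ) (hκ : κ ≠ 0) (e0 : ℂ) (h : Per g e0) :
    Per (C κ * g) e0 := by
  refine per_C _ κ⁻¹ (inv_ne_zero hκ) _ ?_
  rw [← mul_assoc, ← map_mul, inv_mul_cancel₀ hκ, map_one, one_mul]
  exact h

variable {p : ℕ} [Fact p.Prime]

/-- **Local goodness and polynomial automorphisms.** -/
theorem lq_aut (σ : ℚ_[p] →+* ℂ) (φ ψ : V → MvPolynomial V ℚ_[p])
    (h1 : ∀ v, aeval φ (ψ v) = X v) (h2 : ∀ v, aeval ψ (φ v) = X v) (F : MvPolynomial V ℚ_[p])
    (P Q : V → ℚ_[p]) (hQ : ∀ v, eval Q (φ v) = P v) (h : LQ σ (aeval φ F) Q) : LQ σ F P := by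
  classical
  have hε0 : (0 : ℝ) < (p : ℝ)⁻¹ := inv_pos'
  have hp0 : (p : ℤ_[p]) ≠ 0 := by exact_mod_cast (Fact.out : p.Prime).ne_zero
  have hp0' : (p : ℚ_[p]) ≠ 0 := by exact_mod_cast (Fact.out : p.Prime).ne_zero
  have hpow : ∀ n : ℕ, PadicInt.Coe.ringHom (p := p) ((p : ℤ_[p]) ^ n) = (p : ℚ_[p]) ^ n :=
    fun n => by rw [map_pow, cc_p]
  have hQP : (fun v => eval Q (φ v)) = P := funext hQ
  have hPQ : ∀ v, eval P (ψ v) = Q v := by
    intro v
    have h3 := congrArg (eval Q) (h1 v)
    rw [eval_aeval', hQP, eval_X] at h3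
    exact h3
  obtain ⟨N, Gz, hGz, k0, hk0⟩ := h
  -- the integral models
  choose Kf hKf using fun v => exists_int (trl P (ψ v) - C (Q v))
  set n1 := ∑ v, Kf v with hn1
  choose Sz hSz using fun v => hKf v n1 (Finset.single_le_sum (f := Kf)
    (fun _ _ => Nat.zero_le _) (Finset.mem_univ v))
  obtain ⟨KF, hKF⟩ := exists_int (trl P F - C (eval P F))
  obtain ⟨Fz, hFz⟩ := hKF (max N KF) (le_max_right _ _)
  set N' := max N KF with hN'
  have hNN' : N ≤ N' := le_max_left _ _
  -- evaluation of the models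
  have hcoe : ∀ (q : MvPolynomial V ℤ_[p]) (x : V → ℤ_[p]), PadicInt.Coe.ringHom (p := p)
      (eval x q) = eval (fun v => PadicInt.Coe.ringHom (p := p) (x v))
        (map (PadicInt.Coe.ringHom (p := p)) q) := fun q x => (eval_emC _ q x).symm
  have hSe : ∀ v (x : V → ℤ_[p]), PadicInt.Coe.ringHom (p := p) (eval x (Sz v)) =
      (p : ℚ_[p]) ^ n1 *
        (eval (fun v => PadicInt.Coe.ringHom (p := p) (x v) + P v) (ψ v) - Q v) := by
    intro v x
    rw [hcoe, hSz, map_mul, map_sub, eval_C, eval_C, eval_trl]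
  have hS0 : ∀ v, eval 0 (Sz v) = 0 := by
    intro v
    apply cc_inj (p := p)
    rw [hSe, map_zero]
    have h3 : (fun v => PadicInt.Coe.ringHom (p := p) ((0 : V → ℤ_[p]) v) + P v) = P := by
      funext v
      rw [Pi.zero_apply, map_zero, zero_add]
    rw [h3, hPQ, sub_self, mul_zero]
  have hord : ∀ v, OrdGE (fun _ : V => 1) 1 (Sz v) := by
    intro v
    rw [ordGE_iff]
    intro m hm
    by_contra hcon
    have h3 : Finsupp.weight (fun _ : V => 1) m = 0 := by omega
    have h4 : m = 0 := by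
      rw [Finsupp.weight_apply, Finsupp.sum_fintype _ _ (by simp)] at h3
      ext i
      have h5 := (Finset.sum_eq_zero_iff.mp h3) i (Finset.mem_univ i)
      simpa using h5
    apply hm
    rw [h4, ← constantCoeff_eq, ← eval_zero]
    exact hS0 v
  choose Ψ hΨ using fun v => scaleP_ord (hord v) n1
  have hscl : ∀ x : V → ℤ_[p], scl (fun _ : V => n1 * 1) x = fun v => (p : ℤ_[p]) ^ n1 * x v := by
    intro x
    funext v
    show (p : ℤ_[p]) ^ (n1 * 1) * x v = _
    rw [mul_one]
  have hΨS : ∀ v (x : V → ℤ_[p]), eval (fun v => (p : ℤ_[p]) ^ n1 * x v) (Sz v) =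
      (p : ℤ_[p]) ^ n1 * eval x (Ψ v) := by
    intro v x
    have h3 := congrArg (eval x) (hΨ v)
    rw [eval_scaleP, hscl, map_mul, eval_C, mul_one] at h3
    exact h3
  have hΨe : ∀ v (x : V → ℤ_[p]), PadicInt.Coe.ringHom (p := p) (eval x (Ψ v)) =
      eval (fun v => (p : ℚ_[p]) ^ n1 * PadicInt.Coe.ringHom (p := p) (x v) + P v) (ψ v) -
        Q v := by
    intro v x
    have h3 := hSe v (fun v => (p : ℤ_[p]) ^ n1 * x v)
    rw [hΨS, map_mul, hpow] at h3
    have h4 := mul_left_cancel₀ (pow_ne_zero n1 hp0') h3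
    simp only [map_mul, hpow] at h4
    exact h4
  have hΨ0 : ∀ v, eval 0 (Ψ v) = 0 := by
    intro v
    have h3 := hΨS v 0
    have h4 : (fun v => (p : ℤ_[p]) ^ n1 * (0 : V → ℤ_[p]) v) = 0 := by
      funext v
      simp
    rw [h4, hS0] at h3
    exact (mul_eq_zero.1 h3.symm).resolve_left (pow_ne_zero _ hp0)
  -- the Jacobian
  have hJ : dlt Ψ id 0 ≠ 0 := by
    intro h0
    have h3 : ∀ s t, PadicInt.Coe.ringHom (p := p) (eval 0 (pderiv s (Ψ t))) =
        (p : ℚ_[p]) ^ n1 * eval P (pderiv s (ψ t)) := by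
      intro s t
      have h4 := congrArg (pderiv s) (hΨ t)
      rw [pderiv_scaleP, pderiv_C_mul, mul_one] at h4
      have h5 : scaleP (fun _ : V => n1) (pderiv s (Sz t)) = pderiv s (Ψ t) := by
        have h6 : (C ((p : ℤ_[p]) ^ n1) : MvPolynomial V ℤ_[p]) ≠ 0 := by
          rw [Ne, C_eq_zero]
          exact pow_ne_zero _ hp0
        exact mul_left_cancel₀ h6 h4
      rw [← h5, eval_scaleP]
      have h7 : scl (fun _ : V => n1) (0 : V → ℤ_[p]) = 0 := by
        funext v
        show (p : ℤ_[p]) ^ n1 * 0 = 0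
        rw [mul_zero]
      rw [h7, hcoe, ← pderiv_map, hSz, pderiv_C_mul, map_sub, pderiv_C, sub_zero, map_mul, eval_C,
        pderiv_trl, eval_trl]
      have h8 : (fun v => PadicInt.Coe.ringHom (p := p) ((0 : V → ℤ_[p]) v) + P v) = P := by
        funext v
        rw [Pi.zero_apply, map_zero, zero_add]
      rw [h8]
    set B : Matrix V V ℚ_[p] := Matrix.of fun s t => eval P (pderiv s (ψ t)) with hB
    set B' : Matrix V V ℚ_[p] := Matrix.of fun u v => eval Q (pderiv u (φ v)) with hB'
    have hBB : B * B' = 1 := by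
      ext s v
      rw [Matrix.mul_apply]
      have h4 := congrArg (fun q => eval P (pderiv s q)) (h2 v)
      beta_reduce at h4
      rw [chain_rule, map_sum, pderiv_X] at h4
      have h5 : ∀ u, eval P (pderiv s (ψ u) * aeval ψ (pderiv u (φ v))) = B s u * B' u v := by
        intro u
        rw [map_mul, eval_aeval', funext hPQ]
        rfl
      rw [Finset.sum_congr rfl fun u _ => h5 u] at h4
      rw [h4, Matrix.one_apply]
      by_cases hsv : s = v
      · subst hsv
        simp
      · rw [if_neg hsv, Pi.single_eq_of_ne (Ne.symm hsv), map_zero]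
    have hdet : B.det ≠ 0 := by
      intro h4
      have h5 := congrArg Matrix.det hBB
      rw [Matrix.det_mul, h4, zero_mul, Matrix.det_one] at h5
      exact zero_ne_one h5
    have h4 := congrArg (PadicInt.Coe.ringHom (p := p)) h0
    rw [dlt, RingHom.map_det, map_zero] at h4
    have h5 : (PadicInt.Coe.ringHom (p := p)).mapMatrix
        (Matrix.of fun s t : V => eval 0 (pderiv (id s) (Ψ t))) = (p : ℚ_[p]) ^ n1 • B := by
      ext s t
      rw [RingHom.mapMatrix_apply, Matrix.map_apply, Matrix.of_apply, Matrix.smul_apply]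
      exact h3 s t
    rw [h5, Matrix.det_smul] at h4
    exact mul_ne_zero (pow_ne_zero _ (pow_ne_zero _ hp0')) hdet h4
  -- the values
  have hval : ∀ x : V → ℤ_[p], eval (fun v => (p : ℤ_[p]) ^ n1 * x v) Fz =
      (p : ℤ_[p]) ^ (N' - N) * eval (fun v => eval x (Ψ v)) Gz := by
    intro x
    apply cc_inj (p := p)
    have h3 : PadicInt.Coe.ringHom (p := p) (eval (fun v => (p : ℤ_[p]) ^ n1 * x v) Fz) =
        (p : ℚ_[p]) ^ N' * (eval (fun v => (p : ℚ_[p]) ^ n1 *
          PadicInt.Coe.ringHom (p := p) (x v) + P v) F - eval P F) := by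
      rw [hcoe, hFz, map_mul, map_sub, eval_C, eval_C, eval_trl]
      simp only [map_mul, hpow]
    have h4 : PadicInt.Coe.ringHom (p := p) (eval (fun v => eval x (Ψ v)) Gz) =
        (p : ℚ_[p]) ^ N * (eval (fun v => (p : ℚ_[p]) ^ n1 *
          PadicInt.Coe.ringHom (p := p) (x v) + P v) F - eval P F) := by
      rw [hcoe, hGz, map_mul, map_sub, eval_C, eval_C, eval_trl, eval_aeval', eval_aeval', hQP]
      congr 3
      congr 1
      funext v
      have h5 : (fun v => PadicInt.Coe.ringHom (p := p) (eval x (Ψ v)) + Q v) =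
          fun v => eval (fun v => (p : ℚ_[p]) ^ n1 * PadicInt.Coe.ringHom (p := p) (x v) + P v)
            (ψ v) := by
        funext v
        rw [hΨe, sub_add_cancel]
      rw [h5, ← eval_aeval', h2, eval_X]
    rw [h3, map_mul, hpow, h4, ← mul_assoc, ← pow_add, Nat.sub_add_cancel hNN']
  obtain ⟨k1, hk1⟩ := gd_pull Ψ (fun x => eval x Gz)
    (MvPolynomial.continuous_eval Gz).measurable (mP p (map (emC σ) Gz)) 0 hJ k0
    (fun b l hl hb => hk0 b l hl fun i => by
      have h3 := hb i
      rw [hΨ0] at h3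
      exact h3)
  refine ⟨N', Fz, hFz, n1 + k1, fun a k hk ha => ?_⟩
  have hdiv : ∀ i, ∃ a', a i = (p : ℤ_[p]) ^ n1 * a' := by
    intro i
    refine dvd_of_norm_le p _ _ ?_
    rw [norm_pk]
    have h3 := ha i
    rw [Pi.zero_apply, sub_zero] at h3
    exact h3.trans (pow_le_pow_of_le_one hε0.le (inv_le_one_of_one_le₀ (by
      exact_mod_cast (Fact.out : p.Prime).one_lt.le)) (Nat.le_add_right _ _))
  choose a' ha' using hdiv
  have h3 := hk1 a' (k - n1) (by omega) (fun i => by
    rw [Pi.zero_apply, sub_zero]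
    have h4 := ha i
    rw [Pi.zero_apply, sub_zero, ha', norm_mul, norm_pk, pow_add] at h4
    exact le_of_mul_le_mul_left h4 (by positivity))
  have h4 : Measurable (bal (fun x : V → ℤ_[p] => eval (fun i => eval x (Ψ i)) Gz) a' (k - n1)) := by
    refine (bal_cont ?_ _ _).measurable
    exact (MvPolynomial.continuous_eval Gz).comp (continuous_pi fun i =>
      MvPolynomial.continuous_eval _)
  have h5 := L2.Gd_smul (Measure.pi fun _ : V => mu p) h4 (pow_ne_zero (N' - N) hp0) h3
  have h6 : (fun y => (p : ℤ_[p]) ^ (N' - N) *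
      bal (fun x : V → ℤ_[p] => eval (fun i => eval x (Ψ i)) Gz) a' (k - n1) y) =
      bal (fun x => eval x Fz) a k := by
    funext y
    unfold Pool.Agent.N138.RF.bal
    beta_reduce
    rw [← hval]
    congr 2
    funext v
    rw [ha', mul_add, ← mul_assoc, ← pow_add, Nat.add_sub_cancel' (by omega)]
  rw [h6] at h5
  refine h5.mono fun T _ => ?_
  -- the periods
  have hm1 : map (emC σ) Gz = C (σ ((p : ℚ_[p]) ^ N)) *
      (trl (fun v => σ (Q v)) (aeval (fun v => map σ (φ v)) (map σ F)) - C (σ (eval P F))) := by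
    have h7 : map (emC σ) Gz = map σ (map (PadicInt.Coe.ringHom (p := p)) Gz) := by
      rw [map_map]; rfl
    rw [h7, hGz, map_mul, map_C, map_sub, map_trl, map_C, map_aeval', eval_aeval', hQP]
  have hm2 : map (emC σ) Fz = C (σ ((p : ℚ_[p]) ^ N')) *
      (trl (fun v => σ (P v)) (map σ F) - C (σ (eval P F))) := by
    have h7 : map (emC σ) Fz = map σ (map (PadicInt.Coe.ringHom (p := p)) Fz) := by
      rw [map_map]; rfl
    rw [h7, hFz, map_mul, map_C, map_sub, map_trl, map_C]
  rcases mP_or (p := p) (map (emC σ) Gz) T with h7 | h7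
  · rw [h7]
    exact bot_le
  · have h8 := mP_le (p := p) (g := map (emC σ) Gz) (T := T) (a := 1) le_rfl
      (by rw [h7]; exact le_top)
    have h9 : Per (map (emC σ) Gz) ((rr p T : ℝ) : ℂ) := h8.2
    rw [hm1] at h9
    have h10 := per_C _ _ (fun h0 => pow_ne_zero N hp0' ((map_eq_zero σ).1 h0)) _ h9
    have h11 : trl (fun v => σ (Q v)) (aeval (fun v => map σ (φ v)) (map σ F)) -
        C (σ (eval P F)) = trl (fun v => σ (Q v))
          (aeval (fun v => map σ (φ v)) (map σ F - C (σ (eval P F)))) := by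
      rw [map_sub (aeval _), map_sub, aeval_C, algebraMap_eq, trl_C]
    rw [h11] at h10
    have h12 := per_trl _ _ _ h10
    have h13 : Per (map σ F - C (σ (eval P F))) ((rr p T : ℝ) : ℂ) := by
      have h14 := per_aut (fun v => map σ (ψ v)) (fun v => map σ (φ v)) (fun v => by
        rw [← map_aeval', h2, map_X]) (fun v => by rw [← map_aeval', h1, map_X]) h12
      rw [aeval_inv _ _ (fun v => by rw [← map_aeval', h2, map_X])] at h14
      exact h14
    have h15 : Per (map (emC σ) Fz) ((rr p T : ℝ) : ℂ) := by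
      rw [hm2]
      refine per_C' _ _ (fun h0 => pow_ne_zero N' hp0' ((map_eq_zero σ).1 h0)) _ ?_
      have h16 := per_trl' _ (fun v => σ (P v)) _ h13
      rw [map_sub, trl_C] at h16
      exact h16
    rw [mP_top h8.1 h15]
    exact le_top

end Pool.Agent.L0h21.RW
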