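import Pool.Agent.L0h21.RW.P17

/-! Weighted homogeneous polynomials. -/

set_option autoImplicit false
set_option linter.unusedSectionVars false

namespace Pool.Agent.L0h21.RW

open MvPolynomial MeasureTheory
open Pool.Agent.W427.SMC (msZ bsZ mu isom_surj)
open Pool.Agent.Y230.PT (msK bsK inc inc_emb rr)
open Pool.Agent.Y230.PS (EP)
open Pool.Agent.N138.SU Pool.Agent.N138.SV Pool.Agent.N138.RF
open Pool.Agent.L0h21.SN hiding bal

attribute [local instance] msK bsK msZ bsZ

variable {V : Type} [Fintype V]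

/-- The scaling over `ℚ`. -/
noncomputable def sca (a : ℚ) (F : MvPolynomial V ℚ) : MvPolynomial V ℚ :=
  aeval (fun v => C a * X v) F

theorem coeff_sca (a : ℚ) (F : MvPolynomial V ℚ) (d : V →₀ ℕ) :
    coeff d (sca a F) = a ^ (∑ v, d v) * coeff d F := by
  classical
  unfold sca
  induction F using MvPolynomial.induction_on' with
  | monomial u c =>
    rw [aeval_monomial, algebraMap_eq, Finsupp.prod_fintype _ _ (by simp)]
    simp only [mul_pow]
    rw [Finset.prod_mul_distrib, Finset.prod_pow_eq_pow_sum, ← map_pow, mul_left_comm,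
      coeff_C_mul]
    have h1 : (C c * ∏ v, X v ^ u v : MvPolynomial V ℚ) = monomial u c := by
      rw [monomial_eq, Finsupp.prod_fintype _ _ (by simp)]
    rw [h1, coeff_monomial]
    by_cases h : u = d
    · rw [h]
    · rw [if_neg h, mul_zero, mul_zero]
  | add f g hf hg => rw [map_add, coeff_add, hf, hg, coeff_add, mul_add]

theorem pderiv_sca [DecidableEq V] (a : ℚ) (F : MvPolynomial V ℚ) (i : V) :
    pderiv i (sca a F) = C a * sca a (pderiv i F) := by
  unfold sca
  rw [chain_rule, Finset.sum_eq_single i]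
  · rw [pderiv_C_mul, pderiv_X_self, mul_one]
  · intro b _ hb
    rw [pderiv_C_mul, pderiv_X_of_ne hb, mul_zero, zero_mul]
  · intro h
    exact absurd (Finset.mem_univ _) h

theorem isWH_sca (a : ℚ) (ha : a ≠ 0) (G : MvPolynomial V ℚ) (w : V → ℕ) (D : ℕ)
    (hG : IsWH G w D) : IsWH (sca a G) w D where
  pos := hG.pos
  posD := hG.posD
  hom := by
    intro d hd
    apply hG.hom
    intro h0
    apply hd
    rw [coeff_sca, h0, mul_zero]
  crit i := by
    classical
    rw [pderiv_sca, map_mul, constantCoeff_C]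
    have h1 := hG.crit i
    rw [constantCoeff_eq, coeff_sca]
    rw [constantCoeff_eq] at h1
    rw [h1, mul_zero, mul_zero]
  iso z hz := by
    classical
    have ha' : (algebraMap ℚ ℂ a) ≠ 0 := (map_ne_zero _).2 ha
    have h1 : (fun v => algebraMap ℚ ℂ a * z v) = 0 := by
      apply hG.iso
      intro i
      have h2 := hz i
      rw [pderiv_sca, map_mul, aeval_C] at h2
      have h3 := (mul_eq_zero.1 h2).resolve_left ha'
      have h4 : ∀ q : MvPolynomial V ℚ, aeval z (sca a q) =
          aeval (fun v => algebraMap ℚ ℂ a * z v) q := by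
        intro q
        unfold sca
        induction q using MvPolynomial.induction_on with
        | C c => rw [aeval_C, algebraMap_eq, aeval_C, aeval_C]
        | add f g hf hg => rw [map_add, map_add, map_add, hf, hg]
        | mul_X f i hf => rw [map_mul, map_mul, map_mul, hf, aeval_X, map_mul, aeval_C, aeval_X,
            aeval_X]
      rw [h4] at h3
      exact h3
    funext v
    have h2 := congrFun h1 v
    exact (mul_eq_zero.1 h2).resolve_left ha'

variable {p : ℕ} [Fact p.Prime]

theorem lqa_wh (H : E2.HyR) (σ : ℚ_[p] →+* ℂ) [Nonempty V] (G : MvPolynomial V ℚ) (w : V → ℕ)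
    (D : ℕ) (hG : IsWH G w D) : LQA σ (map (algebraMap ℚ ℚ_[p]) G) := by
  classical
  refine lqa_of_gi σ _ fun n => ?_
  have hp0 : (p : ℚ) ≠ 0 := by exact_mod_cast (Fact.out : p.Prime).ne_zero
  obtain ⟨K, hK⟩ := (E2.gi_ro (p := p) H σ (RO.wh V (sca (((p : ℚ) ^ n)⁻¹) G) w D
    (isWH_sca _ (inv_ne_zero (pow_ne_zero _ hp0)) G w D hG))).2
  refine ⟨K, ?_⟩
  have h1 := hK K le_rfl
  have h2 : map (algebraMap ℚ ℚ_[p]) (sca (((p : ℚ) ^ n)⁻¹) G) =
      sc n (map (algebraMap ℚ ℚ_[p]) G) := by
    unfold sca sc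
    rw [map_aeval']
    congr 2
    funext v
    rw [map_mul, map_C, map_X, map_inv₀, map_pow, map_natCast]
  rw [h2] at h1
  exact h1

end Pool.Agent.L0h21.RW
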