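import Pool.Agent.L0h21.RW.P1

/-! The distribution of a product near a point with normal crossings: charts. -/

set_option autoImplicit false
set_option linter.unusedSectionVars false

namespace Pool.Agent.L0h21.RW

open MvPolynomial MeasureTheory
open Pool.Agent.W427.SMC (msZ bsZ mu)
open Pool.Agent.Y230.PT (msK bsK inc inc_emb rr)
open Pool.Agent.Y230.PS (EP)
open Pool.Agent.N138.SU Pool.Agent.N138.SV Pool.Agent.N138.RF
open Pool.Agent.L0h21.SN (exists_isom' exists_dir dvd_of_norm_le norm_le_of_dvd eval_lip)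

attribute [local instance] msK bsK msZ bsZ

variable {p : ℕ} [Fact p.Prime]

theorem norm_pk (k : ℕ) : ‖(p : ℤ_[p]) ^ k‖ = ((p : ℝ)⁻¹) ^ k := by
  rw [norm_pow, PadicInt.norm_p]

theorem inv_pos' : (0 : ℝ) < (p : ℝ)⁻¹ := inv_pos.2 (by exact_mod_cast (Fact.out : p.Prime).pos)

/-- The Lipschitz condition with norms. -/
theorem eval_lip_norm {V : Type} [Fintype V] (G : MvPolynomial V ℤ_[p]) (x y : V → ℤ_[p]) (r : ℝ)
    (hr : 0 ≤ r) (h : ∀ i, ‖x i - y i‖ ≤ r) : ‖eval x G - eval y G‖ ≤ r := by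
  rcases isEmpty_or_nonempty V with hV | hV
  · have : x = y := Subsingleton.elim _ _
    rw [this, sub_self, norm_zero]
    exact hr
  obtain ⟨i, hi⟩ := Finite.exists_max (fun i => ‖x i - y i‖)
  have h1 := eval_lip G x y (x i - y i) fun j => dvd_of_norm_le p _ _ (hi j)
  exact (norm_le_of_dvd p _ _ h1).trans (h i)

variable {V T : Type} [Fintype V] [DecidableEq V] [Fintype T] [DecidableEq T]

/-- **Charts.** Let `f t`, `t : T`, vanish at `P`, where a maximal minor of the Jacobian matrix and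
`κ` do not vanish. On every small ball near `P` there are directions `q` such that along them, after
an isometry, the function `κ ∏ f t ^ m t` is a constant times a product of powers of linear functions
of independent variables. -/
theorem chart [Nonempty T] (f : T → MvPolynomial V ℤ_[p]) (κ : MvPolynomial V ℤ_[p]) (m : T → ℕ)
    (hm : ∀ t, 1 ≤ m t) (P : V → ℤ_[p]) (hf : ∀ t, eval P (f t) = 0) (hκ : eval P κ ≠ 0)
    (u : T → V) (hu : (Matrix.of fun s t : T => eval P (pderiv (u s) (f t))).det ≠ 0) :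
    ∃ k0 : ℕ, ∀ (a : V → ℤ_[p]) (k : ℕ), k0 ≤ k → (∀ i, ‖a i - P i‖ ≤ ((p : ℝ)⁻¹) ^ k0) →
      ∃ (q : T → V → ℤ_[p]) (N : ℤ_[p]), N ≠ 0 ∧ eval a κ ≠ 0 ∧ N ∣ (p : ℤ_[p]) ^ (2 * k) ∧
        ∀ y : V → ℤ_[p], ∃ ψ : (T → ℤ_[p]) → (T → ℤ_[p]), Isometry ψ ∧ ∀ α : T → ℤ_[p],
          eval (fun v => a v + (p : ℤ_[p]) ^ k * (y v + ∑ s, α s * q s v)) (κ * ∏ t, f t ^ m t) =
            eval a κ * ∏ t, (eval (fun v => a v + (p : ℤ_[p]) ^ k * y v) (f t) + N * ψ α t) ^ m t := by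
  classical
  have hε0 : (0 : ℝ) < (p : ℝ)⁻¹ := inv_pos'
  have hε1 : (p : ℝ)⁻¹ < 1 := inv_lt_one_of_one_lt₀ (by
    exact_mod_cast (Fact.out : p.Prime).one_lt)
  have hp0 : (p : ℤ_[p]) ≠ 0 := by exact_mod_cast (Fact.out : p.Prime).ne_zero
  obtain ⟨t0⟩ := ‹Nonempty T›
  obtain ⟨C, R, hR1, hRm, hRl⟩ := exists_root (p := p) (m t0) (hm t0)
  set δP : ℤ_[p] := (Matrix.of fun s t : T => eval P (pderiv (u s) (f t))).det with hδP
  set δ : (V → ℤ_[p]) → ℤ_[p] := fun a =>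
    (Matrix.of fun s t : T => eval a (pderiv (u s) (f t))).det with hδ
  set μ : ℤ_[p] := (m t0 : ℤ_[p]) with hμ
  have hμ0 : μ ≠ 0 := by
    have := hm t0
    rw [hμ]
    exact_mod_cast (by omega : m t0 ≠ 0)
  -- the radius
  obtain ⟨k0, hk0⟩ := exists_pow_lt_of_lt_one (show 0 < ‖δP‖ * ‖eval P κ‖ * ‖μ‖ * ((p : ℝ)⁻¹) ^ C
    by positivity) hε1
  have hle1 : ∀ z : ℤ_[p], ‖z‖ ≤ 1 := PadicInt.norm_le_one
  have hC1 : ((p : ℝ)⁻¹) ^ C ≤ 1 := pow_le_one₀ hε0.le hε1.le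
  have hC0 : 0 < ((p : ℝ)⁻¹) ^ C := by positivity
  have nδ : 0 < ‖δP‖ := norm_pos_iff.2 hu
  have nκ : 0 < ‖eval P κ‖ := norm_pos_iff.2 hκ
  have nμ : 0 < ‖μ‖ := norm_pos_iff.2 hμ0
  refine ⟨k0, fun a k hk ha => ?_⟩
  have hkk : ((p : ℝ)⁻¹) ^ k ≤ ((p : ℝ)⁻¹) ^ k0 := pow_le_pow_of_le_one hε0.le hε1.le hk
  have hk00 : 0 < ((p : ℝ)⁻¹) ^ k0 := by positivity
  -- the minor
  have hδa : ‖δ a‖ = ‖δP‖ := by
    refine Pool.Agent.W427.SMC.norm_eq_of_sub_lt p _ _ ?_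
    have h1 : δ a - δP = eval a (Matrix.of fun s t : T => pderiv (u s) (f t)).det -
        eval P (Matrix.of fun s t : T => pderiv (u s) (f t)).det := by
      rw [RingHom.map_det, RingHom.map_det]
      rfl
    rw [h1]
    refine (eval_lip_norm _ _ _ _ hk00.le ha).trans_lt (hk0.trans_le ?_)
    calc ‖δP‖ * ‖eval P κ‖ * ‖μ‖ * ((p : ℝ)⁻¹) ^ C ≤ ‖δP‖ * 1 * 1 * 1 := by
          gcongr
          · exact hle1 _
          · exact hle1 _
      _ = ‖δP‖ := by ring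
  have hδa0 : δ a ≠ 0 := by
    rw [← norm_pos_iff, hδa]
    exact nδ
  have hδk : ((p : ℝ)⁻¹) ^ k < ‖δ a‖ := by
    rw [hδa]
    refine hkk.trans_lt (hk0.trans_le ?_)
    calc ‖δP‖ * ‖eval P κ‖ * ‖μ‖ * ((p : ℝ)⁻¹) ^ C ≤ ‖δP‖ * 1 * 1 * 1 := by
          gcongr
          · exact hle1 _
          · exact hle1 _
      _ = ‖δP‖ := by ring
  have hδd : δ a ∣ (p : ℤ_[p]) ^ k := dvd_of_norm_le p _ _ (by rw [norm_pk]; exact hδk.le)
  have hndvd : ¬ (p : ℤ_[p]) ^ k ∣ δ a := by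
    intro h
    have := norm_le_of_dvd p _ _ h
    rw [norm_pk] at this
    linarith
  -- the unit factor
  have hsub : ∀ x : V → ℤ_[p], (∀ i, ‖x i - a i‖ ≤ ((p : ℝ)⁻¹) ^ k) →
      ∀ i, ‖x i - P i‖ ≤ ((p : ℝ)⁻¹) ^ k0 := by
    intro x hx i
    have e : x i - P i = (x i - a i) + (a i - P i) := by ring
    rw [e]
    exact (PadicInt.nonarchimedean _ _).trans (max_le ((hx i).trans hkk) (ha i))
  have hκa : ‖eval a κ‖ = ‖eval P κ‖ := by
    refine Pool.Agent.W427.SMC.norm_eq_of_sub_lt p _ _ ?_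
    refine (eval_lip_norm _ _ _ _ hk00.le ha).trans_lt (hk0.trans_le ?_)
    calc ‖δP‖ * ‖eval P κ‖ * ‖μ‖ * ((p : ℝ)⁻¹) ^ C ≤ 1 * ‖eval P κ‖ * 1 * 1 := by
          gcongr
          · exact hle1 _
          · exact hle1 _
      _ = ‖eval P κ‖ := by ring
  have hκa0 : eval a κ ≠ 0 := by
    rw [← norm_pos_iff, hκa]
    exact nκ
  -- `κ x = κ a * U x`
  have hU : ∀ x : V → ℤ_[p], ∃ U : ℤ_[p], (∀ i, ‖x i - a i‖ ≤ ((p : ℝ)⁻¹) ^ k) →
      eval x κ = eval a κ * U := by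
    intro x
    by_cases hx : ∀ i, ‖x i - a i‖ ≤ ((p : ℝ)⁻¹) ^ k
    · have h1 : eval a κ ∣ eval x κ := by
        refine dvd_of_norm_le p _ _ ?_
        have h2 : ‖eval x κ - eval a κ‖ ≤ ‖eval a κ‖ := by
          refine (eval_lip_norm _ _ _ _ (by positivity) hx).trans (hkk.trans (hk0.le.trans ?_))
          rw [hκa]
          calc ‖δP‖ * ‖eval P κ‖ * ‖μ‖ * ((p : ℝ)⁻¹) ^ C ≤ 1 * ‖eval P κ‖ * 1 * 1 := by
                gcongr
                · exact hle1 _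
                · exact hle1 _
            _ = ‖eval P κ‖ := by ring
        have e : eval x κ = (eval x κ - eval a κ) + eval a κ := by ring
        rw [e]
        exact (PadicInt.nonarchimedean _ _).trans (max_le h2 le_rfl)
      obtain ⟨U, hU⟩ := h1
      exact ⟨U, fun _ => hU⟩
    · exact ⟨0, fun h => absurd h hx⟩
  choose U hU using hU
  have hUl : ∀ x x' : V → ℤ_[p], (∀ i, ‖x i - a i‖ ≤ ((p : ℝ)⁻¹) ^ k) →
      (∀ i, ‖x' i - a i‖ ≤ ((p : ℝ)⁻¹) ^ k) → ‖eval P κ‖ * ‖U x - U x'‖ =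
        ‖eval x κ - eval x' κ‖ := by
    intro x x' hx hx'
    rw [hU x hx, hU x' hx', ← mul_sub, norm_mul, hκa]
  have haa : ∀ i, ‖a i - a i‖ ≤ ((p : ℝ)⁻¹) ^ k := fun i => by
    rw [sub_self, norm_zero]; positivity
  have hUa : U a = 1 := by
    have h1 := hU a haa
    have h2 : eval a κ * (U a - 1) = 0 := by rw [mul_sub, ← h1]; ring
    exact sub_eq_zero.1 ((mul_eq_zero.1 h2).resolve_left hκa0)
  have hU1 : ∀ x : V → ℤ_[p], (∀ i, ‖x i - a i‖ ≤ ((p : ℝ)⁻¹) ^ k) →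
      ‖U x - 1‖ ≤ ((p : ℝ)⁻¹) ^ C := by
    intro x hx
    have h1 := hUl x a hx haa
    rw [hUa] at h1
    have h2 : ‖eval P κ‖ * ‖U x - 1‖ ≤ ‖eval P κ‖ * ((p : ℝ)⁻¹) ^ C := by
      rw [h1]
      refine (eval_lip_norm _ _ _ _ (by positivity) hx).trans (hkk.trans (hk0.le.trans ?_))
      calc ‖δP‖ * ‖eval P κ‖ * ‖μ‖ * ((p : ℝ)⁻¹) ^ C ≤ 1 * ‖eval P κ‖ * 1 * ((p : ℝ)⁻¹) ^ C := by
            gcongr
            · exact hle1 _
            · exact hle1 _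
        _ = ‖eval P κ‖ * ((p : ℝ)⁻¹) ^ C := by ring
    exact le_of_mul_le_mul_left h2 nκ
  -- the directions
  obtain ⟨q, hq⟩ := exists_dir u (fun (t : T) v => eval a (pderiv v (f t)))
  set N : ℤ_[p] := (p : ℤ_[p]) ^ k * δ a with hN
  have hN0 : N ≠ 0 := mul_ne_zero (pow_ne_zero _ hp0) hδa0
  refine ⟨q, N, hN0, hκa0, ?_, fun y => ?_⟩
  · rw [hN, two_mul, pow_add]
    exact mul_dvd_mul_left _ hδd
  obtain ⟨ψ, hψ, hψ2⟩ := exists_isom' p f a (fun v => a v + (p : ℤ_[p]) ^ k * y v) k (δ a) hndvd q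
    hq (fun v => by rw [add_sub_cancel_left]; exact dvd_mul_right _ _)
  -- the points
  set X' : (T → ℤ_[p]) → V → ℤ_[p] := fun α v =>
    a v + (p : ℤ_[p]) ^ k * (y v + ∑ s, α s * q s v) with hX'
  have hXa : ∀ α i, ‖X' α i - a i‖ ≤ ((p : ℝ)⁻¹) ^ k := by
    intro α i
    rw [hX']
    beta_reduce
    rw [add_sub_cancel_left, norm_mul, norm_pk]
    exact mul_le_of_le_one_right (by positivity) (hle1 _)
  have hXX : ∀ α α' i, ‖X' α i - X' α' i‖ ≤ ((p : ℝ)⁻¹) ^ k * ‖α - α'‖ := by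
    intro α α' i
    have e : X' α i - X' α' i = (p : ℤ_[p]) ^ k * ∑ s, (α s - α' s) * q s i := by
      rw [hX']
      simp only [sub_mul, Finset.sum_sub_distrib]
      ring
    rw [e, norm_mul, norm_pk]
    refine mul_le_mul_of_nonneg_left ?_ (by positivity)
    refine IsUltrametricDist.norm_sum_le_of_forall_le_of_nonneg (norm_nonneg _) fun s _ => ?_
    rw [norm_mul]
    exact (mul_le_of_le_one_right (norm_nonneg _) (hle1 _)).trans (norm_le_pi_norm (α - α') s)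
  have hfX : ∀ α t, eval (X' α) (f t) = eval (fun v => a v + (p : ℤ_[p]) ^ k * y v) (f t) +
      N * ψ α t := by
    intro α t
    have h1 := hψ2 α t
    rw [← h1]
    congr 2
    funext v
    rw [hX']
    ring
  set β : T → ℤ_[p] := fun t => eval (fun v => a v + (p : ℤ_[p]) ^ k * y v) (f t) with hβ
  have hβn : ∀ t, ‖β t‖ ≤ ((p : ℝ)⁻¹) ^ k0 := by
    intro t
    have h1 : β t = eval (fun v => a v + (p : ℤ_[p]) ^ k * y v) (f t) - eval P (f t) := by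
      rw [hf, sub_zero]
    rw [h1]
    refine eval_lip_norm _ _ _ _ hk00.le (hsub _ fun i => ?_)
    rw [add_sub_cancel_left, norm_mul, norm_pk]
    exact mul_le_of_le_one_right (by positivity) (hle1 _)
  -- the root of the unit factor
  set r : (T → ℤ_[p]) → ℤ_[p] := fun α => R (U (X' α)) with hr
  have hrm : ∀ α, r α ^ m t0 = U (X' α) := fun α => hRm _ (hU1 _ (hXa α))
  have hrl : ∀ α α', ‖eval P κ‖ * ‖μ‖ * ‖r α - r α'‖ ≤ ((p : ℝ)⁻¹) ^ k * ‖α - α'‖ := by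
    intro α α'
    have h1 := hRl _ _ (hU1 _ (hXa α)) (hU1 _ (hXa α'))
    have h2 := hUl _ _ (hXa α) (hXa α')
    have h3 := eval_lip_norm κ _ _ _ (by positivity) (hXX α α')
    rw [← h2, ← h1] at h3
    calc ‖eval P κ‖ * ‖μ‖ * ‖r α - r α'‖ = ‖eval P κ‖ * (‖r α - r α'‖ * ‖μ‖) := by ring
      _ ≤ _ := h3
  have hr1 : ∀ α, ‖eval P κ‖ * ‖μ‖ * ‖r α - 1‖ ≤ ((p : ℝ)⁻¹) ^ k := by
    intro α
    have h1 := hRl _ _ (hU1 _ (hXa α)) (hU1 _ haa)
    rw [hUa, hR1] at h1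
    have h2 := hUl _ _ (hXa α) haa
    have h3 := eval_lip_norm κ _ _ _ (by positivity) (hXa α)
    rw [← h2, hUa, ← h1] at h3
    calc ‖eval P κ‖ * ‖μ‖ * ‖r α - 1‖ = ‖eval P κ‖ * (‖r α - 1‖ * ‖μ‖) := by ring
      _ ≤ _ := h3
  have hkey : ((p : ℝ)⁻¹) ^ k0 < ‖δP‖ * (‖eval P κ‖ * ‖μ‖) := by
    refine hk0.trans_le ?_
    calc ‖δP‖ * ‖eval P κ‖ * ‖μ‖ * ((p : ℝ)⁻¹) ^ C ≤ ‖δP‖ * ‖eval P κ‖ * ‖μ‖ * 1 := by
          gcongr
      _ = _ := by ring
  have hkey2 : ((p : ℝ)⁻¹) ^ k0 < ‖eval P κ‖ * ‖μ‖ := by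
    refine hkey.trans_le ?_
    exact mul_le_of_le_one_left (by positivity) (hle1 _)
  have hkm : 0 < ‖eval P κ‖ * ‖μ‖ := by positivity
  have hNn : ‖N‖ = ((p : ℝ)⁻¹) ^ k * ‖δP‖ := by rw [hN, norm_mul, norm_pk, hδa]
  have hE : ∀ α, ∃ E, β t0 * (r α - 1) = N * E := by
    intro α
    have h1 : N ∣ β t0 * (r α - 1) := by
      refine dvd_of_norm_le p _ _ ?_
      rw [hNn, norm_mul]
      have h2 : ‖β t0‖ * ‖r α - 1‖ * (‖eval P κ‖ * ‖μ‖) ≤
          (((p : ℝ)⁻¹) ^ k * ‖δP‖) * (‖eval P κ‖ * ‖μ‖) := by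
        calc ‖β t0‖ * ‖r α - 1‖ * (‖eval P κ‖ * ‖μ‖)
            = ‖β t0‖ * (‖eval P κ‖ * ‖μ‖ * ‖r α - 1‖) := by ring
          _ ≤ ((p : ℝ)⁻¹) ^ k0 * ((p : ℝ)⁻¹) ^ k :=
              mul_le_mul (hβn t0) (hr1 α) (by positivity) hk00.le
          _ ≤ (‖δP‖ * (‖eval P κ‖ * ‖μ‖)) * ((p : ℝ)⁻¹) ^ k :=
              mul_le_mul_of_nonneg_right hkey.le (by positivity)
          _ = _ := by ring
      exact le_of_mul_le_mul_right h2 hkm
    exact h1
  choose E hE using hE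
  set ψ' : (T → ℤ_[p]) → (T → ℤ_[p]) := fun α t =>
    if t = t0 then ψ α t0 * r α + E α else ψ α t with hψ'
  refine ⟨ψ', isom_close ψ ψ' hψ ?_, fun α => ?_⟩
  · intro α α' hne
    have hαα : 0 < ‖α - α'‖ := norm_pos_iff.2 (sub_ne_zero.2 hne)
    rw [pi_norm_lt_iff hαα]
    intro t
    simp only [Pi.sub_apply, hψ']
    by_cases ht : t = t0
    · subst ht
      simp only [if_true]
      have e : ψ α t * r α + E α - ψ α t - (ψ α' t * r α' + E α' - ψ α' t) =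
          (ψ α t - ψ α' t) * (r α - 1) + ψ α' t * (r α - r α') + (E α - E α') := by ring
      rw [e]
      have hrr : ‖r α - r α'‖ < ‖α - α'‖ := by
        have h1 := hrl α α'
        have h2 : ‖eval P κ‖ * ‖μ‖ * ‖r α - r α'‖ < ‖eval P κ‖ * ‖μ‖ * ‖α - α'‖ :=
          h1.trans_lt (mul_lt_mul_of_pos_right (hkk.trans_lt hkey2) hαα)
        exact lt_of_mul_lt_mul_left h2 hkm.le
      have hr1' : ‖r α - 1‖ < 1 := by
        have h1 := hr1 α
        have h2 : ‖eval P κ‖ * ‖μ‖ * ‖r α - 1‖ < ‖eval P κ‖ * ‖μ‖ * 1 := by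
          rw [mul_one]
          exact h1.trans_lt (hkk.trans_lt hkey2)
        exact lt_of_mul_lt_mul_left h2 hkm.le
      refine (PadicInt.nonarchimedean _ _).trans_lt (max_lt
        ((PadicInt.nonarchimedean _ _).trans_lt (max_lt ?_ ?_)) ?_)
      · rw [norm_mul]
        have h1 : ‖ψ α t - ψ α' t‖ ≤ ‖α - α'‖ := by
          have h2 := hψ.dist_eq α α'
          rw [dist_eq_norm, dist_eq_norm] at h2
          rw [← h2]
          exact norm_le_pi_norm (ψ α - ψ α') t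
        calc ‖ψ α t - ψ α' t‖ * ‖r α - 1‖ ≤ ‖α - α'‖ * ‖r α - 1‖ :=
              mul_le_mul_of_nonneg_right h1 (norm_nonneg _)
          _ < ‖α - α'‖ * 1 := mul_lt_mul_of_pos_left hr1' hαα
          _ = _ := mul_one _
      · rw [norm_mul]
        exact (mul_le_of_le_one_left (norm_nonneg _) (hle1 _)).trans_lt hrr
      · have h1 : N * (E α - E α') = β t * (r α - r α') := by
          rw [mul_sub, ← hE, ← hE]
          ring
        have h2 := congrArg norm h1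
        rw [norm_mul N (E α - E α'), norm_mul (β t) (r α - r α'), hNn] at h2
        have h3 : ((p : ℝ)⁻¹) ^ k * ‖δP‖ * ‖E α - E α'‖ * (‖eval P κ‖ * ‖μ‖) ≤
            ((p : ℝ)⁻¹) ^ k0 * (((p : ℝ)⁻¹) ^ k * ‖α - α'‖) := by
          rw [h2]
          calc ‖β t‖ * ‖r α - r α'‖ * (‖eval P κ‖ * ‖μ‖)
              = ‖β t‖ * (‖eval P κ‖ * ‖μ‖ * ‖r α - r α'‖) := by ring
            _ ≤ _ := mul_le_mul (hβn t) (hrl α α') (by positivity) hk00.le
        have hεk : 0 < ((p : ℝ)⁻¹) ^ k := by positivity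
        have h4 : ((p : ℝ)⁻¹) ^ k * ‖δP‖ * (‖eval P κ‖ * ‖μ‖) * ‖E α - E α'‖ <
            ((p : ℝ)⁻¹) ^ k * ‖δP‖ * (‖eval P κ‖ * ‖μ‖) * ‖α - α'‖ := by
          calc ((p : ℝ)⁻¹) ^ k * ‖δP‖ * (‖eval P κ‖ * ‖μ‖) * ‖E α - E α'‖
              = ((p : ℝ)⁻¹) ^ k * ‖δP‖ * ‖E α - E α'‖ * (‖eval P κ‖ * ‖μ‖) := by ring
            _ ≤ ((p : ℝ)⁻¹) ^ k0 * (((p : ℝ)⁻¹) ^ k * ‖α - α'‖) := h3
            _ < (‖δP‖ * (‖eval P κ‖ * ‖μ‖)) * (((p : ℝ)⁻¹) ^ k * ‖α - α'‖) :=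
                mul_lt_mul_of_pos_right hkey (by positivity)
            _ = _ := by ring
        exact lt_of_mul_lt_mul_left h4 (by positivity)
    · simp only [if_neg ht, sub_self, norm_zero]
      exact hαα
  · have h1 : eval (X' α) (κ * ∏ t, f t ^ m t) =
        eval a κ * (r α ^ m t0 * ∏ t, (β t + N * ψ α t) ^ m t) := by
      rw [map_mul, map_prod, hU _ (hXa α), hrm α, mul_assoc]
      congr 2
      refine Finset.prod_congr rfl fun t _ => ?_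
      rw [map_pow, hfX]
    have h2 : ∏ t, (β t + N * ψ' α t) ^ m t = r α ^ m t0 * ∏ t, (β t + N * ψ α t) ^ m t := by
      rw [← Finset.mul_prod_erase Finset.univ (fun t => (β t + N * ψ' α t) ^ m t)
        (Finset.mem_univ t0), ← Finset.mul_prod_erase Finset.univ
        (fun t => (β t + N * ψ α t) ^ m t) (Finset.mem_univ t0)]
      have h3 : β t0 + N * ψ' α t0 = r α * (β t0 + N * ψ α t0) := by
        rw [hψ']
        simp only [if_true]
        linear_combination -hE α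
      rw [h3, mul_pow, mul_assoc]
      congr 2
      refine Finset.prod_congr rfl fun t ht => ?_
      rw [hψ']
      simp only [if_neg (Finset.ne_of_mem_erase ht)]
    rw [h2]
    exact h1

end Pool.Agent.L0h21.RW
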