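import Pool.Agent.L0h21.RW.P2

/-! The distribution of a product near a point with normal crossings is good. -/

set_option autoImplicit false
set_option linter.unusedSectionVars false

namespace Pool.Agent.L0h21.RW

open MvPolynomial MeasureTheory
open Pool.Agent.W427.SMC (msZ bsZ mu)
open Pool.Agent.Y230.PT (msK bsK inc inc_emb rr)
open Pool.Agent.Y230.PS (EP)
open Pool.Agent.N138.SU Pool.Agent.N138.SV Pool.Agent.N138.RF
open Pool.Agent.L0h21.SN (exists_isom' exists_dir dvd_of_norm_le norm_le_of_dvd eval_lip isom_mp rho)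

attribute [local instance] msK bsK msZ bsZ

variable {p : ℕ} [Fact p.Prime]

section avg

variable {V T : Type} [Fintype V] [Fintype T]

/-- Averaging over translations. -/
theorem avgC (g : (V → ℤ_[p]) → ℂ) (hg : Measurable g) (hb : ∃ B : ℝ, ∀ x, ‖g x‖ ≤ B)
    (φ : (T → ℤ_[p]) → (V → ℤ_[p])) (hφ : Measurable φ) :
    ∫ x, g x ∂(Measure.pi fun _ : V => mu p) =
      ∫ x, ∫ a, g (x + φ a) ∂(Measure.pi fun _ : T => mu p) ∂(Measure.pi fun _ : V => mu p) := by
  obtain ⟨B, hB⟩ := hb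
  have hm : Measurable (Function.uncurry fun (x : V → ℤ_[p]) (a : T → ℤ_[p]) => g (x + φ a)) :=
    hg.comp (measurable_fst.add (hφ.comp measurable_snd))
  have hi : Integrable (Function.uncurry fun (x : V → ℤ_[p]) (a : T → ℤ_[p]) => g (x + φ a))
      ((Measure.pi fun _ : V => mu p).prod (Measure.pi fun _ : T => mu p)) :=
    Integrable.of_bound hm.aestronglyMeasurable B (Filter.Eventually.of_forall fun z => hB _)
  rw [integral_integral_swap hi]
  have h1 : ∀ a : T → ℤ_[p], ∫ x, g (x + φ a) ∂(Measure.pi fun _ : V => mu p) =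
      ∫ x, g x ∂(Measure.pi fun _ : V => mu p) := fun a =>
    integral_add_right_eq_self (μ := Measure.pi fun _ : V => mu p) g (φ a)
  simp only [h1]
  simp

end avg

variable {V T : Type} [Fintype V] [DecidableEq V] [Fintype T] [DecidableEq T]

/-- The model of a ball. -/
noncomputable def mdl (c N : ℤ_[p]) (m : T → ℕ) (β : T → ℤ_[p]) (b : T → ℤ_[p]) : ℤ_[p] :=
  c * ∏ t, (β t + N * b t) ^ m t

theorem mdl_meas (c N : ℤ_[p]) (m : T → ℕ) (β : T → ℤ_[p]) : Measurable (mdl c N m β) := by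
  unfold mdl
  refine Continuous.measurable ?_
  exact continuous_const.mul (continuous_finsetProd _ fun t _ =>
    (continuous_const.add (continuous_const.mul (continuous_apply t))).pow _)

/-- Translations of the model. -/
theorem mdl_congr (c N : ℤ_[p]) (m : T → ℕ) (β β' : T → ℤ_[p]) (h : ∀ t, N ∣ β t - β' t)
    (H : ℤ_[p] → ℂ) : ∫ b, H (mdl c N m β b) ∂(Measure.pi fun _ : T => mu p) =
      ∫ b, H (mdl c N m β' b) ∂(Measure.pi fun _ : T => mu p) := by
  choose d hd using h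
  have h1 := integral_add_left_eq_self (μ := Measure.pi fun _ : T => mu p)
    (fun b => H (mdl c N m β' b)) d
  rw [← h1]
  refine integral_congr_ae (Filter.Eventually.of_forall fun b => ?_)
  show H (mdl c N m β b) = H (mdl c N m β' (d + b))
  congr 1
  unfold mdl
  congr 1
  refine Finset.prod_congr rfl fun t _ => ?_
  congr 1
  rw [Pi.add_apply]
  linear_combination hd t

/-- The model is good. -/
theorem mdl_gd [Nonempty T] (c N : ℤ_[p]) (hc : c ≠ 0) (hN : N ≠ 0) (m : T → ℕ)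
    (hm : ∀ t, 1 ≤ m t) (β : T → ℤ_[p]) (M : ℂ → ℕ∞) (h0 : ∀ z : ℂ, ‖z‖ ≤ 1 → M z = 0)
    (h01 : ∀ z, M z = 0 ∨ M z = ⊤) (hp : 2 ≤ Fintype.card T → M (p : ℂ) = ⊤)
    (hM : ∀ t, 2 ≤ m t → ∀ z : ℂ, z ^ m t = (p : ℂ) → M z = ⊤) :
    Gd (Measure.pi fun _ : T => mu p) (mdl c N m β) M := by
  obtain ⟨t0⟩ := ‹Nonempty T›
  have h1 := gd_prod (p := p) (T := T)
    (fun t z => (if t = t0 then c else 1) * (β t + N * z) ^ m t) (fun t => by
      refine Continuous.measurable ?_
      exact continuous_const.mul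
        ((continuous_const.add (continuous_const.mul continuous_id)).pow _)) M h0 h01 hp
    (fun t => gd_one _ _ _ (by split_ifs; exacts [hc, one_ne_zero]) hN _ (hm t) M (hM t))
  refine (congrArg (fun q => Gd (Measure.pi fun _ : T => mu p) q M) ?_).mpr h1
  funext b
  unfold mdl
  rw [Finset.prod_mul_distrib, Finset.prod_ite_eq' Finset.univ t0, if_pos (Finset.mem_univ t0)]

/-- **The distribution near a point with normal crossings is good.** -/
theorem gd_nc [Nonempty T] (f : T → MvPolynomial V ℤ_[p]) (κ : MvPolynomial V ℤ_[p]) (m : T → ℕ)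
    (hm : ∀ t, 1 ≤ m t) (P : V → ℤ_[p]) (hf : ∀ t, eval P (f t) = 0) (hκ : eval P κ ≠ 0)
    (u : T → V) (hu : (Matrix.of fun s t : T => eval P (pderiv (u s) (f t))).det ≠ 0)
    (M : ℂ → ℕ∞) (h0 : ∀ z : ℂ, ‖z‖ ≤ 1 → M z = 0)
    (h01 : ∀ z, M z = 0 ∨ M z = ⊤) (hp : 2 ≤ Fintype.card T → M (p : ℂ) = ⊤)
    (hM : ∀ t, 2 ≤ m t → ∀ z : ℂ, z ^ m t = (p : ℂ) → M z = ⊤) :
    ∃ k0 : ℕ, ∀ (a : V → ℤ_[p]) (k : ℕ), k0 ≤ k → (∀ i, ‖a i - P i‖ ≤ ((p : ℝ)⁻¹) ^ k0) →
      Gd (Measure.pi fun _ : V => mu p)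
        (bal (fun x => eval x (κ * ∏ t, f t ^ m t)) a k) M := by
  classical
  obtain ⟨k0, hk0⟩ := chart f κ m hm P hf hκ u hu
  refine ⟨k0, fun a k hk ha => ?_⟩
  obtain ⟨q, N, hN0, hc0, hNd, hch⟩ := hk0 a k hk ha
  set ν : Measure (V → ℤ_[p]) := Measure.pi fun _ : V => mu p with hν
  set ν' : Measure (T → ℤ_[p]) := Measure.pi fun _ : T => mu p with hν'
  set Φ : (V → ℤ_[p]) → ℤ_[p] := bal (fun x => eval x (κ * ∏ t, f t ^ m t)) a k with hΦ
  have hΦc : Continuous Φ := bal_cont (MvPolynomial.continuous_eval _) a k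
  set β : (V → ℤ_[p]) → T → ℤ_[p] := fun y t =>
    eval (fun v => a v + (p : ℤ_[p]) ^ k * y v) (f t) with hβ
  have hβc : Continuous β := continuous_pi fun t =>
    (MvPolynomial.continuous_eval (f t)).comp (continuous_pi fun v =>
      continuous_const.add (continuous_const.mul (continuous_apply v)))
  -- the classes
  set rr' : (V → ℤ_[p]) → T → ZMod (p ^ (2 * k)) := fun y => rho (2 * k) (β y) with hrr
  have hrm : Measurable rr' := (Pool.Agent.L0h21.SN.rho_meas (2 * k)).comp hβc.measurable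
  have hformula : ∀ H : ℤ_[p] → ℂ, Measurable H → (∃ B : ℝ, ∀ z, ‖H z‖ ≤ B) →
      ∫ y, H (Φ y) ∂ν = ∑ r ∈ (Finset.univ : Finset (T → ZMod (p ^ (2 * k)))),
        ((ν.real (rr' ⁻¹' {r}) : ℝ) : ℂ) *
          ∫ b, H (mdl (eval a κ) N m (Pool.Agent.L0h21.SN.rep (2 * k) r) b) ∂ν' := by
    intro H hH hB
    obtain ⟨B, hB⟩ := hB
    have hφ : Measurable (fun (α : T → ℤ_[p]) (v : V) => ∑ s, α s * q s v) := by
      refine Continuous.measurable (continuous_pi fun v => ?_)
      exact continuous_finsetSum _ fun s _ => (continuous_apply s).mul continuous_const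
    have hin : ∀ y, ∫ α : T → ℤ_[p], H (Φ (y + fun v => ∑ s, α s * q s v)) ∂ν' =
        ∑ r : T → ZMod (p ^ (2 * k)), Set.indicator (rr' ⁻¹' {r}) (fun _ =>
          ∫ b, H (mdl (eval a κ) N m (Pool.Agent.L0h21.SN.rep (2 * k) r) b) ∂ν') y := by
      intro y
      obtain ⟨ψ, hψ, hψ2⟩ := hch y
      have h1 : ∀ α : T → ℤ_[p], Φ (y + fun v => ∑ s, α s * q s v) =
          mdl (eval a κ) N m (β y) (ψ α) := fun α => hψ2 α
      simp only [h1]
      have hmp := isom_mp p ψ hψ
      have h2 : ∫ α, H (mdl (eval a κ) N m (β y) (ψ α)) ∂ν' =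
          ∫ b, H (mdl (eval a κ) N m (β y) b) ∂ν' := by
        have h3 := integral_map (μ := ν') (φ := ψ) hmp.measurable.aemeasurable
          (f := fun b => H (mdl (eval a κ) N m (β y) b))
          (hH.comp (mdl_meas _ _ _ _)).aestronglyMeasurable
        rw [hmp.map_eq] at h3
        exact h3.symm
      rw [h2, Finset.sum_eq_single (rr' y)]
      · rw [Set.indicator_of_mem (by simp)]
        refine mdl_congr _ _ _ _ _ (fun t => ?_) H
        exact hNd.trans (Pool.Agent.L0h21.SN.dvd_rep (2 * k) (β y) t)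
      · intro r _ hr
        rw [Set.indicator_of_notMem]
        intro h
        exact hr (Set.mem_singleton_iff.1 h).symm
      · simp
    refine ((avgC (fun y => H (Φ y)) (hH.comp hΦc.measurable) ⟨B, fun y => hB _⟩ _ hφ).trans
      (integral_congr_ae (Filter.Eventually.of_forall fun y => hin y))).trans ?_
    rw [integral_finsetSum]
    · refine Finset.sum_congr rfl fun r _ => ?_
      rw [integral_indicator_const _ (hrm (measurableSet_singleton r))]
      rw [Complex.real_smul]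
    · intro r _
      exact (integrable_const _).indicator (hrm (measurableSet_singleton r))
  exact L5.t p ν Φ hΦc.measurable ν' Finset.univ _ _ (fun r _ => mdl_meas _ _ _ _) hformula M
    (fun r _ => mdl_gd _ _ hc0 hN0 m hm _ M h0 h01 hp hM)

/-- Gluing: a function which is good near every point is good. -/
theorem gd_glue (φ : (V → ℤ_[p]) → ℤ_[p]) (hφ : Measurable φ) (M : ℂ → ℕ∞)
    (k0 : (V → ℤ_[p]) → ℕ) (hk : ∀ a k, k0 a ≤ k →
      Gd (Measure.pi fun _ : V => mu p) (bal φ a k) M) :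
    Gd (Measure.pi fun _ : V => mu p) φ M := by
  obtain ⟨S, hS1, hS2⟩ := D.t p k0
  refine L5.t p (Measure.pi fun _ : V => mu p) φ hφ (Measure.pi fun _ : V => mu p) S
    (fun a => ((p : ℂ)⁻¹) ^ (Fintype.card V * a.2)) (fun a => bal φ a.1 a.2)
    (fun a _ => bal_meas hφ _ _) (fun h hh hb => ?_) M (fun a ha => hk a.1 a.2 (hS1 a ha))
  obtain ⟨B, hB⟩ := hb
  exact hS2 (fun x => h (φ x)) (hh.comp hφ) ⟨B, fun z => hB _⟩

end Pool.Agent.L0h21.RW
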