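import Pool.Agent.L0h21.RW.P3
import Pool.Agent.L0h21.SN.Pad6

/-! The distribution near the centre of a cone is good, if it is good away from the centre. -/

set_option autoImplicit false
set_option linter.unusedSectionVars false

namespace Pool.Agent.L0h21.RW

section EPc

open Polynomial
open Pool.Agent.Y230.PS

/-- Sequences with a linear recursion with an inhomogeneous term. -/
theorem ep_rec (M M' : ℂ → ℕ∞) (A : ℂ) (hA : A ≠ 0) (d : ℕ) (hd : 0 < d) (c s : ℕ → ℂ)
    (hs : s ∈ EP M) (hM : ∀ T, T ≠ 0 → M T ≤ M' T) (hM' : ∀ T : ℂ, T ^ d = A → M' T = ⊤)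
    (h : ∀ e, A * c (e + d) = c e + s e) : c ∈ EP M' := by
  obtain ⟨D, P, hD, hP, hm⟩ := EP_rat M s hs
  have hQ : (C A - X ^ d : ℂ[X]) ≠ 0 := by
    intro h0
    have h1 := congrArg (fun q : ℂ[X] => q.coeff 0) h0
    simp only [coeff_sub, coeff_C_zero, coeff_X_pow, coeff_zero] at h1
    rw [if_neg (by omega)] at h1
    simp at h1
    exact hA h1
  -- the polynomial part
  set Q : ℂ[X] := ∑ n ∈ Finset.range d, monomial n (PowerSeries.coeff n
    (((C A - X ^ d : ℂ[X]) : PowerSeries ℂ) * ser c)) with hQd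
  have h1 : ((C A - X ^ d : ℂ[X]) : PowerSeries ℂ) * ser c =
      (Q : PowerSeries ℂ) + PowerSeries.X ^ d * ser s := by
    ext n
    rw [map_add, Polynomial.coeff_coe, hQd, Polynomial.finsetSum_coeff]
    simp only [Polynomial.coeff_monomial]
    rw [Finset.sum_ite_eq' (Finset.range d) n, PowerSeries.coeff_X_pow_mul']
    by_cases hn : n < d
    · rw [if_pos (Finset.mem_range.2 hn), if_neg (by omega), add_zero]
    · rw [if_neg (fun h => hn (Finset.mem_range.1 h)), if_pos (by omega), coeff_ser]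
      rw [Polynomial.coe_sub, Polynomial.coe_C, Polynomial.coe_pow, Polynomial.coe_X, sub_mul,
        map_sub, PowerSeries.coeff_C_mul, PowerSeries.coeff_X_pow_mul', if_pos (by omega),
        coeff_ser, coeff_ser]
      have h2 := h (n - d)
      rw [Nat.sub_add_cancel (by omega)] at h2
      rw [h2]
      ring
  refine rat_EP M' (D * (C A - X ^ d)) (mul_ne_zero hD hQ) c (D * Q + X ^ d * P) ?_ ?_
  · rw [Polynomial.coe_mul, mul_assoc, h1, mul_add, Polynomial.coe_add, Polynomial.coe_mul,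
      Polynomial.coe_mul, Polynomial.coe_pow, Polynomial.coe_X, ← hP]
    ring
  · intro T hT
    by_cases hr : T ^ d = A
    · rw [hM' T hr]
      exact le_top
    · rw [rootMultiplicity_mul (mul_ne_zero hD hQ)]
      have h2 : (C A - X ^ d : ℂ[X]).rootMultiplicity T = 0 := by
        apply Polynomial.rootMultiplicity_eq_zero
        intro h2
        rw [Polynomial.IsRoot.def, Polynomial.eval_sub, Polynomial.eval_C, Polynomial.eval_pow,
          Polynomial.eval_X, sub_eq_zero] at h2
        exact hr h2.symm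
      rw [h2, add_zero]
      exact (hm T hT).trans (hM T hT)

end EPc

open MvPolynomial MeasureTheory
open Pool.Agent.W427.SMC (msZ bsZ mu)
open Pool.Agent.Y230.PT (msK bsK inc inc_emb rr)
open Pool.Agent.Y230.PS (EP)
open Pool.Agent.N138.SU Pool.Agent.N138.SV Pool.Agent.N138.RF
open Pool.Agent.L0h21.SN (As scl meas_As scl_meas map_scl dvd_of_norm_le norm_le_of_dvd)
open scoped ENNReal

attribute [local instance] msK bsK msZ bsZ

variable {p : ℕ} [Fact p.Prime] {V : Type} [Fintype V] [DecidableEq V]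

/-- The integral over the image of the scaling. -/
theorem int_scl (w : V → ℕ) (g : (V → ℤ_[p]) → ℂ) (hg : Measurable g) :
    ∫ x in As p w, g x ∂(Measure.pi fun _ : V => mu p) =
      ((p : ℂ)⁻¹) ^ (∑ i, w i) * ∫ y, g (scl w y) ∂(Measure.pi fun _ : V => mu p) := by
  have hp0 : (p : ℂ) ≠ 0 := by exact_mod_cast (Fact.out : p.Prime).ne_zero
  have h1 := integral_map (μ := Measure.pi fun _ : V => mu p) (scl_meas (p := p) w).aemeasurable
    (f := g) hg.aestronglyMeasurable
  have h2 : (Measure.pi fun _ : V => mu p).map (scl w) =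
      ((p : ℝ≥0∞) ^ (∑ i, w i)) • (Measure.pi fun _ : V => mu p).restrict (As p w) := map_scl w
  rw [h2, integral_smul_measure] at h1
  rw [← h1]
  have h3 : (((p : ℝ≥0∞) ^ (∑ i, w i)).toReal) = (p : ℝ) ^ (∑ i, w i) := by
    rw [ENNReal.toReal_pow, ENNReal.toReal_natCast]
  rw [h3, Complex.real_smul, ← mul_assoc]
  push_cast
  rw [← mul_pow, inv_mul_cancel₀ hp0, one_pow, one_mul]

/-- **Cones.** -/
theorem gd_cone (w : V → ℕ) (hw : 0 < ∑ v, w v) (d : ℕ) (hd : 0 < d) (ρ : (V → ℤ_[p]) → ℤ_[p])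
    (hρ : Measurable ρ) (hsc : ∀ y, ρ (scl w y) = (p : ℤ_[p]) ^ d * ρ y) (M : ℂ → ℕ∞)
    (hM : ∀ T : ℂ, T ^ d = (p : ℂ) ^ (∑ v, w v) → M T = ⊤)
    (k0 : (V → ℤ_[p]) → ℕ) (hk : ∀ a, a ∉ As p w → ∀ k, k0 a ≤ k →
      Gd (Measure.pi fun _ : V => mu p) (bal ρ a k) M) :
    Gd (Measure.pi fun _ : V => mu p) ρ M := by
  classical
  have hp0 : (p : ℂ) ≠ 0 := by exact_mod_cast (Fact.out : p.Prime).ne_zero
  set ν : Measure (V → ℤ_[p]) := Measure.pi fun _ : V => mu p with hν
  set A : ℂ := (p : ℂ) ^ (∑ v, w v) with hA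
  have hA0 : A ≠ 0 := pow_ne_zero _ hp0
  -- the decomposition of the shell
  set k1 : (V → ℤ_[p]) → ℕ := fun a => k0 a + ∑ v, w v with hk1
  obtain ⟨S, hS1, hS2⟩ := D.t p k1
  have hAs : ∀ (a : (V → ℤ_[p]) × ℕ), a ∈ S → ∀ y : V → ℤ_[p],
      ((fun i => a.1 i + (p : ℤ_[p]) ^ a.2 * y i) ∈ As p w ↔ a.1 ∈ As p w) := by
    intro a ha y
    refine forall_congr' fun i => ?_
    refine dvd_add_left (Dvd.dvd.mul_right (pow_dvd_pow _ ?_) _)
    have h1 := hS1 a ha
    have h2 : w i ≤ ∑ v, w v := Finset.single_le_sum (f := w) (fun _ _ => Nat.zero_le _)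
      (Finset.mem_univ i)
    have h3 : k1 a.1 = k0 a.1 + ∑ v, w v := rfl
    omega
  set S' := S.filter fun a => a.1 ∉ As p w with hS'
  set cc : (V → ℤ_[p]) × ℕ → ℂ := fun a => ((p : ℂ)⁻¹) ^ (Fintype.card V * a.2) with hcc
  have hdec : ∀ H : ℤ_[p] → ℂ, Measurable H → (∃ B : ℝ, ∀ z, ‖H z‖ ≤ B) →
      ∫ y, H (ρ y) ∂ν = ∑ a ∈ S', cc a * ∫ z, H (bal ρ a.1 a.2 z) ∂ν +
        A⁻¹ * ∫ y, H ((p : ℤ_[p]) ^ d * ρ y) ∂ν := by
    intro H hH hB
    obtain ⟨B, hB⟩ := hB
    have hm : Measurable fun y => H (ρ y) := hH.comp hρ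
    have hi : Integrable (fun y => H (ρ y)) ν :=
      Integrable.of_bound hm.aestronglyMeasurable B (Filter.Eventually.of_forall fun z => hB _)
    rw [← integral_add_compl (meas_As (p := p) w) hi, add_comm]
    congr 1
    · rw [← integral_indicator (meas_As w).compl]
      have h1 := hS2 (Set.indicator (As p w)ᶜ fun y => H (ρ y)) (hm.indicator (meas_As w).compl)
        ⟨B, fun z => (norm_indicator_le_norm_self _ _).trans (hB _)⟩
      rw [h1, hS', Finset.sum_filter]
      refine Finset.sum_congr rfl fun a ha => ?_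
      by_cases h2 : a.1 ∈ As p w
      · rw [if_neg (not_not.2 h2)]
        have h3 : ∀ y : V → ℤ_[p], Set.indicator (As p w)ᶜ (fun y => H (ρ y))
            (fun i => a.1 i + (p : ℤ_[p]) ^ a.2 * y i) = 0 := fun y =>
          Set.indicator_of_notMem (s := (As p w)ᶜ) (fun h => h ((hAs a ha y).2 h2)) _
        simp only [h3]
        simp
      · rw [if_pos h2]
        congr 1
        refine integral_congr_ae (Filter.Eventually.of_forall fun y => ?_)
        exact Set.indicator_of_mem (s := (As p w)ᶜ) (fun h => h2 ((hAs a ha y).1 h)) _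
    · rw [int_scl w _ hm, hA, ← inv_pow]
      simp only [hsc]
      rfl
  have hgd : ∀ a ∈ S', Gd ν (bal ρ a.1 a.2) M := by
    intro a ha
    have h1 := Finset.mem_filter.1 ha
    have h2 := hS1 a h1.1
    have h3 : k1 a.1 = k0 a.1 + ∑ v, w v := rfl
    exact hk a.1 h1.2 a.2 (by omega)
  have hnA : ‖A⁻¹‖ < 1 := by
    rw [hA, norm_inv, norm_pow, Complex.norm_natCast]
    exact inv_lt_one_of_one_lt₀ (one_lt_pow₀ (by exact_mod_cast (Fact.out : p.Prime).one_lt)
      hw.ne')
  refine ⟨?_, fun χ => ?_⟩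
  · -- the invariance
    have hN : ∀ a ∈ S', ∃ N, LIn ν (bal ρ a.1 a.2) N := fun a ha => (hgd a ha).1
    choose! Nf hNf using hN
    refine ⟨S'.sup Nf, fun v hv => ?_⟩
    have key : ∀ (n : ℕ) (B : ℝ) (H : ℤ_[p] → ℂ), Measurable H → (∀ z, ‖H z‖ ≤ B) →
        ‖∫ y, H (v * ρ y) ∂ν - ∫ y, H (ρ y) ∂ν‖ ≤ ‖A⁻¹‖ ^ n * (2 * B) := by
      intro n
      induction n with
      | zero =>
        intro B H hH hB
        rw [pow_zero, one_mul, two_mul]
        refine (norm_sub_le _ _).trans (add_le_add ?_ ?_)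
        · have := norm_integral_le_of_norm_le_const (μ := ν) (f := fun y => H (v * ρ y)) (C := B)
            (Filter.Eventually.of_forall fun y => hB _)
          simpa using this
        · have := norm_integral_le_of_norm_le_const (μ := ν) (f := fun y => H (ρ y)) (C := B)
            (Filter.Eventually.of_forall fun y => hB _)
          simpa using this
      | succ n ih =>
        intro B H hH hB
        have e1 := hdec (fun z => H (v * z)) (hH.comp (measurable_const.mul measurable_id))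
          ⟨B, fun z => hB _⟩
        have e2 := hdec H hH ⟨B, hB⟩
        have e3 : ∀ a ∈ S', ∫ z, H (v * bal ρ a.1 a.2 z) ∂ν = ∫ z, H (bal ρ a.1 a.2 z) ∂ν := by
          intro a ha
          exact LIn.mono (hNf a ha) (Finset.le_sup ha) v hv H hH ⟨B, hB⟩
        rw [Finset.sum_congr rfl fun a ha => by rw [e3 a ha]] at e1
        rw [e1, e2, add_sub_add_left_eq_sub, ← mul_sub, norm_mul, pow_succ', mul_assoc]
        refine mul_le_mul_of_nonneg_left ?_ (norm_nonneg _)
        have h4 := ih B (fun z => H ((p : ℤ_[p]) ^ d * z))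
          (hH.comp (measurable_const.mul measurable_id)) (fun z => hB _)
        have e4 : ∀ y, (p : ℤ_[p]) ^ d * (v * ρ y) = v * ((p : ℤ_[p]) ^ d * ρ y) := fun y => by
          ring
        simp only [e4] at h4
        exact h4
    intro H hH hB
    obtain ⟨B, hB⟩ := hB
    rw [← sub_eq_zero, ← norm_le_zero_iff]
    have h5 : Filter.Tendsto (fun n : ℕ => ‖A⁻¹‖ ^ n * (2 * B)) Filter.atTop (nhds (0 * (2 * B))) :=
      (tendsto_pow_atTop_nhds_zero_of_lt_one (norm_nonneg _) hnA).mul_const _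
    rw [zero_mul] at h5
    exact ge_of_tendsto' h5 fun n => key n B H hH hB
  · -- the exponential sums
    have h1 : ∀ (e : ℕ) (u : ℤ_[p]), Es ν ρ e u = ∑ a ∈ S', cc a * Es ν (bal ρ a.1 a.2) e u +
        A⁻¹ * Es ν (fun y => (p : ℤ_[p]) ^ d * ρ y) e u := by
      intro e u
      exact hdec (fun z => psi p e (u * z))
        ((Pool.Agent.N138.SU.B3.psi_meas e).comp (measurable_const.mul measurable_id))
        ⟨1, fun z => (Pool.Agent.N138.SU.B3.psi_norm e _).le⟩
    have hbm : ∀ a : (V → ℤ_[p]) × ℕ, Measurable (bal ρ a.1 a.2) := fun a => bal_meas hρ _ _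
    have h2 : ∀ e, Eh ν ρ χ e = (∑ a ∈ S', cc a • (fun e : ℕ => Eh ν (bal ρ a.1 a.2) χ e)) e +
        A⁻¹ * Eh ν (fun y => (p : ℤ_[p]) ^ d * ρ y) χ e := by
      intro e
      have h3 := hat_sum (Finset.univ : Finset (Option S'))
        (fun o => match o with | some a => cc a.1 | none => A⁻¹)
        (fun o e u => match o with
          | some a => Es ν (bal ρ a.1.1 a.1.2) e u
          | none => Es ν (fun y => (p : ℤ_[p]) ^ d * ρ y) e u) e
        (fun o _ => by
          rcases o with _ | a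
          · exact Es_meas ν _ (measurable_const.mul hρ) e
          · exact Es_meas ν _ (hbm a.1) e)
        (fun o _ u => by
          rcases o with _ | a
          · exact Es_norm ν _ e u
          · exact Es_norm ν _ e u) χ
      have h4 : Eh ν ρ χ e = hat (fun e u => ∑ o : Option S',
          (match o with | some a => cc a.1 | none => A⁻¹) * (match o with
          | some a => Es ν (bal ρ a.1.1 a.1.2) e u
          | none => Es ν (fun y => (p : ℤ_[p]) ^ d * ρ y) e u)) χ e := by
        unfold Eh hat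
        congr 1
        funext u
        congr 1
        beta_reduce
        rw [Fintype.sum_option, h1, add_comm, ← Finset.sum_coe_sort S'
          (fun a => cc a * Es ν (bal ρ a.1 a.2) e u)]
      rw [h4, h3, Fintype.sum_option, add_comm, Finset.sum_apply]
      congr 1
      simp only [Pi.smul_apply, smul_eq_mul]
      rw [← Finset.sum_coe_sort S' (fun a => cc a * Eh ν (bal ρ a.1 a.2) χ e)]
      rfl
    set s : ℕ → ℂ := ∑ a ∈ S', cc a • (fun e : ℕ => Eh ν (bal ρ a.1 a.2) χ e) with hs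
    have hsE : s ∈ EP M := Submodule.sum_mem _ fun a ha => Submodule.smul_mem _ _ ((hgd a ha).2 χ)
    have hsE2 : (fun e => A * s (e + d)) ∈ EP M :=
      (EP M).smul_mem A (EP_shift M d s hsE)
    refine ep_rec M M A hA0 d hd (fun e => Eh ν ρ χ e) _ hsE2 (fun T _ => le_rfl) hM fun e => ?_
    beta_reduce
    rw [h2 (e + d), Eh_scale, mul_add, ← mul_assoc, mul_inv_cancel₀ hA0, one_mul, add_comm]

end Pool.Agent.L0h21.RW
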