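import Pool.Agent.L0h21.RW.P3

/-! Charts for families of functions, equality of distributions. -/

set_option autoImplicit false
set_option linter.unusedSectionVars false

namespace Pool.Agent.L0h21.RW

open MvPolynomial MeasureTheory
open Pool.Agent.W427.SMC (msZ bsZ mu)
open Pool.Agent.Y230.PT (msK bsK inc inc_emb rr)
open Pool.Agent.Y230.PS (EP)
open Pool.Agent.N138.SU Pool.Agent.N138.SV Pool.Agent.N138.RF
open Pool.Agent.L0h21.SN (exists_isom' exists_dir dvd_of_norm_le norm_le_of_dvd eval_lip isom_mp rho)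

attribute [local instance] msK bsK msZ bsZ

variable {p : ℕ} [Fact p.Prime]

/-- The determinant of the matrix of the derivatives. -/
noncomputable def dlt {V T : Type} [Fintype T] [DecidableEq T] (f : T → MvPolynomial V ℤ_[p])
    (u : T → V) (a : V → ℤ_[p]) : ℤ_[p] :=
  (Matrix.of fun s t : T => eval a (pderiv (u s) (f t))).det

/-- **Charts.** -/
theorem chart_core (m0 : ℕ) (hm0 : 1 ≤ m0) : ∃ η : ℝ, 0 < η ∧ η ≤ ‖(m0 : ℤ_[p])‖ ∧
    ∀ {V T : Type} [Fintype V] [DecidableEq V] [Fintype T] [DecidableEq T]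
      (f : T → MvPolynomial V ℤ_[p]) (κ : MvPolynomial V ℤ_[p]) (m : T → ℕ) (t0 : T)
      (_ : m t0 = m0) (u : T → V) (a : V → ℤ_[p]) (k0 k : ℕ) (_ : k0 ≤ k) (c N : ℤ_[p])
      (_ : ((p : ℝ)⁻¹) ^ k0 < ‖dlt f u a‖ * ‖c‖ * η)
      (_ : ‖eval a κ - c‖ ≤ ((p : ℝ)⁻¹) ^ k) (_ : ‖N‖ = ((p : ℝ)⁻¹) ^ k * ‖dlt f u a‖)
      (_ : ∀ x : V → ℤ_[p], (∀ i, ‖x i - a i‖ ≤ ((p : ℝ)⁻¹) ^ k) → ∀ t,
        ‖eval x (f t)‖ ≤ ((p : ℝ)⁻¹) ^ k0),
      ∃ q : T → V → ℤ_[p], ∀ y : V → ℤ_[p], ∃ ψ : (T → ℤ_[p]) → (T → ℤ_[p]), Isometry ψ ∧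
        ∀ α : T → ℤ_[p],
          eval (fun v => a v + (p : ℤ_[p]) ^ k * (y v + ∑ s, α s * q s v)) (κ * ∏ t, f t ^ m t) =
            c * ∏ t, (eval (fun v => a v + (p : ℤ_[p]) ^ k * y v) (f t) + N * ψ α t) ^ m t := by
  classical
  have hε0 : (0 : ℝ) < (p : ℝ)⁻¹ := inv_pos'
  have hε1 : (p : ℝ)⁻¹ < 1 := inv_lt_one_of_one_lt₀ (by
    exact_mod_cast (Fact.out : p.Prime).one_lt)
  have hp0 : (p : ℤ_[p]) ≠ 0 := by exact_mod_cast (Fact.out : p.Prime).ne_zero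
  have hle1 : ∀ z : ℤ_[p], ‖z‖ ≤ 1 := PadicInt.norm_le_one
  obtain ⟨C, R, hR1, hRm, hRl⟩ := exists_root (p := p) m0 hm0
  set μ : ℤ_[p] := (m0 : ℤ_[p]) with hμ
  have hμ0 : μ ≠ 0 := by
    rw [hμ]
    exact_mod_cast (by omega : m0 ≠ 0)
  have nμ : 0 < ‖μ‖ := norm_pos_iff.2 hμ0
  have hC1 : ((p : ℝ)⁻¹) ^ C ≤ 1 := pow_le_one₀ hε0.le hε1.le
  have hC0 : 0 < ((p : ℝ)⁻¹) ^ C := by positivity
  refine ⟨‖μ‖ * ((p : ℝ)⁻¹) ^ C, by positivity, mul_le_of_le_one_right (norm_nonneg _) hC1, ?_⟩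
  intro V T _ _ _ _ f κ m t0 ht0 u a k0 k hk c N hk0 hc hN hf
  set δ : ℤ_[p] := dlt f u a with hδ
  have hη0 : 0 < ‖μ‖ * ((p : ℝ)⁻¹) ^ C := by positivity
  have hη1 : ‖μ‖ * ((p : ℝ)⁻¹) ^ C ≤ 1 := by
    calc ‖μ‖ * ((p : ℝ)⁻¹) ^ C ≤ 1 * 1 := mul_le_mul (hle1 _) hC1 hC0.le zero_le_one
      _ = 1 := one_mul 1
  have hk00 : 0 < ((p : ℝ)⁻¹) ^ k0 := by positivity
  have hkk : ((p : ℝ)⁻¹) ^ k ≤ ((p : ℝ)⁻¹) ^ k0 := pow_le_pow_of_le_one hε0.le hε1.le hk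
  have nδ : 0 < ‖δ‖ := by
    refine lt_of_le_of_ne (norm_nonneg _) fun h => ?_
    rw [← h, zero_mul, zero_mul] at hk0
    linarith
  have nc : 0 < ‖c‖ := by
    refine lt_of_le_of_ne (norm_nonneg _) fun h => ?_
    rw [← h, mul_zero, zero_mul] at hk0
    linarith
  have hkδ : ((p : ℝ)⁻¹) ^ k0 < ‖δ‖ := by
    refine hk0.trans_le ?_
    calc ‖δ‖ * ‖c‖ * (‖μ‖ * ((p : ℝ)⁻¹) ^ C) ≤ ‖δ‖ * 1 * 1 := by
          gcongr
          exact hle1 _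
      _ = ‖δ‖ := by ring
  have hkc : ((p : ℝ)⁻¹) ^ k0 < ‖c‖ * ((p : ℝ)⁻¹) ^ C := by
    refine hk0.trans_le ?_
    calc ‖δ‖ * ‖c‖ * (‖μ‖ * ((p : ℝ)⁻¹) ^ C) ≤ 1 * ‖c‖ * (1 * ((p : ℝ)⁻¹) ^ C) := by
          gcongr
          · exact hle1 _
          · exact hle1 _
      _ = _ := by ring
  have hkc1 : ((p : ℝ)⁻¹) ^ k0 < ‖c‖ :=
    hkc.trans_le (mul_le_of_le_one_right (norm_nonneg _) hC1)
  have hδ0 : δ ≠ 0 := norm_pos_iff.1 nδ
  have hc0 : c ≠ 0 := norm_pos_iff.1 nc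
  have hδk : ((p : ℝ)⁻¹) ^ k < ‖δ‖ := hkk.trans_lt hkδ
  have hndvd : ¬ (p : ℤ_[p]) ^ k ∣ δ := by
    intro h
    have := norm_le_of_dvd p _ _ h
    rw [norm_pk] at this
    linarith
  -- the unit factor
  have hκc : ∀ x : V → ℤ_[p], (∀ i, ‖x i - a i‖ ≤ ((p : ℝ)⁻¹) ^ k) →
      ‖eval x κ - c‖ ≤ ((p : ℝ)⁻¹) ^ k := by
    intro x hx
    have e : eval x κ - c = (eval x κ - eval a κ) + (eval a κ - c) := by ring
    rw [e]
    exact (PadicInt.nonarchimedean _ _).trans (max_le (eval_lip_norm _ _ _ _ (by positivity) hx) hc)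
  have hU : ∀ x : V → ℤ_[p], ∃ U : ℤ_[p], (∀ i, ‖x i - a i‖ ≤ ((p : ℝ)⁻¹) ^ k) →
      eval x κ = c * U := by
    intro x
    by_cases hx : ∀ i, ‖x i - a i‖ ≤ ((p : ℝ)⁻¹) ^ k
    · have h1 : c ∣ eval x κ := by
        refine dvd_of_norm_le p _ _ ?_
        have h2 : ‖eval x κ - c‖ ≤ ‖c‖ := (hκc x hx).trans (hkk.trans hkc1.le)
        have e : eval x κ = (eval x κ - c) + c := by ring
        rw [e]
        exact (PadicInt.nonarchimedean _ _).trans (max_le h2 le_rfl)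
      obtain ⟨U, hU⟩ := h1
      exact ⟨U, fun _ => hU⟩
    · exact ⟨0, fun h => absurd h hx⟩
  choose U hU using hU
  have hUl : ∀ x x' : V → ℤ_[p], (∀ i, ‖x i - a i‖ ≤ ((p : ℝ)⁻¹) ^ k) →
      (∀ i, ‖x' i - a i‖ ≤ ((p : ℝ)⁻¹) ^ k) → ‖c‖ * ‖U x - U x'‖ =
        ‖eval x κ - eval x' κ‖ := by
    intro x x' hx hx'
    rw [hU x hx, hU x' hx', ← mul_sub, norm_mul]
  have hUc : ∀ x : V → ℤ_[p], (∀ i, ‖x i - a i‖ ≤ ((p : ℝ)⁻¹) ^ k) →
      ‖c‖ * ‖U x - 1‖ ≤ ((p : ℝ)⁻¹) ^ k := by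
    intro x hx
    have h1 := hκc x hx
    rw [hU x hx] at h1
    have e : c * U x - c = c * (U x - 1) := by ring
    rw [e, norm_mul] at h1
    exact h1
  have hU1 : ∀ x : V → ℤ_[p], (∀ i, ‖x i - a i‖ ≤ ((p : ℝ)⁻¹) ^ k) →
      ‖U x - 1‖ ≤ ((p : ℝ)⁻¹) ^ C := by
    intro x hx
    exact le_of_mul_le_mul_left ((hUc x hx).trans (hkk.trans hkc.le)) nc
  -- the directions
  obtain ⟨q, hq⟩ := exists_dir u (fun (t : T) v => eval a (pderiv v (f t)))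
  set N0 : ℤ_[p] := (p : ℤ_[p]) ^ k * δ with hN0d
  have hN00 : N0 ≠ 0 := mul_ne_zero (pow_ne_zero _ hp0) hδ0
  have hNn0 : ‖N0‖ = ((p : ℝ)⁻¹) ^ k * ‖δ‖ := by rw [hN0d, norm_mul, norm_pk]
  have hNN : ‖N‖ = ‖N0‖ := by rw [hN, hNn0]
  obtain ⟨ω, hω⟩ : N ∣ N0 := dvd_of_norm_le p _ _ hNN.ge
  have hω1 : ‖ω‖ = 1 := by
    have h1 : ‖N0‖ = ‖N0‖ * ‖ω‖ := by
      rw [← hNN, ← norm_mul, ← hω, hNN]
    have h2 : 0 < ‖N0‖ := norm_pos_iff.2 hN00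
    have h3 : ‖N0‖ * (‖ω‖ - 1) = 0 := by rw [mul_sub, ← h1]; ring
    have h4 := (mul_eq_zero.1 h3).resolve_left h2.ne'
    linarith
  refine ⟨q, fun y => ?_⟩
  obtain ⟨ψ, hψ, hψ2⟩ := exists_isom' p f a (fun v => a v + (p : ℤ_[p]) ^ k * y v) k δ hndvd q
    hq (fun v => by rw [add_sub_cancel_left]; exact dvd_mul_right _ _)
  -- the points
  set X' : (T → ℤ_[p]) → V → ℤ_[p] := fun α v =>
    a v + (p : ℤ_[p]) ^ k * (y v + ∑ s, α s * q s v) with hX'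
  have hXa : ∀ α i, ‖X' α i - a i‖ ≤ ((p : ℝ)⁻¹) ^ k := by
    intro α i
    rw [hX']
    beta_reduce
    rw [add_sub_cancel_left, norm_mul, norm_pk]
    exact mul_le_of_le_one_right (by positivity) (hle1 _)
  have hXX : ∀ α α' i, ‖X' α i - X' α' i‖ ≤ ((p : ℝ)⁻¹) ^ k * ‖α - α'‖ := by
    intro α α' i
    have e : X' α i - X' α' i = (p : ℤ_[p]) ^ k * ∑ s, (α s - α' s) * q s i := by
      rw [hX']
      simp only [sub_mul, Finset.sum_sub_distrib]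
      ring
    rw [e, norm_mul, norm_pk]
    refine mul_le_mul_of_nonneg_left ?_ (by positivity)
    refine IsUltrametricDist.norm_sum_le_of_forall_le_of_nonneg (norm_nonneg _) fun s _ => ?_
    rw [norm_mul]
    exact (mul_le_of_le_one_right (norm_nonneg _) (hle1 _)).trans (norm_le_pi_norm (α - α') s)
  have hfX : ∀ α t, eval (X' α) (f t) = eval (fun v => a v + (p : ℤ_[p]) ^ k * y v) (f t) +
      N0 * ψ α t := by
    intro α t
    have h1 := hψ2 α t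
    rw [← h1]
    congr 2
    funext v
    rw [hX']
    ring
  set β : T → ℤ_[p] := fun t => eval (fun v => a v + (p : ℤ_[p]) ^ k * y v) (f t) with hβ
  have hβn : ∀ t, ‖β t‖ ≤ ((p : ℝ)⁻¹) ^ k0 := by
    intro t
    refine hf _ (fun i => ?_) t
    rw [add_sub_cancel_left, norm_mul, norm_pk]
    exact mul_le_of_le_one_right (by positivity) (hle1 _)
  -- the root of the unit factor
  set r : (T → ℤ_[p]) → ℤ_[p] := fun α => R (U (X' α)) with hr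
  have hrm : ∀ α, r α ^ m t0 = U (X' α) := fun α => by
    rw [ht0]
    exact hRm _ (hU1 _ (hXa α))
  have hrl : ∀ α α', ‖c‖ * ‖μ‖ * ‖r α - r α'‖ ≤ ((p : ℝ)⁻¹) ^ k * ‖α - α'‖ := by
    intro α α'
    have h1 := hRl _ _ (hU1 _ (hXa α)) (hU1 _ (hXa α'))
    have h2 := hUl _ _ (hXa α) (hXa α')
    have h3 := eval_lip_norm κ _ _ _ (by positivity) (hXX α α')
    rw [← h2, ← h1] at h3
    calc ‖c‖ * ‖μ‖ * ‖r α - r α'‖ = ‖c‖ * (‖r α - r α'‖ * ‖μ‖) := by ring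
      _ ≤ _ := h3
  have h11 : ‖(1 : ℤ_[p]) - 1‖ ≤ ((p : ℝ)⁻¹) ^ C := by
    rw [sub_self, norm_zero]
    positivity
  have hr1 : ∀ α, ‖c‖ * ‖μ‖ * ‖r α - 1‖ ≤ ((p : ℝ)⁻¹) ^ k := by
    intro α
    have h1 := hRl _ _ (hU1 _ (hXa α)) h11
    rw [hR1] at h1
    have h2 := hUc _ (hXa α)
    rw [← h1] at h2
    calc ‖c‖ * ‖μ‖ * ‖r α - 1‖ = ‖c‖ * (‖r α - 1‖ * ‖μ‖) := by ring
      _ ≤ _ := h2
  have hkey : ((p : ℝ)⁻¹) ^ k0 < ‖δ‖ * (‖c‖ * ‖μ‖) := by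
    refine hk0.trans_le ?_
    calc ‖δ‖ * ‖c‖ * (‖μ‖ * ((p : ℝ)⁻¹) ^ C) ≤ ‖δ‖ * ‖c‖ * (‖μ‖ * 1) := by
          gcongr
      _ = _ := by ring
  have hkey2 : ((p : ℝ)⁻¹) ^ k0 < ‖c‖ * ‖μ‖ := by
    refine hkey.trans_le ?_
    exact mul_le_of_le_one_left (by positivity) (hle1 _)
  have hkm : 0 < ‖c‖ * ‖μ‖ := by positivity
  have hE : ∀ α, ∃ E, β t0 * (r α - 1) = N0 * E := by
    intro α
    have h1 : N0 ∣ β t0 * (r α - 1) := by
      refine dvd_of_norm_le p _ _ ?_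
      rw [hNn0, norm_mul]
      have h2 : ‖β t0‖ * ‖r α - 1‖ * (‖c‖ * ‖μ‖) ≤
          (((p : ℝ)⁻¹) ^ k * ‖δ‖) * (‖c‖ * ‖μ‖) := by
        calc ‖β t0‖ * ‖r α - 1‖ * (‖c‖ * ‖μ‖)
            = ‖β t0‖ * (‖c‖ * ‖μ‖ * ‖r α - 1‖) := by ring
          _ ≤ ((p : ℝ)⁻¹) ^ k0 * ((p : ℝ)⁻¹) ^ k :=
              mul_le_mul (hβn t0) (hr1 α) (by positivity) hk00.le
          _ ≤ (‖δ‖ * (‖c‖ * ‖μ‖)) * ((p : ℝ)⁻¹) ^ k :=
              mul_le_mul_of_nonneg_right hkey.le (by positivity)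
          _ = _ := by ring
      exact le_of_mul_le_mul_right h2 hkm
    exact h1
  choose E hE using hE
  set ψ' : (T → ℤ_[p]) → (T → ℤ_[p]) := fun α t =>
    if t = t0 then ψ α t0 * r α + E α else ψ α t with hψ'
  have hiso : Isometry ψ' := by
    refine isom_close ψ ψ' hψ ?_
    intro α α' hne
    have hαα : 0 < ‖α - α'‖ := norm_pos_iff.2 (sub_ne_zero.2 hne)
    rw [pi_norm_lt_iff hαα]
    intro t
    simp only [Pi.sub_apply, hψ']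
    by_cases ht : t = t0
    · subst ht
      simp only [if_true]
      have e : ψ α t * r α + E α - ψ α t - (ψ α' t * r α' + E α' - ψ α' t) =
          (ψ α t - ψ α' t) * (r α - 1) + ψ α' t * (r α - r α') + (E α - E α') := by ring
      rw [e]
      have hrr : ‖r α - r α'‖ < ‖α - α'‖ := by
        have h1 := hrl α α'
        have h2 : ‖c‖ * ‖μ‖ * ‖r α - r α'‖ < ‖c‖ * ‖μ‖ * ‖α - α'‖ :=
          h1.trans_lt (mul_lt_mul_of_pos_right (hkk.trans_lt hkey2) hαα)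
        exact lt_of_mul_lt_mul_left h2 hkm.le
      have hr1' : ‖r α - 1‖ < 1 := by
        have h1 := hr1 α
        have h2 : ‖c‖ * ‖μ‖ * ‖r α - 1‖ < ‖c‖ * ‖μ‖ * 1 := by
          rw [mul_one]
          exact h1.trans_lt (hkk.trans_lt hkey2)
        exact lt_of_mul_lt_mul_left h2 hkm.le
      refine (PadicInt.nonarchimedean _ _).trans_lt (max_lt
        ((PadicInt.nonarchimedean _ _).trans_lt (max_lt ?_ ?_)) ?_)
      · rw [norm_mul]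
        have h1 : ‖ψ α t - ψ α' t‖ ≤ ‖α - α'‖ := by
          have h2 := hψ.dist_eq α α'
          rw [dist_eq_norm, dist_eq_norm] at h2
          rw [← h2]
          exact norm_le_pi_norm (ψ α - ψ α') t
        calc ‖ψ α t - ψ α' t‖ * ‖r α - 1‖ ≤ ‖α - α'‖ * ‖r α - 1‖ :=
              mul_le_mul_of_nonneg_right h1 (norm_nonneg _)
          _ < ‖α - α'‖ * 1 := mul_lt_mul_of_pos_left hr1' hαα
          _ = _ := mul_one _
      · rw [norm_mul]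
        exact (mul_le_of_le_one_left (norm_nonneg _) (hle1 _)).trans_lt hrr
      · have h1 : N0 * (E α - E α') = β t * (r α - r α') := by
          rw [mul_sub, ← hE, ← hE]
          ring
        have h2 := congrArg norm h1
        rw [norm_mul N0 (E α - E α'), norm_mul (β t) (r α - r α'), hNn0] at h2
        have h3 : ((p : ℝ)⁻¹) ^ k * ‖δ‖ * ‖E α - E α'‖ * (‖c‖ * ‖μ‖) ≤
            ((p : ℝ)⁻¹) ^ k0 * (((p : ℝ)⁻¹) ^ k * ‖α - α'‖) := by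
          rw [h2]
          calc ‖β t‖ * ‖r α - r α'‖ * (‖c‖ * ‖μ‖)
              = ‖β t‖ * (‖c‖ * ‖μ‖ * ‖r α - r α'‖) := by ring
            _ ≤ _ := mul_le_mul (hβn t) (hrl α α') (by positivity) hk00.le
        have hεk : 0 < ((p : ℝ)⁻¹) ^ k := by positivity
        have h4 : ((p : ℝ)⁻¹) ^ k * ‖δ‖ * (‖c‖ * ‖μ‖) * ‖E α - E α'‖ <
            ((p : ℝ)⁻¹) ^ k * ‖δ‖ * (‖c‖ * ‖μ‖) * ‖α - α'‖ := by
          calc ((p : ℝ)⁻¹) ^ k * ‖δ‖ * (‖c‖ * ‖μ‖) * ‖E α - E α'‖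
              = ((p : ℝ)⁻¹) ^ k * ‖δ‖ * ‖E α - E α'‖ * (‖c‖ * ‖μ‖) := by ring
            _ ≤ ((p : ℝ)⁻¹) ^ k0 * (((p : ℝ)⁻¹) ^ k * ‖α - α'‖) := h3
            _ < (‖δ‖ * (‖c‖ * ‖μ‖)) * (((p : ℝ)⁻¹) ^ k * ‖α - α'‖) :=
                mul_lt_mul_of_pos_right hkey (by positivity)
            _ = _ := by ring
        exact lt_of_mul_lt_mul_left h4 (by positivity)
    · simp only [if_neg ht, sub_self, norm_zero]
      exact hαα
  refine ⟨fun α t => ω * ψ' α t, ?_, fun α => ?_⟩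
  · refine Isometry.of_dist_eq fun α α' => ?_
    have h1 := hiso.dist_eq α α'
    rw [dist_eq_norm, dist_eq_norm] at h1 ⊢
    rw [← h1]
    have h2 : (fun t => ω * ψ' α t) - (fun t => ω * ψ' α' t) = ω • (ψ' α - ψ' α') := by
      funext t
      simp only [Pi.sub_apply, Pi.smul_apply, smul_eq_mul]
      ring
    rw [h2]
    have h3 : ∀ z : T → ℤ_[p], ‖ω • z‖ = ‖z‖ := by
      intro z
      refine le_antisymm ?_ ?_
      · rw [pi_norm_le_iff_of_nonneg (norm_nonneg _)]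
        intro t
        rw [Pi.smul_apply, smul_eq_mul, norm_mul, hω1, one_mul]
        exact norm_le_pi_norm z t
      · rw [pi_norm_le_iff_of_nonneg (norm_nonneg _)]
        intro t
        have h4 := norm_le_pi_norm (ω • z) t
        rw [Pi.smul_apply, smul_eq_mul, norm_mul, hω1, one_mul] at h4
        exact h4
    exact h3 _
  · have h1 : eval (X' α) (κ * ∏ t, f t ^ m t) =
        c * (r α ^ m t0 * ∏ t, (β t + N0 * ψ α t) ^ m t) := by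
      rw [map_mul, map_prod, hU _ (hXa α), hrm α, mul_assoc]
      congr 2
      refine Finset.prod_congr rfl fun t _ => ?_
      rw [map_pow, hfX]
    have h2 : ∏ t, (β t + N0 * ψ' α t) ^ m t = r α ^ m t0 * ∏ t, (β t + N0 * ψ α t) ^ m t := by
      rw [← Finset.mul_prod_erase Finset.univ (fun t => (β t + N0 * ψ' α t) ^ m t)
        (Finset.mem_univ t0), ← Finset.mul_prod_erase Finset.univ
        (fun t => (β t + N0 * ψ α t) ^ m t) (Finset.mem_univ t0)]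
      have h3 : β t0 + N0 * ψ' α t0 = r α * (β t0 + N0 * ψ α t0) := by
        rw [hψ']
        simp only [if_true]
        linear_combination -hE α
      rw [h3, mul_pow, mul_assoc]
      congr 2
      refine Finset.prod_congr rfl fun t ht => ?_
      rw [hψ']
      simp only [if_neg (Finset.ne_of_mem_erase ht)]
    rw [← h2] at h1
    rw [h1]
    congr 1
    refine Finset.prod_congr rfl fun t _ => ?_
    rw [← mul_assoc, ← hω]

end Pool.Agent.L0h21.RW
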