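import Pool.Agent.L0h21.RW.P4
import Pool.Agent.N138.RF.L2

/-! The distribution near a centre: abstract form. -/

set_option autoImplicit false
set_option linter.unusedSectionVars false

namespace Pool.Agent.L0h21.RW

open MvPolynomial MeasureTheory
open Pool.Agent.W427.SMC (msZ bsZ mu)
open Pool.Agent.Y230.PT (msK bsK inc inc_emb rr)
open Pool.Agent.Y230.PS (EP)
open Pool.Agent.N138.SU Pool.Agent.N138.SV Pool.Agent.N138.RF
open Pool.Agent.L0h21.SN (As scl meas_As scl_meas map_scl dvd_of_norm_le norm_le_of_dvd)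
open scoped ENNReal

attribute [local instance] msK bsK msZ bsZ

variable {p : ℕ} [Fact p.Prime] {V : Type} [Fintype V] [DecidableEq V]

/-- Two functions have the same distribution. -/
def Sd (φ ψ : (V → ℤ_[p]) → ℤ_[p]) : Prop := ∀ H : ℤ_[p] → ℂ, Measurable H →
  (∃ B : ℝ, ∀ z, ‖H z‖ ≤ B) →
  ∫ y, H (φ y) ∂(Measure.pi fun _ : V => mu p) = ∫ y, H (ψ y) ∂(Measure.pi fun _ : V => mu p)

theorem Sd.gd {φ ψ : (V → ℤ_[p]) → ℤ_[p]} (h : Sd φ ψ) {M : ℂ → ℕ∞}
    (hG : Gd (Measure.pi fun _ : V => mu p) φ M) : Gd (Measure.pi fun _ : V => mu p) ψ M :=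
  L2.Gd_congr h hG

theorem bal_bal (φ : (V → ℤ_[p]) → ℤ_[p]) (a y : V → ℤ_[p]) (k k' : ℕ) :
    bal (bal φ a k) y k' = bal φ (fun i => a i + (p : ℤ_[p]) ^ k * y i) (k + k') := by
  funext z
  unfold bal
  congr 1
  funext i
  rw [pow_add]
  ring

/-- The decomposition of the complement of the image of the scaling in small balls. -/
theorem dec1 (w : V → ℕ) (kk : (V → ℤ_[p]) → ℕ) : ∃ S' : Finset ((V → ℤ_[p]) × ℕ),
    (∀ a ∈ S', a.1 ∉ As p w ∧ kk a.1 ≤ a.2) ∧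
    ∀ ρ : (V → ℤ_[p]) → ℤ_[p], Measurable ρ → ∀ H : ℤ_[p] → ℂ, Measurable H →
      (∃ B : ℝ, ∀ z, ‖H z‖ ≤ B) →
      ∫ y in (As p w)ᶜ, H (ρ y) ∂(Measure.pi fun _ : V => mu p) =
        ∑ a ∈ S', ((p : ℂ)⁻¹) ^ (Fintype.card V * a.2) *
          ∫ z, H (bal ρ a.1 a.2 z) ∂(Measure.pi fun _ : V => mu p) := by
  classical
  set ν : Measure (V → ℤ_[p]) := Measure.pi fun _ : V => mu p with hν
  set k1 : (V → ℤ_[p]) → ℕ := fun a => kk a + ∑ v, w v with hk1
  obtain ⟨S, hS1, hS2⟩ := D.t p k1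
  have hAs : ∀ (a : (V → ℤ_[p]) × ℕ), a ∈ S → ∀ y : V → ℤ_[p],
      ((fun i => a.1 i + (p : ℤ_[p]) ^ a.2 * y i) ∈ As p w ↔ a.1 ∈ As p w) := by
    intro a ha y
    refine forall_congr' fun i => ?_
    refine dvd_add_left (Dvd.dvd.mul_right (pow_dvd_pow _ ?_) _)
    have h1 := hS1 a ha
    have h2 : w i ≤ ∑ v, w v := Finset.single_le_sum (f := w) (fun _ _ => Nat.zero_le _)
      (Finset.mem_univ i)
    have h3 : k1 a.1 = kk a.1 + ∑ v, w v := rfl
    omega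
  refine ⟨S.filter fun a => a.1 ∉ As p w, fun a ha => ?_, fun ρ hρ H hH hB => ?_⟩
  · have h1 := Finset.mem_filter.1 ha
    have h2 := hS1 a h1.1
    have h3 : k1 a.1 = kk a.1 + ∑ v, w v := rfl
    exact ⟨h1.2, by omega⟩
  · obtain ⟨B, hB⟩ := hB
    have hm : Measurable fun y => H (ρ y) := hH.comp hρ
    rw [← integral_indicator (meas_As w).compl]
    have h1 := hS2 (Set.indicator (As p w)ᶜ fun y => H (ρ y)) (hm.indicator (meas_As w).compl)
      ⟨B, fun z => (norm_indicator_le_norm_self _ _).trans (hB _)⟩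
    rw [h1, Finset.sum_filter]
    refine Finset.sum_congr rfl fun a ha => ?_
    by_cases h2 : a.1 ∈ As p w
    · rw [if_neg (not_not.2 h2)]
      have h3 : ∀ y : V → ℤ_[p], Set.indicator (As p w)ᶜ (fun y => H (ρ y))
          (fun i => a.1 i + (p : ℤ_[p]) ^ a.2 * y i) = 0 := fun y =>
        Set.indicator_of_notMem (s := (As p w)ᶜ) (fun h => h ((hAs a ha y).2 h2)) _
      simp only [h3]
      simp
    · rw [if_pos h2]
      congr 1
      refine integral_congr_ae (Filter.Eventually.of_forall fun y => ?_)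
      exact Set.indicator_of_mem (s := (As p w)ᶜ) (fun h => h2 ((hAs a ha y).1 h)) _

theorem dec2 (w : V → ℕ) (d : ℕ) (ρ ρ' : (V → ℤ_[p]) → ℤ_[p]) (hρ : Measurable ρ)
    (hsc : ∀ y, ρ (scl w y) = (p : ℤ_[p]) ^ d * ρ' y) (H : ℤ_[p] → ℂ) (hH : Measurable H)
    (hB : ∃ B : ℝ, ∀ z, ‖H z‖ ≤ B) :
    ∫ y, H (ρ y) ∂(Measure.pi fun _ : V => mu p) =
      ∫ y in (As p w)ᶜ, H (ρ y) ∂(Measure.pi fun _ : V => mu p) +
        ((p : ℂ)⁻¹) ^ (∑ v, w v) *
          ∫ y, H ((p : ℤ_[p]) ^ d * ρ' y) ∂(Measure.pi fun _ : V => mu p) := by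
  obtain ⟨B, hB⟩ := hB
  have hm : Measurable fun y => H (ρ y) := hH.comp hρ
  have hi : Integrable (fun y => H (ρ y)) (Measure.pi fun _ : V => mu p) :=
    Integrable.of_bound hm.aestronglyMeasurable B (Filter.Eventually.of_forall fun z => hB _)
  rw [← integral_add_compl (meas_As (p := p) w) hi, add_comm]
  congr 1
  rw [int_scl w _ hm]
  simp only [hsc]

/-- Equality of the distributions from the equality outside of the image of the scaling. -/
theorem law_cone (w : V → ℕ) (hw : 0 < ∑ v, w v) (d : ℕ) (Fl : ℕ → (V → ℤ_[p]) → ℤ_[p])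
    (G : (V → ℤ_[p]) → ℤ_[p]) (hFm : ∀ l, Measurable (Fl l)) (hGm : Measurable G)
    (hF : ∀ l y, Fl l (scl w y) = (p : ℤ_[p]) ^ d * Fl (l + 1) y)
    (hG : ∀ y, G (scl w y) = (p : ℤ_[p]) ^ d * G y) (l0 : ℕ)
    (h : ∀ l, l0 ≤ l → ∀ H : ℤ_[p] → ℂ, Measurable H → (∃ B : ℝ, ∀ z, ‖H z‖ ≤ B) →
      ∫ y in (As p w)ᶜ, H (Fl l y) ∂(Measure.pi fun _ : V => mu p) =
        ∫ y in (As p w)ᶜ, H (G y) ∂(Measure.pi fun _ : V => mu p)) :
    Sd (Fl l0) G := by
  have hp0 : (p : ℂ) ≠ 0 := by exact_mod_cast (Fact.out : p.Prime).ne_zero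
  set ν : Measure (V → ℤ_[p]) := Measure.pi fun _ : V => mu p with hν
  set A : ℂ := ((p : ℂ)⁻¹) ^ (∑ v, w v) with hA
  have hnA : ‖A‖ < 1 := by
    rw [hA, norm_pow, norm_inv, Complex.norm_natCast]
    exact pow_lt_one₀ (by positivity) (inv_lt_one_of_one_lt₀
      (by exact_mod_cast (Fact.out : p.Prime).one_lt)) hw.ne'
  have key : ∀ (n : ℕ) (l : ℕ), l0 ≤ l → ∀ (B : ℝ) (H : ℤ_[p] → ℂ), Measurable H →
      (∀ z, ‖H z‖ ≤ B) →
      ‖∫ y, H (Fl l y) ∂ν - ∫ y, H (G y) ∂ν‖ ≤ ‖A‖ ^ n * (2 * B) := by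
    intro n
    induction n with
    | zero =>
      intro l _ B H hH hB
      rw [pow_zero, one_mul, two_mul]
      refine (norm_sub_le _ _).trans (add_le_add ?_ ?_)
      · have := norm_integral_le_of_norm_le_const (μ := ν) (f := fun y => H (Fl l y)) (C := B)
          (Filter.Eventually.of_forall fun y => hB _)
        simpa using this
      · have := norm_integral_le_of_norm_le_const (μ := ν) (f := fun y => H (G y)) (C := B)
          (Filter.Eventually.of_forall fun y => hB _)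
        simpa using this
    | succ n ih =>
      intro l hl B H hH hB
      rw [dec2 w d (Fl l) (Fl (l + 1)) (hFm l) (hF l) H hH ⟨B, hB⟩,
        dec2 w d G G hGm hG H hH ⟨B, hB⟩, h l hl H hH ⟨B, hB⟩, add_sub_add_left_eq_sub, ← mul_sub,
        norm_mul, pow_succ', mul_assoc]
      refine mul_le_mul_of_nonneg_left ?_ (norm_nonneg _)
      exact ih (l + 1) (hl.trans (Nat.le_succ l)) B (fun z => H ((p : ℤ_[p]) ^ d * z))
        (hH.comp (measurable_const.mul measurable_id)) (fun z => hB _)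
  intro H hH hB
  obtain ⟨B, hB⟩ := hB
  rw [← sub_eq_zero, ← norm_le_zero_iff]
  have h5 : Filter.Tendsto (fun n : ℕ => ‖A‖ ^ n * (2 * B)) Filter.atTop (nhds (0 * (2 * B))) :=
    (tendsto_pow_atTop_nhds_zero_of_lt_one (norm_nonneg _) hnA).mul_const _
  rw [zero_mul] at h5
  exact ge_of_tendsto' h5 fun n => key n l0 le_rfl B H hH hB

/-- One step. -/
theorem gd_step (w : V → ℕ) (d : ℕ) (ρ ρ' : (V → ℤ_[p]) → ℤ_[p]) (hρ : Measurable ρ)
    (hρ' : Measurable ρ') (hsc : ∀ y, ρ (scl w y) = (p : ℤ_[p]) ^ d * ρ' y) (M : ℂ → ℕ∞)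
    (kk : (V → ℤ_[p]) → ℕ) (hk : ∀ a, a ∉ As p w → ∀ k, kk a ≤ k →
      Gd (Measure.pi fun _ : V => mu p) (bal ρ a k) M)
    (h : Gd (Measure.pi fun _ : V => mu p) ρ' M) :
    Gd (Measure.pi fun _ : V => mu p) ρ M := by
  classical
  have hp0 : (p : ℤ_[p]) ≠ 0 := by exact_mod_cast (Fact.out : p.Prime).ne_zero
  obtain ⟨S', hS1, hS2⟩ := dec1 w kk
  set ν : Measure (V → ℤ_[p]) := Measure.pi fun _ : V => mu p with hν
  refine L5.t p ν ρ hρ ν (Finset.univ : Finset (Option S'))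
    (fun o => match o with
      | some a => ((p : ℂ)⁻¹) ^ (Fintype.card V * a.1.2)
      | none => ((p : ℂ)⁻¹) ^ (∑ v, w v))
    (fun o => match o with
      | some a => bal ρ a.1.1 a.1.2
      | none => fun y => (p : ℤ_[p]) ^ d * ρ' y) (fun o _ => ?_) (fun H hH hB => ?_) M
    (fun o _ => ?_)
  · rcases o with _ | a
    · exact measurable_const.mul hρ'
    · exact bal_meas hρ _ _
  · rw [dec2 w d ρ ρ' hρ hsc H hH hB, hS2 ρ hρ H hH hB, Fintype.sum_option, add_comm]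
    congr 1
    exact (Finset.sum_coe_sort S' (fun a => ((p : ℂ)⁻¹) ^ (Fintype.card V * a.2) *
      ∫ z, H (bal ρ a.1 a.2 z) ∂ν)).symm
  · rcases o with _ | a
    · exact L2.Gd_smul ν hρ' (pow_ne_zero _ hp0) h
    · have h1 := hS1 a.1 a.2
      exact hk _ h1.1 _ h1.2

/-- **The distribution near a centre is good.** -/
theorem gd_centre (w : V → ℕ) (hw : 0 < ∑ v, w v) (d : ℕ) (hd : 0 < d)
    (Fl : ℕ → (V → ℤ_[p]) → ℤ_[p]) (G : (V → ℤ_[p]) → ℤ_[p])
    (hFm : ∀ l, Measurable (Fl l)) (hGm : Measurable G)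
    (hF : ∀ l y, Fl l (scl w y) = (p : ℤ_[p]) ^ d * Fl (l + 1) y)
    (hG : ∀ y, G (scl w y) = (p : ℤ_[p]) ^ d * G y) (M : ℂ → ℕ∞)
    (hM : ∀ T : ℂ, T ^ d = (p : ℂ) ^ (∑ v, w v) → M T = ⊤)
    (h1 : ∀ l a, a ∉ As p w → ∃ k0, ∀ k, k0 ≤ k →
      Gd (Measure.pi fun _ : V => mu p) (bal (Fl l) a k) M)
    (h2 : ∀ a, a ∉ As p w → ∃ k0, ∀ k, k0 ≤ k → ∃ l0, ∀ l, l0 ≤ l →
      Sd (bal (Fl l) a k) (bal G a k)) :
    Gd (Measure.pi fun _ : V => mu p) (Fl 0) M := by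
  classical
  choose! kF hkF using h1
  choose! kG hkG using h2
  choose! lG hlG using hkG
  -- all the balls outside of the image of the scaling are good
  have h3 : ∀ l a, a ∉ As p w → ∀ k, ∑ v, w v ≤ k →
      Gd (Measure.pi fun _ : V => mu p) (bal (Fl l) a k) M := by
    intro l a ha k hk
    refine gd_glue _ (bal_meas (hFm l) a k) M (fun y => kF l fun i => a i + (p : ℤ_[p]) ^ k * y i)
      fun y k' hk' => ?_
    rw [bal_bal]
    refine hkF l _ (fun h => ha ?_) _ (hk'.trans (Nat.le_add_left _ _))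
    intro i
    refine (dvd_add_left (Dvd.dvd.mul_right (pow_dvd_pow _ ?_) _)).1 (h i)
    exact (Finset.single_le_sum (f := w) (fun _ _ => Nat.zero_le _) (Finset.mem_univ i)).trans hk
  have h4 : ∀ a, a ∉ As p w → ∀ k, kG a + ∑ v, w v ≤ k →
      Gd (Measure.pi fun _ : V => mu p) (bal G a k) M := by
    intro a ha k hk
    exact (hlG a ha k (by omega) (lG a k) le_rfl).gd (h3 _ a ha k (by omega))
  have h5 : Gd (Measure.pi fun _ : V => mu p) G M :=
    gd_cone w hw d hd G hGm hG M hM (fun a => kG a + ∑ v, w v) h4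
  obtain ⟨S', hS1, hS2⟩ := dec1 w kG
  set l0 : ℕ := S'.sup fun a => lG a.1 a.2 with hl0
  have h6 : Sd (Fl l0) G := by
    refine law_cone w hw d Fl G hFm hGm hF hG l0 fun l hl H hH hB => ?_
    rw [hS2 (Fl l) (hFm l) H hH hB, hS2 G hGm H hH hB]
    refine Finset.sum_congr rfl fun a ha => ?_
    congr 1
    have h7 := hS1 a ha
    refine hlG a.1 h7.1 a.2 h7.2 l (le_trans ?_ hl) H hH hB
    exact Finset.le_sup (f := fun a : (V → ℤ_[p]) × ℕ => lG a.1 a.2) ha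
  have h7 : Gd (Measure.pi fun _ : V => mu p) (Fl l0) M := by
    refine Sd.gd (fun H hH hB => (h6 H hH hB).symm) h5
  -- descend
  have h8 : ∀ n, n ≤ l0 → Gd (Measure.pi fun _ : V => mu p) (Fl (l0 - n)) M := by
    intro n
    induction n with
    | zero => intro _; exact h7
    | succ n ih =>
      intro hn
      have h9 := ih (by omega)
      have e : l0 - n = (l0 - (n + 1)) + 1 := by omega
      rw [e] at h9
      exact gd_step w d _ _ (hFm _) (hFm _) (hF _) M (fun _ => ∑ v, w v)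
        (fun a ha k hk => h3 _ a ha k hk) h9
  have h9 := h8 l0 le_rfl
  rwa [Nat.sub_self] at h9

end Pool.Agent.L0h21.RW
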