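import Pool.Agent.L0h21.RW.P5
import Pool.Agent.L0h21.RW.P6

/-! Equality of the distributions of two close families near a point with normal crossings. -/

set_option autoImplicit false
set_option linter.unusedSectionVars false

namespace Pool.Agent.L0h21.RW

open MvPolynomial MeasureTheory
open Pool.Agent.W427.SMC (msZ bsZ mu)
open Pool.Agent.Y230.PT (msK bsK inc inc_emb rr)
open Pool.Agent.Y230.PS (EP)
open Pool.Agent.N138.SU Pool.Agent.N138.SV Pool.Agent.N138.RF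
open Pool.Agent.L0h21.SN (exists_isom' exists_dir dvd_of_norm_le norm_le_of_dvd eval_lip isom_mp rho
  rho_meas rep dvd_rep)

attribute [local instance] msK bsK msZ bsZ

variable {p : ℕ} [Fact p.Prime]

section law

variable {V T : Type} [Fintype V] [DecidableEq V] [Fintype T] [DecidableEq T]

/-- The formula for the distribution on a small ball. -/
theorem law_of_chart (F : MvPolynomial V ℤ_[p]) (f : T → MvPolynomial V ℤ_[p]) (m : T → ℕ)
    (a : V → ℤ_[p]) (k : ℕ) (c N : ℤ_[p]) (hNd : N ∣ (p : ℤ_[p]) ^ (2 * k))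
    (q : T → V → ℤ_[p])
    (hch : ∀ y : V → ℤ_[p], ∃ ψ : (T → ℤ_[p]) → (T → ℤ_[p]), Isometry ψ ∧ ∀ α : T → ℤ_[p],
      eval (fun v => a v + (p : ℤ_[p]) ^ k * (y v + ∑ s, α s * q s v)) F =
        c * ∏ t, (eval (fun v => a v + (p : ℤ_[p]) ^ k * y v) (f t) + N * ψ α t) ^ m t)
    (H : ℤ_[p] → ℂ) (hH : Measurable H) (hB : ∃ B : ℝ, ∀ z, ‖H z‖ ≤ B) :
    ∫ y, H (bal (fun x => eval x F) a k y) ∂(Measure.pi fun _ : V => mu p) =
      ∑ r : T → ZMod (p ^ (2 * k)), (((Measure.pi fun _ : V => mu p).real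
        ((fun y : V → ℤ_[p] => rho (2 * k) fun t =>
          eval (fun v => a v + (p : ℤ_[p]) ^ k * y v) (f t)) ⁻¹' {r}) : ℝ) : ℂ) *
          ∫ b, H (mdl c N m (rep (2 * k) r) b) ∂(Measure.pi fun _ : T => mu p) := by
  classical
  set ν : Measure (V → ℤ_[p]) := Measure.pi fun _ : V => mu p with hν
  set ν' : Measure (T → ℤ_[p]) := Measure.pi fun _ : T => mu p with hν'
  set Φ : (V → ℤ_[p]) → ℤ_[p] := bal (fun x => eval x F) a k with hΦ
  have hΦc : Continuous Φ := bal_cont (MvPolynomial.continuous_eval _) a k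
  set β : (V → ℤ_[p]) → T → ℤ_[p] := fun y t =>
    eval (fun v => a v + (p : ℤ_[p]) ^ k * y v) (f t) with hβ
  have hβc : Continuous β := continuous_pi fun t =>
    (MvPolynomial.continuous_eval (f t)).comp (continuous_pi fun v =>
      continuous_const.add (continuous_const.mul (continuous_apply v)))
  -- the classes
  set rr' : (V → ℤ_[p]) → T → ZMod (p ^ (2 * k)) := fun y => rho (2 * k) (β y) with hrr
  have hrm : Measurable rr' := (Pool.Agent.L0h21.SN.rho_meas (2 * k)).comp hβc.measurable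
  obtain ⟨B, hB⟩ := hB
  have hφ : Measurable (fun (α : T → ℤ_[p]) (v : V) => ∑ s, α s * q s v) := by
    refine Continuous.measurable (continuous_pi fun v => ?_)
    exact continuous_finsetSum _ fun s _ => (continuous_apply s).mul continuous_const
  have hin : ∀ y, ∫ α : T → ℤ_[p], H (Φ (y + fun v => ∑ s, α s * q s v)) ∂ν' =
      ∑ r : T → ZMod (p ^ (2 * k)), Set.indicator (rr' ⁻¹' {r}) (fun _ =>
        ∫ b, H (mdl c N m (rep (2 * k) r) b) ∂ν') y := by
    intro y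
    obtain ⟨ψ, hψ, hψ2⟩ := hch y
    have h1 : ∀ α : T → ℤ_[p], Φ (y + fun v => ∑ s, α s * q s v) =
        mdl c N m (β y) (ψ α) := fun α => hψ2 α
    simp only [h1]
    have hmp := isom_mp p ψ hψ
    have h2 : ∫ α, H (mdl c N m (β y) (ψ α)) ∂ν' =
        ∫ b, H (mdl c N m (β y) b) ∂ν' := by
      have h3 := integral_map (μ := ν') (φ := ψ) hmp.measurable.aemeasurable
        (f := fun b => H (mdl c N m (β y) b))
        (hH.comp (mdl_meas _ _ _ _)).aestronglyMeasurable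
      rw [hmp.map_eq] at h3
      exact h3.symm
    rw [h2, Finset.sum_eq_single (rr' y)]
    · rw [Set.indicator_of_mem (by simp)]
      refine mdl_congr _ _ _ _ _ (fun t => ?_) H
      exact hNd.trans (dvd_rep (2 * k) (β y) t)
    · intro r _ hr
      rw [Set.indicator_of_notMem]
      intro h
      exact hr (Set.mem_singleton_iff.1 h).symm
    · simp
  refine ((avgC (fun y => H (Φ y)) (hH.comp hΦc.measurable) ⟨B, fun y => hB _⟩ _ hφ).trans
    (integral_congr_ae (Filter.Eventually.of_forall fun y => hin y))).trans ?_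
  rw [integral_finsetSum]
  · refine Finset.sum_congr rfl fun r _ => ?_
    rw [integral_indicator_const _ (hrm (measurableSet_singleton r))]
    rw [Complex.real_smul]
  · intro r _
    exact (integrable_const _).indicator (hrm (measurableSet_singleton r))

end law

/-- Close polynomials have close values. -/
theorem eval_close {V : Type} {f f' : MvPolynomial V ℤ_[p]} {l : ℕ}
    (h : C ((p : ℤ_[p]) ^ l) ∣ f' - f) (a : V → ℤ_[p]) :
    ‖eval a f' - eval a f‖ ≤ ((p : ℝ)⁻¹) ^ l := by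
  obtain ⟨r, hr⟩ := h
  rw [← map_sub, hr, map_mul, eval_C, norm_mul, norm_pk]
  exact mul_le_of_le_one_right (by have := inv_pos' (p := p); positivity) (PadicInt.norm_le_one _)

theorem pderiv_close {V : Type} {f f' : MvPolynomial V ℤ_[p]} {l : ℕ}
    (h : C ((p : ℤ_[p]) ^ l) ∣ f' - f) (v : V) :
    C ((p : ℤ_[p]) ^ l) ∣ pderiv v f' - pderiv v f := by
  obtain ⟨r, hr⟩ := h
  refine ⟨pderiv v r, ?_⟩
  rw [← map_sub, hr, pderiv_C_mul]

theorem det_close {T : Type} [Fintype T] [DecidableEq T] (d : ℤ_[p])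
    (A A' : Matrix T T ℤ_[p]) (h : ∀ s t, d ∣ A' s t - A s t) : d ∣ A'.det - A.det := by
  have h1 : ∀ x y : ℤ_[p], d ∣ x - y ↔ Ideal.Quotient.mk (Ideal.span {d}) x =
      Ideal.Quotient.mk (Ideal.span {d}) y := fun x y => by
    rw [Ideal.Quotient.eq, Ideal.mem_span_singleton]
  rw [h1, RingHom.map_det, RingHom.map_det]
  congr 1
  ext s t
  exact (h1 _ _).1 (h s t)

theorem dlt_close {V T : Type} [Fintype T] [DecidableEq T]
    (f f' : T → MvPolynomial V ℤ_[p]) (l : ℕ) (h : ∀ t, C ((p : ℤ_[p]) ^ l) ∣ f' t - f t)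
    (u : T → V) (a : V → ℤ_[p]) : ‖dlt f' u a - dlt f u a‖ ≤ ((p : ℝ)⁻¹) ^ l := by
  have h1 : (p : ℤ_[p]) ^ l ∣ dlt f' u a - dlt f u a := by
    refine det_close _ _ _ fun s t => ?_
    simp only [Matrix.of_apply]
    refine dvd_of_norm_le p _ _ ?_
    rw [norm_pk]
    exact eval_close (pderiv_close (h t) _) a
  have h2 := norm_le_of_dvd p _ _ h1
  rwa [norm_pk] at h2

theorem dlt_lip {V T : Type} [Fintype V] [Fintype T] [DecidableEq T]
    (f : T → MvPolynomial V ℤ_[p]) (u : T → V) (a b : V → ℤ_[p]) (r : ℝ) (hr : 0 ≤ r)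
    (h : ∀ i, ‖a i - b i‖ ≤ r) : ‖dlt f u a - dlt f u b‖ ≤ r := by
  have h1 : dlt f u a - dlt f u b =
      eval a (Matrix.of fun s t : T => pderiv (u s) (f t)).det -
        eval b (Matrix.of fun s t : T => pderiv (u s) (f t)).det := by
    rw [RingHom.map_det, RingHom.map_det]
    rfl
  rw [h1]
  exact eval_lip_norm _ _ _ _ hr h

theorem pderiv_prod {R V T : Type} [CommRing R] [DecidableEq T] (v : V)
    (g : T → MvPolynomial V R) (s : Finset T) :
    pderiv v (∏ t ∈ s, g t) = ∑ t ∈ s, (∏ j ∈ s.erase t, g j) * pderiv v (g t) := by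
  induction s using Finset.induction_on with
  | empty => simp
  | insert a s ha ih =>
    rw [Finset.prod_insert ha, Derivation.leibniz, ih, Finset.sum_insert ha, smul_eq_mul,
      smul_eq_mul, Finset.erase_insert ha, Finset.mul_sum, add_comm]
    congr 1
    refine Finset.sum_congr rfl fun t ht => ?_
    have hta : t ≠ a := fun h => ha (h ▸ ht)
    rw [Finset.erase_insert_of_ne hta.symm, Finset.prod_insert (fun h =>
      ha (Finset.mem_of_mem_erase h)), mul_assoc]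

section local_

variable {V T : Type} [Fintype V] [DecidableEq V] [Fintype T] [DecidableEq T]

/-- **Equality of the distributions.** -/
theorem law_eq [Nonempty T] (f : T → MvPolynomial V ℤ_[p]) (κ : MvPolynomial V ℤ_[p]) (m : T → ℕ)
    (hm : ∀ t, 1 ≤ m t) (P : V → ℤ_[p]) (hf : ∀ t, eval P (f t) = 0) (hκ : eval P κ ≠ 0)
    (u : T → V) (hu : dlt f u P ≠ 0) :
    ∃ k0 : ℕ, ∀ (a : V → ℤ_[p]) (k : ℕ), k0 ≤ k → (∀ i, ‖a i - P i‖ ≤ ((p : ℝ)⁻¹) ^ k0) →
      ∀ (f' : T → MvPolynomial V ℤ_[p]) (κ' : MvPolynomial V ℤ_[p]),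
        (∀ t, C ((p : ℤ_[p]) ^ (2 * k)) ∣ f' t - f t) → C ((p : ℤ_[p]) ^ (2 * k)) ∣ κ' - κ →
        Sd (bal (fun x => eval x (κ' * ∏ t, f' t ^ m t)) a k)
          (bal (fun x => eval x (κ * ∏ t, f t ^ m t)) a k) := by
  classical
  have hε0 : (0 : ℝ) < (p : ℝ)⁻¹ := inv_pos'
  have hε1 : (p : ℝ)⁻¹ < 1 := inv_lt_one_of_one_lt₀ (by
    exact_mod_cast (Fact.out : p.Prime).one_lt)
  have hp0 : (p : ℤ_[p]) ≠ 0 := by exact_mod_cast (Fact.out : p.Prime).ne_zero
  have hle1 : ∀ z : ℤ_[p], ‖z‖ ≤ 1 := PadicInt.norm_le_one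
  obtain ⟨t0⟩ := ‹Nonempty T›
  obtain ⟨η, hη0, hη, hcore⟩ := chart_core (p := p) (m t0) (hm t0)
  have nδ : 0 < ‖dlt f u P‖ := norm_pos_iff.2 hu
  have nκ : 0 < ‖eval P κ‖ := norm_pos_iff.2 hκ
  obtain ⟨k0, hk0⟩ := exists_pow_lt_of_lt_one (show 0 < ‖dlt f u P‖ * ‖eval P κ‖ * η
    by positivity) hε1
  have hη1 : η ≤ 1 := hη.trans (hle1 _)
  refine ⟨k0, fun a k hk ha f' κ' hf' hκ' => ?_⟩
  have hkk : ((p : ℝ)⁻¹) ^ k ≤ ((p : ℝ)⁻¹) ^ k0 := pow_le_pow_of_le_one hε0.le hε1.le hk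
  have hk2 : ((p : ℝ)⁻¹) ^ (2 * k) ≤ ((p : ℝ)⁻¹) ^ k :=
    pow_le_pow_of_le_one hε0.le hε1.le (by omega)
  have hk00 : 0 < ((p : ℝ)⁻¹) ^ k0 := by positivity
  have hkδ : ((p : ℝ)⁻¹) ^ k0 < ‖dlt f u P‖ := by
    refine hk0.trans_le ?_
    calc ‖dlt f u P‖ * ‖eval P κ‖ * η ≤ ‖dlt f u P‖ * 1 * 1 := by
          gcongr
          exact hle1 _
      _ = ‖dlt f u P‖ := by ring
  have hkκ : ((p : ℝ)⁻¹) ^ k0 < ‖eval P κ‖ := by
    refine hk0.trans_le ?_
    calc ‖dlt f u P‖ * ‖eval P κ‖ * η ≤ 1 * ‖eval P κ‖ * 1 := by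
          gcongr
          exact hle1 _
      _ = ‖eval P κ‖ := by ring
  have hδa : ‖dlt f u a‖ = ‖dlt f u P‖ :=
    Pool.Agent.W427.SMC.norm_eq_of_sub_lt p _ _ ((dlt_lip f u a P _ hk00.le ha).trans_lt hkδ)
  have hδa' : ‖dlt f' u a‖ = ‖dlt f u a‖ := by
    refine Pool.Agent.W427.SMC.norm_eq_of_sub_lt p _ _ ((dlt_close f f' _ hf' u a).trans_lt ?_)
    rw [hδa]
    exact (hk2.trans hkk).trans_lt hkδ
  have hκa : ‖eval a κ‖ = ‖eval P κ‖ :=
    Pool.Agent.W427.SMC.norm_eq_of_sub_lt p _ _ ((eval_lip_norm _ _ _ _ hk00.le ha).trans_lt hkκ)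
  set N : ℤ_[p] := (p : ℤ_[p]) ^ k * dlt f u a with hN
  have hNn : ‖N‖ = ((p : ℝ)⁻¹) ^ k * ‖dlt f u a‖ := by rw [hN, norm_mul, norm_pk]
  have hδk : ((p : ℝ)⁻¹) ^ k < ‖dlt f u a‖ := by
    rw [hδa]
    exact hkk.trans_lt hkδ
  have hNd : N ∣ (p : ℤ_[p]) ^ (2 * k) := by
    rw [hN, two_mul, pow_add]
    exact mul_dvd_mul_left _ (dvd_of_norm_le p _ _ (by rw [norm_pk]; exact hδk.le))
  have hfa : ∀ x : V → ℤ_[p], (∀ i, ‖x i - a i‖ ≤ ((p : ℝ)⁻¹) ^ k) → ∀ t,
      ‖eval x (f t)‖ ≤ ((p : ℝ)⁻¹) ^ k0 := by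
    intro x hx t
    have h1 : eval x (f t) = eval x (f t) - eval P (f t) := by rw [hf, sub_zero]
    rw [h1]
    refine eval_lip_norm _ _ _ _ hk00.le fun i => ?_
    have e : x i - P i = (x i - a i) + (a i - P i) := by ring
    rw [e]
    exact (PadicInt.nonarchimedean _ _).trans (max_le ((hx i).trans hkk) (ha i))
  have hfa' : ∀ x : V → ℤ_[p], (∀ i, ‖x i - a i‖ ≤ ((p : ℝ)⁻¹) ^ k) → ∀ t,
      ‖eval x (f' t)‖ ≤ ((p : ℝ)⁻¹) ^ k0 := by
    intro x hx t
    have e : eval x (f' t) = (eval x (f' t) - eval x (f t)) + eval x (f t) := by ring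
    rw [e]
    exact (PadicInt.nonarchimedean _ _).trans (max_le
      ((eval_close (hf' t) x).trans (hk2.trans hkk)) (hfa x hx t))
  obtain ⟨q, hq⟩ := hcore f κ m t0 rfl u a k0 k hk (eval a κ) N (by rw [hδa, hκa]; exact hk0)
    (by rw [sub_self, norm_zero]; positivity) hNn hfa
  obtain ⟨q', hq'⟩ := hcore f' κ' m t0 rfl u a k0 k hk (eval a κ) N
    (by rw [hδa', hδa, hκa]; exact hk0) ((eval_close hκ' a).trans hk2)
    (by rw [hδa']; exact hNn) hfa'
  intro H hH hB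
  rw [law_of_chart (κ * ∏ t, f t ^ m t) f m a k _ N hNd q hq H hH hB,
    law_of_chart (κ' * ∏ t, f' t ^ m t) f' m a k _ N hNd q' hq' H hH hB]
  refine Finset.sum_congr rfl fun r _ => ?_
  congr 5
  funext y
  unfold rho
  funext t
  beta_reduce
  obtain ⟨r', hr'⟩ := hf' t
  have h1 : (p : ℤ_[p]) ^ (2 * k) ∣ eval (fun v => a v + (p : ℤ_[p]) ^ k * y v) (f' t) -
      eval (fun v => a v + (p : ℤ_[p]) ^ k * y v) (f t) := by
    rw [← map_sub, hr', map_mul, eval_C]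
    exact dvd_mul_right _ _
  have h2 : eval (fun v => a v + (p : ℤ_[p]) ^ k * y v) (f' t) -
      eval (fun v => a v + (p : ℤ_[p]) ^ k * y v) (f t) ∈
      RingHom.ker (PadicInt.toZModPow (p := p) (2 * k)) := by
    rw [PadicInt.ker_toZModPow, Ideal.mem_span_singleton]
    exact h1
  rw [RingHom.mem_ker, map_sub, sub_eq_zero] at h2
  exact h2

/-- Near a point with normal crossings there are no critical points outside of the divisor. -/
theorem ncr (f : T → MvPolynomial V ℤ_[p]) (κ : MvPolynomial V ℤ_[p]) (m : T → ℕ)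
    (t0 : T) (hm : 1 ≤ m t0) (P : V → ℤ_[p]) (hf : ∀ t, eval P (f t) = 0) (hκ : eval P κ ≠ 0)
    (u : T → V) (hu : dlt f u P ≠ 0) :
    ∃ k0 : ℕ, ∀ a : V → ℤ_[p], (∀ i, ‖a i - P i‖ ≤ ((p : ℝ)⁻¹) ^ k0) →
      ∀ (f' : T → MvPolynomial V ℤ_[p]) (κ' : MvPolynomial V ℤ_[p]),
        (∀ t, C ((p : ℤ_[p]) ^ k0) ∣ f' t - f t) → C ((p : ℤ_[p]) ^ k0) ∣ κ' - κ →
        eval a (κ' * ∏ t, f' t ^ m t) ≠ 0 →
        ∃ v, eval a (pderiv v (κ' * ∏ t, f' t ^ m t)) ≠ 0 := by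
  classical
  have hε0 : (0 : ℝ) < (p : ℝ)⁻¹ := inv_pos'
  have hε1 : (p : ℝ)⁻¹ < 1 := inv_lt_one_of_one_lt₀ (by
    exact_mod_cast (Fact.out : p.Prime).one_lt)
  have hle1 : ∀ z : ℤ_[p], ‖z‖ ≤ 1 := PadicInt.norm_le_one
  have nδ : 0 < ‖dlt f u P‖ := norm_pos_iff.2 hu
  have nκ : 0 < ‖eval P κ‖ := norm_pos_iff.2 hκ
  have nμ : 0 < ‖(m t0 : ℤ_[p])‖ := by
    rw [norm_pos_iff]
    exact_mod_cast (by omega : m t0 ≠ 0)
  obtain ⟨k0, hk0⟩ := exists_pow_lt_of_lt_one (show 0 < ‖dlt f u P‖ * ‖eval P κ‖ *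
    ‖(m t0 : ℤ_[p])‖ by positivity) hε1
  refine ⟨k0, fun a ha f' κ' hf' hκ' hne => ?_⟩
  have hk00 : 0 < ((p : ℝ)⁻¹) ^ k0 := by positivity
  have hkδ : ((p : ℝ)⁻¹) ^ k0 < ‖dlt f u P‖ := by
    refine hk0.trans_le ?_
    calc ‖dlt f u P‖ * ‖eval P κ‖ * ‖(m t0 : ℤ_[p])‖ ≤ ‖dlt f u P‖ * 1 * 1 := by
          gcongr
          · exact hle1 _
          · exact hle1 _
      _ = ‖dlt f u P‖ := by ring
  have hkκ : ((p : ℝ)⁻¹) ^ k0 < ‖eval P κ‖ := by
    refine hk0.trans_le ?_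
    calc ‖dlt f u P‖ * ‖eval P κ‖ * ‖(m t0 : ℤ_[p])‖ ≤ 1 * ‖eval P κ‖ * 1 := by
          gcongr
          · exact hle1 _
          · exact hle1 _
      _ = ‖eval P κ‖ := by ring
  have hδa : ‖dlt f u a‖ = ‖dlt f u P‖ :=
    Pool.Agent.W427.SMC.norm_eq_of_sub_lt p _ _ ((dlt_lip f u a P _ hk00.le ha).trans_lt hkδ)
  have hδa' : ‖dlt f' u a‖ = ‖dlt f u P‖ := by
    rw [← hδa]
    refine Pool.Agent.W427.SMC.norm_eq_of_sub_lt p _ _ ((dlt_close f f' _ hf' u a).trans_lt ?_)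
    rw [hδa]
    exact hkδ
  have hκa : ‖eval a κ‖ = ‖eval P κ‖ :=
    Pool.Agent.W427.SMC.norm_eq_of_sub_lt p _ _ ((eval_lip_norm _ _ _ _ hk00.le ha).trans_lt hkκ)
  have hκa' : ‖eval a κ'‖ = ‖eval P κ‖ := by
    rw [← hκa]
    refine Pool.Agent.W427.SMC.norm_eq_of_sub_lt p _ _ ((eval_close hκ' a).trans_lt ?_)
    rw [hκa]
    exact hkκ
  have hfa' : ‖eval a (f' t0)‖ ≤ ((p : ℝ)⁻¹) ^ k0 := by
    have e : eval a (f' t0) = (eval a (f' t0) - eval a (f t0)) +
        (eval a (f t0) - eval P (f t0)) := by rw [hf]; ring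
    rw [e]
    exact (PadicInt.nonarchimedean _ _).trans (max_le (eval_close (hf' t0) a)
      (eval_lip_norm _ _ _ _ hk00.le ha))
  by_contra hcon
  push Not at hcon
  -- the product and its derivatives
  have hQ0 : ∏ t, eval a (f' t) ^ m t ≠ 0 := by
    intro h
    apply hne
    rw [map_mul, map_prod]
    simp only [map_pow]
    rw [h, mul_zero]
  set Q0 : ℤ_[p] := ∏ t, eval a (f' t) ^ m t with hPi
  set Qt : T → ℤ_[p] := fun t => (m t : ℤ_[p]) * eval a (f' t) ^ (m t - 1) *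
    ∏ s ∈ Finset.univ.erase t, eval a (f' s) ^ m s with hPt
  have hd : ∀ v, eval a (pderiv v (κ' * ∏ t, f' t ^ m t)) =
      eval a (pderiv v κ') * Q0 + eval a κ' * ∑ t, Qt t * eval a (pderiv v (f' t)) := by
    intro v
    rw [Derivation.leibniz, smul_eq_mul, smul_eq_mul, map_add, map_mul, map_mul]
    have h1 : eval a (pderiv v (∏ t, f' t ^ m t)) = ∑ t, Qt t * eval a (pderiv v (f' t)) := by
      rw [pderiv_prod, map_sum]
      refine Finset.sum_congr rfl fun t _ => ?_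
      rw [map_mul, map_prod, Derivation.leibniz_pow, smul_eq_mul, nsmul_eq_mul]
      simp only [map_pow, map_mul, map_natCast, hPt]
      ring
    have h2 : eval a (∏ t, f' t ^ m t) = Q0 := by
      rw [map_prod]
      simp only [map_pow, hPi]
    rw [h1, h2]
    ring
  have hft : eval a (f' t0) * Qt t0 = (m t0 : ℤ_[p]) * Q0 := by
    have h1 : Q0 = eval a (f' t0) ^ m t0 * ∏ s ∈ Finset.univ.erase t0, eval a (f' s) ^ m s :=
      (Finset.mul_prod_erase Finset.univ _ (Finset.mem_univ t0)).symm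
    have h2 : eval a (f' t0) ^ m t0 = eval a (f' t0) * eval a (f' t0) ^ (m t0 - 1) := by
      rw [← pow_succ', Nat.sub_add_cancel hm]
    rw [h1, h2, hPt]
    ring
  set A : Matrix T T ℤ_[p] := Matrix.of fun s t : T => eval a (pderiv (u s) (f' t)) with hA
  set g : T → ℤ_[p] := fun s => eval a (pderiv (u s) κ') with hg
  have h1 : A.mulVec (fun t => eval a κ' * Qt t) = fun s => -(g s * Q0) := by
    funext s
    have h2 := hcon (u s)
    rw [hd] at h2
    rw [Matrix.mulVec, dotProduct]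
    have h3 : ∑ t, A s t * (eval a κ' * Qt t) =
        eval a κ' * ∑ t, Qt t * eval a (pderiv (u s) (f' t)) := by
      rw [Finset.mul_sum]
      refine Finset.sum_congr rfl fun t _ => ?_
      rw [hA]
      simp only [Matrix.of_apply]
      ring
    rw [h3]
    linear_combination h2
  have h2 : ∀ t, A.det * (eval a κ' * Qt t) = A.adjugate.mulVec (fun s => -(g s * Q0)) t := by
    intro t
    rw [← h1, Matrix.mulVec_mulVec, Matrix.adjugate_mul, Matrix.smul_mulVec, Matrix.one_mulVec]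
    rfl
  have h3 : A.adjugate.mulVec (fun s => -(g s * Q0)) t0 =
      -(A.adjugate.mulVec g t0) * Q0 := by
    rw [Matrix.mulVec, dotProduct, Matrix.mulVec, dotProduct, ← Finset.sum_neg_distrib,
      Finset.sum_mul]
    refine Finset.sum_congr rfl fun s _ => ?_
    ring
  have h4 : dlt f' u a * eval a κ' * (m t0 : ℤ_[p]) =
      -(A.adjugate.mulVec g t0) * eval a (f' t0) := by
    have h5 := h2 t0
    rw [h3] at h5
    have h6 : A.det = dlt f' u a := rfl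
    rw [h6] at h5
    apply mul_right_cancel₀ hQ0
    calc dlt f' u a * eval a κ' * (m t0 : ℤ_[p]) * Q0
        = dlt f' u a * eval a κ' * ((m t0 : ℤ_[p]) * Q0) := by ring
      _ = dlt f' u a * eval a κ' * (eval a (f' t0) * Qt t0) := by rw [hft]
      _ = (dlt f' u a * (eval a κ' * Qt t0)) * eval a (f' t0) := by ring
      _ = (-(A.adjugate.mulVec g t0) * Q0) * eval a (f' t0) := by rw [h5]
      _ = _ := by ring
  have h5 := congrArg norm h4
  rw [norm_mul, norm_mul, norm_mul, hδa', hκa'] at h5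
  have h6 : ‖-(A.adjugate.mulVec g t0)‖ * ‖eval a (f' t0)‖ ≤ 1 * ((p : ℝ)⁻¹) ^ k0 :=
    mul_le_mul (hle1 _) hfa' (norm_nonneg _) zero_le_one
  rw [← h5, one_mul] at h6
  linarith

end local_

end Pool.Agent.L0h21.RW
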