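import Pool.Agent.L0h21.RW.P7
import Pool.Agent.L0h21.SN.PadR8

/-! Local goodness of the distributions: points with normal crossings. -/

set_option autoImplicit false
set_option linter.unusedSectionVars false

namespace Pool.Agent.L0h21.RW

open MvPolynomial MeasureTheory
open Pool.Agent.W427.SMC (msZ bsZ mu)
open Pool.Agent.Y230.PT (msK bsK inc inc_emb rr)
open Pool.Agent.Y230.PS (EP)
open Pool.Agent.N138.SU Pool.Agent.N138.SV Pool.Agent.N138.RF
open Pool.Agent.L0h21.SN (As scl dvd_of_norm_le norm_le_of_dvd eval_lip NCat minor eval_minor'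
  scaleP eval_scaleP pderiv_scaleP scaleP_low Sml Prim LowC OrdGE)

attribute [local instance] msK bsK msZ bsZ

variable {p : ℕ} [Fact p.Prime] {V J : Type} [Fintype V] [DecidableEq V] [Fintype J]
  [DecidableEq J]

/-- The product of a family. -/
noncomputable def Fam (f : J → MvPolynomial V ℤ_[p]) (m : J → ℕ) (c : ℤ_[p]) :
    MvPolynomial V ℤ_[p] := C c * ∏ j, f j ^ m j

/-- Normal crossings, and no critical points outside of the divisor. -/
def NR (f : J → MvPolynomial V ℤ_[p]) (m : J → ℕ) (c : ℤ_[p]) (x : V → ℤ_[p]) : Prop :=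
  NCat f x ∧ (eval x (Fam f m c) ≠ 0 → ∃ v, eval x (pderiv v (Fam f m c)) ≠ 0)

/-- The conditions on the multiplicities. -/
def MCat (f : J → MvPolynomial V ℤ_[p]) (m : J → ℕ) (M : ℂ → ℕ∞) (x : V → ℤ_[p]) : Prop :=
  (∀ j, eval x (f j) = 0 → 2 ≤ m j → ∀ z : ℂ, z ^ m j = (p : ℂ) → M z = ⊤) ∧
  ∀ i j, i ≠ j → eval x (f i) = 0 → eval x (f j) = 0 → M (p : ℂ) = ⊤

/-- Balls without critical points. -/
theorem gd_reg (F : MvPolynomial V ℤ_[p]) (P : V → ℤ_[p]) (v : V)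
    (hv : eval P (pderiv v F) ≠ 0) : ∃ k0 : ℕ, ∀ (a : V → ℤ_[p]) (k : ℕ), k0 ≤ k →
      (∀ i, ‖a i - P i‖ ≤ ((p : ℝ)⁻¹) ^ k0) → ∀ (l : ℤ_[p]) (M : ℂ → ℕ∞),
      Gd (Measure.pi fun _ : V => mu p) (fun y => bal (fun x => eval x F) a k y - l) M := by
  have hε0 : (0 : ℝ) < (p : ℝ)⁻¹ := inv_pos'
  have hε1 : (p : ℝ)⁻¹ < 1 := inv_lt_one_of_one_lt₀ (by
    exact_mod_cast (Fact.out : p.Prime).one_lt)
  obtain ⟨k0, hk0⟩ := exists_pow_lt_of_lt_one (norm_pos_iff.2 hv) hε1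
  refine ⟨k0, fun a k hk ha l M => ?_⟩
  have hpk : (p : ℚ_[p]) ^ k ≠ 0 :=
    pow_ne_zero _ (by exact_mod_cast (Fact.out : p.Prime).ne_zero)
  refine (S.t p (G5.sub ((p : ℚ_[p]) ^ k) (fun i => inc p (a i))
    (map (PadicInt.Coe.ringHom (p := p)) F)) (bal (fun x => eval x F) a k) ?_ ?_ l).mono
    fun T _ => bot_le
  · intro x
    rw [G5.eval_sub]
    unfold bal
    rw [G5.inc_eval]
    congr 2
  · intro x
    refine ⟨v, fun h => ?_⟩
    rw [G5.pderiv_sub, map_mul, eval_C, G5.eval_sub] at h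
    have h1 := (mul_eq_zero.1 h).resolve_left hpk
    have h2 : inc p (eval (fun i => a i + (p : ℤ_[p]) ^ k * x i) (pderiv v F)) = 0 := by
      rw [G5.inc_eval, ← pderiv_map]
      exact h1
    have h3 : eval (fun i => a i + (p : ℤ_[p]) ^ k * x i) (pderiv v F) = 0 :=
      (inc_emb p).injective (h2.trans (map_zero (PadicInt.Coe.ringHom (p := p))).symm)
    have h4 : ‖eval (fun i => a i + (p : ℤ_[p]) ^ k * x i) (pderiv v F) -
        eval P (pderiv v F)‖ ≤ ((p : ℝ)⁻¹) ^ k0 := by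
      refine eval_lip_norm _ _ _ _ (by positivity) fun i => ?_
      have e : a i + (p : ℤ_[p]) ^ k * x i - P i = (a i - P i) + (p : ℤ_[p]) ^ k * x i := by ring
      rw [e]
      refine (PadicInt.nonarchimedean _ _).trans (max_le (ha i) ?_)
      rw [norm_mul, norm_pk]
      exact (mul_le_of_le_one_right (by positivity) (PadicInt.norm_le_one _)).trans
        (pow_le_pow_of_le_one hε0.le hε1.le hk)
    rw [h3, zero_sub, norm_neg] at h4
    exact absurd hk0 (not_lt.2 h4)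

/-- The splitting of the product. -/
theorem split_prod {R : Type} [CommMonoid R] (g : J → R) (I : Finset J) :
    ∏ j, g j = (∏ j ∈ Iᶜ, g j) * ∏ t : I, g t.1 := by
  rw [← Finset.prod_compl_mul_prod I, Finset.prod_coe_sort]

theorem mod_iff (d : MvPolynomial V ℤ_[p]) (x y : MvPolynomial V ℤ_[p]) :
    d ∣ x - y ↔ Ideal.Quotient.mk (Ideal.span {d}) x = Ideal.Quotient.mk (Ideal.span {d}) y := by
  rw [Ideal.Quotient.eq, Ideal.mem_span_singleton]

theorem prod_close (f f' : J → MvPolynomial V ℤ_[p]) (m : J → ℕ) (c : ℤ_[p]) (S : Finset J)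
    (d : MvPolynomial V ℤ_[p]) (h : ∀ j, d ∣ f' j - f j) :
    d ∣ C c * ∏ j ∈ S, f' j ^ m j - C c * ∏ j ∈ S, f j ^ m j := by
  rw [mod_iff, map_mul, map_mul, map_prod, map_prod]
  congr 1
  refine Finset.prod_congr rfl fun j _ => ?_
  rw [map_pow, map_pow, (mod_iff d _ _).1 (h j)]

theorem fam_split (f : J → MvPolynomial V ℤ_[p]) (m : J → ℕ) (c : ℤ_[p]) (I : Finset J) :
    Fam f m c = (C c * ∏ j ∈ Iᶜ, f j ^ m j) * ∏ t : I, f t.1 ^ m t.1 := by
  rw [Fam, split_prod _ I, mul_assoc]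

/-- Points with normal crossings. -/
theorem loc_good (f : J → MvPolynomial V ℤ_[p]) (m : J → ℕ) (hm : ∀ j, 1 ≤ m j) (c : ℤ_[p])
    (hc : c ≠ 0) (x : V → ℤ_[p]) (hx : NR f m c x) (M : ℂ → ℕ∞) (h0 : ∀ z : ℂ, ‖z‖ ≤ 1 → M z = 0)
    (h01 : ∀ z, M z = 0 ∨ M z = ⊤) (hM : MCat f m M x) :
    ∃ k0 : ℕ, ∀ (a : V → ℤ_[p]) (k : ℕ), k0 ≤ k → (∀ i, ‖a i - x i‖ ≤ ((p : ℝ)⁻¹) ^ k0) →
      Gd (Measure.pi fun _ : V => mu p) (bal (fun x => eval x (Fam f m c)) a k) M := by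
  classical
  set I : Finset J := Finset.univ.filter fun j => eval x (f j) = 0 with hI
  have hI0 : ∀ j, j ∈ I ↔ eval x (f j) = 0 := fun j => by simp [hI]
  by_cases hF : eval x (Fam f m c) = 0
  · have hne : Nonempty I := by
      rw [Fam, map_mul, eval_C, map_prod] at hF
      obtain ⟨j, -, hj⟩ := Finset.prod_eq_zero_iff.1 ((mul_eq_zero.1 hF).resolve_left hc)
      rw [map_pow] at hj
      exact ⟨⟨j, (hI0 j).2 (eq_zero_of_pow_eq_zero hj)⟩⟩
    obtain ⟨u, hu⟩ := hx.1 I fun j hj => (hI0 j).1 hj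
    rw [eval_minor'] at hu
    obtain ⟨k0, hk0⟩ := gd_nc (fun t : I => f t.1) (C c * ∏ j ∈ Iᶜ, f j ^ m j)
      (fun t : I => m t.1) (fun t => hm _) x (fun t => (hI0 _).1 t.2) (by
        rw [map_mul, eval_C, map_prod]
        refine mul_ne_zero hc (Finset.prod_ne_zero_iff.2 fun j hj => ?_)
        rw [map_pow]
        exact pow_ne_zero _ fun h => (Finset.mem_compl.1 hj) ((hI0 j).2 h)) u hu M h0 h01
      (fun h2 => by
        obtain ⟨s, t, hst⟩ := Fintype.one_lt_card_iff.1 h2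
        exact hM.2 s.1 t.1 (fun h => hst (Subtype.ext h)) ((hI0 _).1 s.2) ((hI0 _).1 t.2))
      (fun t ht z hz => hM.1 t.1 ((hI0 _).1 t.2) ht z hz)
    refine ⟨k0, fun a k hk ha => ?_⟩
    rw [fam_split f m c I]
    exact hk0 a k hk ha
  · obtain ⟨v, hv⟩ := hx.2 hF
    obtain ⟨k0, hk0⟩ := gd_reg _ x v hv
    refine ⟨k0, fun a k hk ha => ?_⟩
    have h1 := hk0 a k hk ha 0 M
    simpa only [sub_zero] using h1

/-- Equality of distributions near such points. -/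
theorem loc_law (f : J → MvPolynomial V ℤ_[p]) (m : J → ℕ) (hm : ∀ j, 1 ≤ m j) (c : ℤ_[p])
    (hc : c ≠ 0) (x : V → ℤ_[p]) (hx : NR f m c x) :
    ∃ k0 : ℕ, ∀ (a : V → ℤ_[p]) (k : ℕ), k0 ≤ k → (∀ i, ‖a i - x i‖ ≤ ((p : ℝ)⁻¹) ^ k0) →
      ∀ f' : J → MvPolynomial V ℤ_[p], (∀ j, C ((p : ℤ_[p]) ^ (2 * k)) ∣ f' j - f j) →
        Sd (bal (fun x => eval x (Fam f' m c)) a k) (bal (fun x => eval x (Fam f m c)) a k) := by
  classical
  set I : Finset J := Finset.univ.filter fun j => eval x (f j) = 0 with hI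
  have hI0 : ∀ j, j ∈ I ↔ eval x (f j) = 0 := fun j => by simp [hI]
  by_cases hF : eval x (Fam f m c) = 0
  · have hne : Nonempty I := by
      rw [Fam, map_mul, eval_C, map_prod] at hF
      obtain ⟨j, -, hj⟩ := Finset.prod_eq_zero_iff.1 ((mul_eq_zero.1 hF).resolve_left hc)
      rw [map_pow] at hj
      exact ⟨⟨j, (hI0 j).2 (eq_zero_of_pow_eq_zero hj)⟩⟩
    obtain ⟨u, hu⟩ := hx.1 I fun j hj => (hI0 j).1 hj
    rw [eval_minor'] at hu
    obtain ⟨k0, hk0⟩ := law_eq (fun t : I => f t.1) (C c * ∏ j ∈ Iᶜ, f j ^ m j)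
      (fun t : I => m t.1) (fun t => hm _) x (fun t => (hI0 _).1 t.2) (by
        rw [map_mul, eval_C, map_prod]
        refine mul_ne_zero hc (Finset.prod_ne_zero_iff.2 fun j hj => ?_)
        rw [map_pow]
        exact pow_ne_zero _ fun h => (Finset.mem_compl.1 hj) ((hI0 j).2 h)) u hu
    refine ⟨k0, fun a k hk ha f' hf' => ?_⟩
    rw [fam_split f m c I, fam_split f' m c I]
    exact hk0 a k hk ha (fun t => f' t.1) _ (fun t => hf' _) (prod_close _ _ _ _ _ _ hf')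
  · obtain ⟨v, hv⟩ := hx.2 hF
    set F := Fam f m c with hFd
    obtain ⟨k0, hk0⟩ := law_eq (T := Unit) (fun _ => F - C (eval x F)) (1 : MvPolynomial V ℤ_[p])
      (fun _ => 1) (fun _ => le_rfl) x (fun _ => by rw [map_sub, eval_C, sub_self])
      (by rw [map_one]; exact one_ne_zero) (fun _ => v) (by
        rw [dlt, Matrix.det_unique]
        simp only [Matrix.of_apply, map_sub, pderiv_C, sub_zero]
        exact hv)
    refine ⟨k0, fun a k hk ha f' hf' => ?_⟩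
    have h1 := hk0 a k hk ha (fun _ => Fam f' m c - C (eval x F)) 1 (fun _ => by
      rw [sub_sub_sub_cancel_right]
      exact prod_close _ _ _ _ _ _ hf') (by rw [sub_self]; exact dvd_zero _)
    intro H hH hB
    obtain ⟨B, hB⟩ := hB
    have h2 := h1 (fun z => H (z + eval x F)) (hH.comp (measurable_id.add_const _))
      ⟨B, fun z => hB _⟩
    have h3 : ∀ (G : MvPolynomial V ℤ_[p]) y, bal (fun x' => eval x' (1 *
        ∏ _t : Unit, (G - C (eval x F)) ^ 1)) a k y + eval x F =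
        bal (fun x => eval x G) a k y := by
      intro G y
      unfold bal
      simp
    simp only [h3] at h2
    exact h2

/-- Stability of the condition `NR`. -/
theorem nr_stable (f : J → MvPolynomial V ℤ_[p]) (m : J → ℕ) (hm : ∀ j, 1 ≤ m j) (c : ℤ_[p])
    (hc : c ≠ 0) (x : V → ℤ_[p]) (hx : NR f m c x) :
    ∃ k0 : ℕ, ∀ a : V → ℤ_[p], (∀ i, ‖a i - x i‖ ≤ ((p : ℝ)⁻¹) ^ k0) →
      ∀ f' : J → MvPolynomial V ℤ_[p], (∀ j, C ((p : ℤ_[p]) ^ k0) ∣ f' j - f j) →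
        eval a (Fam f' m c) ≠ 0 → ∃ v, eval a (pderiv v (Fam f' m c)) ≠ 0 := by
  classical
  have hε0 : (0 : ℝ) < (p : ℝ)⁻¹ := inv_pos'
  have hε1 : (p : ℝ)⁻¹ < 1 := inv_lt_one_of_one_lt₀ (by
    exact_mod_cast (Fact.out : p.Prime).one_lt)
  set I : Finset J := Finset.univ.filter fun j => eval x (f j) = 0 with hI
  have hI0 : ∀ j, j ∈ I ↔ eval x (f j) = 0 := fun j => by simp [hI]
  by_cases hF : eval x (Fam f m c) = 0
  · obtain ⟨t0⟩ : Nonempty I := by
      rw [Fam, map_mul, eval_C, map_prod] at hF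
      obtain ⟨j, -, hj⟩ := Finset.prod_eq_zero_iff.1 ((mul_eq_zero.1 hF).resolve_left hc)
      rw [map_pow] at hj
      exact ⟨⟨j, (hI0 j).2 (eq_zero_of_pow_eq_zero hj)⟩⟩
    obtain ⟨u, hu⟩ := hx.1 I fun j hj => (hI0 j).1 hj
    rw [eval_minor'] at hu
    obtain ⟨k0, hk0⟩ := ncr (fun t : I => f t.1) (C c * ∏ j ∈ Iᶜ, f j ^ m j)
      (fun t : I => m t.1) t0 (hm _) x (fun t => (hI0 _).1 t.2) (by
        rw [map_mul, eval_C, map_prod]
        refine mul_ne_zero hc (Finset.prod_ne_zero_iff.2 fun j hj => ?_)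
        rw [map_pow]
        exact pow_ne_zero _ fun h => (Finset.mem_compl.1 hj) ((hI0 j).2 h)) u hu
    refine ⟨k0, fun a ha f' hf' => ?_⟩
    rw [fam_split f' m c I]
    exact hk0 a ha (fun t => f' t.1) _ (fun t => hf' _) (prod_close _ _ _ _ _ _ hf')
  · obtain ⟨v, hv⟩ := hx.2 hF
    obtain ⟨k0, hk0⟩ := exists_pow_lt_of_lt_one (norm_pos_iff.2 hv) hε1
    refine ⟨k0, fun a ha f' hf' _ => ⟨v, fun h => ?_⟩⟩
    have h1 := eval_close (pderiv_close (prod_close f f' m c Finset.univ _ hf') v) a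
    have h2 := eval_lip_norm (pderiv v (Fam f m c)) a x _ (by positivity) ha
    have e : eval x (pderiv v (Fam f m c)) =
        -((eval a (pderiv v (Fam f' m c)) - eval a (pderiv v (Fam f m c))) +
          (eval a (pderiv v (Fam f m c)) - eval x (pderiv v (Fam f m c)))) := by
      rw [h]; ring
    rw [e, norm_neg] at hk0
    exact absurd hk0 (not_lt.2 ((PadicInt.nonarchimedean _ _).trans (max_le h1 h2)))

end Pool.Agent.L0h21.RW
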