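import Pool.Agent.L0h21.RW.P8

/-! The distribution near a weighted centre is good. -/

set_option autoImplicit false
set_option linter.unusedSectionVars false

namespace Pool.Agent.L0h21.RW

open MvPolynomial MeasureTheory
open Pool.Agent.W427.SMC (msZ bsZ mu)
open Pool.Agent.Y230.PT (msK bsK inc inc_emb rr)
open Pool.Agent.Y230.PS (EP)
open Pool.Agent.N138.SU Pool.Agent.N138.SV Pool.Agent.N138.RF
open Pool.Agent.L0h21.SN (As scl dvd_of_norm_le norm_le_of_dvd eval_lip NCat minor eval_minor'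
  scaleP eval_scaleP pderiv_scaleP scaleP_low scaleP_hom Sml Prim Prim_inv Prim_pos LowC OrdGE
  ncat_scale minor_scale set_stable scl_Sml scl_As exists_scl)
open Pool.Agent.W427.SMC (dvd_iff_norm)

attribute [local instance] msK bsK msZ bsZ

variable {p : ℕ} [Fact p.Prime] {V J : Type} [Fintype V] [DecidableEq V] [Fintype J]
  [DecidableEq J]

theorem scaleP_fam (l : V → ℕ) (f f' : J → MvPolynomial V ℤ_[p]) (a : J → ℕ)
    (hf : ∀ j, scaleP l (f j) = C ((p : ℤ_[p]) ^ a j) * f' j) (m : J → ℕ) (c : ℤ_[p]) :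
    scaleP l (Fam f m c) = C ((p : ℤ_[p]) ^ (∑ j, m j * a j)) * Fam f' m c := by
  rw [Fam, Fam, map_mul, map_prod]
  have h1 : scaleP l (C c : MvPolynomial V ℤ_[p]) = C c := by simp [scaleP]
  have h2 : ∀ j, scaleP l (f j ^ m j) = C ((p : ℤ_[p]) ^ (m j * a j)) * f' j ^ m j := by
    intro j
    rw [map_pow, hf j, mul_pow, ← map_pow, ← pow_mul, mul_comm (a j)]
  rw [h1, Finset.prod_congr rfl fun j _ => h2 j, Finset.prod_mul_distrib,
    ← Finset.prod_pow_eq_pow_sum, map_prod]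
  ring

/-- Normal crossings and scaling. -/
theorem ncat_unscale (l : V → ℕ) (f f' : J → MvPolynomial V ℤ_[p]) (a : J → ℕ)
    (hf : ∀ j, scaleP l (f j) = C ((p : ℤ_[p]) ^ a j) * f' j) (y : V → ℤ_[p])
    (h : NCat f (scl l y)) : NCat f' y := by
  have hp0 : (p : ℤ_[p]) ≠ 0 := by exact_mod_cast (Fact.out : p.Prime).ne_zero
  intro I hI
  obtain ⟨u, hu⟩ := h I (fun j hj => by
    rw [← eval_scaleP, hf j, map_mul, hI j hj, mul_zero])
  refine ⟨u, fun h0 => ?_⟩
  have h1 := minor_scale l f f' a hf I u y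
  rw [h0, mul_zero] at h1
  refine mul_ne_zero (Finset.prod_ne_zero_iff.mpr fun t _ => pow_ne_zero _ hp0) hu h1

theorem nr_scale (l : V → ℕ) (f f' : J → MvPolynomial V ℤ_[p]) (a : J → ℕ)
    (hf : ∀ j, scaleP l (f j) = C ((p : ℤ_[p]) ^ a j) * f' j) (m : J → ℕ) (c : ℤ_[p])
    (y : V → ℤ_[p]) : NR f m c (scl l y) ↔ NR f' m c y := by
  have hp0 : (p : ℤ_[p]) ≠ 0 := by exact_mod_cast (Fact.out : p.Prime).ne_zero
  have hF := scaleP_fam l f f' a hf m c
  have h1 : eval (scl l y) (Fam f m c) =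
      (p : ℤ_[p]) ^ (∑ j, m j * a j) * eval y (Fam f' m c) := by
    rw [← eval_scaleP, hF, map_mul, eval_C]
  have h2 : ∀ v, (p : ℤ_[p]) ^ l v * eval (scl l y) (pderiv v (Fam f m c)) =
      (p : ℤ_[p]) ^ (∑ j, m j * a j) * eval y (pderiv v (Fam f' m c)) := by
    intro v
    have h3 := congrArg (eval y) (congrArg (pderiv v) hF)
    rw [pderiv_scaleP, pderiv_C_mul, map_mul, map_mul, eval_C, eval_C, eval_scaleP] at h3
    exact h3
  have h4 : eval (scl l y) (Fam f m c) ≠ 0 ↔ eval y (Fam f' m c) ≠ 0 := by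
    rw [h1]
    constructor
    · intro h h5
      exact h (by rw [h5, mul_zero])
    · intro h
      exact mul_ne_zero (pow_ne_zero _ hp0) h
  have h5 : ∀ v, eval (scl l y) (pderiv v (Fam f m c)) ≠ 0 ↔
      eval y (pderiv v (Fam f' m c)) ≠ 0 := by
    intro v
    constructor
    · intro h h6
      have h7 := h2 v
      rw [h6, mul_zero] at h7
      exact (mul_ne_zero (pow_ne_zero _ hp0) h) h7
    · intro h h6
      have h7 := h2 v
      rw [h6, mul_zero] at h7
      exact (mul_ne_zero (pow_ne_zero _ hp0) h) h7.symm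
  unfold NR
  rw [h4]
  simp only [h5]
  exact and_congr_left fun _ => ⟨ncat_unscale l f f' a hf y, ncat_scale l f f' a hf y⟩

theorem mcat_scale (l : V → ℕ) (f f' : J → MvPolynomial V ℤ_[p]) (a : J → ℕ)
    (hf : ∀ j, scaleP l (f j) = C ((p : ℤ_[p]) ^ a j) * f' j) (m : J → ℕ) (M : ℂ → ℕ∞)
    (y : V → ℤ_[p]) (h : MCat f m M (scl l y)) : MCat f' m M y := by
  have h1 : ∀ j, eval y (f' j) = 0 → eval (scl l y) (f j) = 0 := by
    intro j hj
    rw [← eval_scaleP, hf j, map_mul, hj, mul_zero]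
  exact ⟨fun j hj => h.1 j (h1 j hj), fun i j hij hi hj => h.2 i j hij (h1 i hi) (h1 j hj)⟩

/-- Uniformity of the stability. -/
theorem unif_nr (g : J → MvPolynomial V ℤ_[p]) (m : J → ℕ) (hm : ∀ j, 1 ≤ m j) (c : ℤ_[p])
    (hc : c ≠ 0) (S : Set (V → ℤ_[p])) (hS : IsCompact S) (hNR : ∀ x ∈ S, NR g m c x) :
    ∃ K : ℕ, ∀ l, K ≤ l → ∀ f' : J → MvPolynomial V ℤ_[p],
      (∀ j, C ((p : ℤ_[p]) ^ l) ∣ f' j - g j) → ∀ y ∈ S, eval y (Fam f' m c) ≠ 0 →
        ∃ v, eval y (pderiv v (Fam f' m c)) ≠ 0 := by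
  have hε0 : (0 : ℝ) < (p : ℝ)⁻¹ := inv_pos'
  refine hS.induction_on (p := fun S => ∃ K : ℕ, ∀ l, K ≤ l → ∀ f' : J → MvPolynomial V ℤ_[p],
      (∀ j, C ((p : ℤ_[p]) ^ l) ∣ f' j - g j) → ∀ y ∈ S, eval y (Fam f' m c) ≠ 0 →
        ∃ v, eval y (pderiv v (Fam f' m c)) ≠ 0) ?_ ?_ ?_ ?_
  · exact ⟨0, fun l _ f' _ y hy => absurd hy (Set.notMem_empty _)⟩
  · rintro s t hst ⟨K, hK⟩
    exact ⟨K, fun l hl f' hf' y hy => hK l hl f' hf' y (hst hy)⟩
  · rintro s t ⟨K, hK⟩ ⟨K', hK'⟩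
    refine ⟨max K K', fun l hl f' hf' y hy => ?_⟩
    rcases hy with hy | hy
    · exact hK l ((le_max_left _ _).trans hl) f' hf' y hy
    · exact hK' l ((le_max_right _ _).trans hl) f' hf' y hy
  · intro x hx
    obtain ⟨k0, hk0⟩ := nr_stable g m hm c hc x (hNR x hx)
    refine ⟨Metric.closedBall x (((p : ℝ)⁻¹) ^ k0), mem_nhdsWithin_of_mem_nhds
      (Metric.closedBall_mem_nhds x (by positivity)), k0, fun l hl f' hf' y hy => ?_⟩
    refine hk0 y (fun i => ?_) f' fun j => (map_dvd C (pow_dvd_pow _ hl)).trans (hf' j)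
    rw [Metric.mem_closedBall, dist_eq_norm] at hy
    exact (norm_le_pi_norm (y - x) i).trans hy

/-- Points near the centre. -/
theorem near_nr (w : V → ℕ) (e : J → ℕ) (f g : J → MvPolynomial V ℤ_[p])
    (hlow : ∀ j, LowC w (e j) (f j) (g j)) (m : J → ℕ) (hm : ∀ j, 1 ≤ m j) (c : ℤ_[p])
    (hc : c ≠ 0) (M : ℕ)
    (hg : ∀ y ∈ Sml w M, (∃ v, 0 < w v ∧ y v ≠ 0) → NR g m c y) :
    ∃ K, ∀ x ∈ Sml w M, (∃ v, 0 < w v ∧ x v ≠ 0) → x ∈ As p (fun v => K * w v) →
      NR f m c x := by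
  classical
  obtain ⟨K1, hK1⟩ := set_stable g (fun _ => 0) 1 (Prim w M) _ (Prim_inv w M)
    (fun y hy => (hg y hy.1 (Prim_pos hy)).1)
  obtain ⟨K2, hK2⟩ := unif_nr g m hm c hc (Prim w M) (Prim_inv w M).isCompact
    (fun y hy => hg y hy.1 (Prim_pos hy))
  set K := max K1 K2 with hKd
  have hKK1 : K1 ≤ K := le_max_left _ _
  have hKK2 : K2 ≤ K := le_max_right _ _
  refine ⟨K, fun x hx hx0 hxK => ?_⟩
  have hex : ∃ k, x ∉ As p (fun v => k * w v) := by
    obtain ⟨v, hv, hxv⟩ := hx0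
    refine ⟨(x v).valuation + 1, fun h => ?_⟩
    have h1 := h v
    have h2 : (p : ℤ_[p]) ^ ((x v).valuation + 1) ∣ x v :=
      (pow_dvd_pow _ (Nat.le_mul_of_pos_right _ hv)).trans h1
    rw [dvd_iff_norm, PadicInt.norm_p_pow, PadicInt.norm_eq_zpow_neg_valuation hxv] at h2
    have hp1 : (1 : ℝ) < p := by exact_mod_cast (Fact.out : p.Prime).one_lt
    have h3 := (zpow_le_zpow_iff_right₀ hp1).mp h2
    push_cast at h3
    omega
  set k₀ := Nat.find hex with hk₀
  have h0 : x ∉ As p (fun v => k₀ * w v) := Nat.find_spec hex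
  have hlt : K < k₀ := by
    by_contra hle
    apply h0
    intro v
    exact (pow_dvd_pow _ (Nat.mul_le_mul_right _ (not_lt.mp hle))).trans (hxK v)
  obtain ⟨k, hk⟩ : ∃ k, k₀ = k + 1 := ⟨k₀ - 1, by omega⟩
  have h1 : x ∈ As p (fun v => k * w v) := by
    by_contra hcon
    exact Nat.find_min hex (show k < Nat.find hex by omega) hcon
  obtain ⟨y, rfl⟩ := exists_scl h1
  rw [hk, scl_As] at h0
  have hy : y ∈ Prim w M := ⟨(scl_Sml w M k y).mp hx, h0⟩
  choose r hr using fun j => scaleP_low (hlow j) k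
  rw [nr_scale _ f (fun j => g j + C ((p : ℤ_[p]) ^ k) * r j) (fun j => k * e j) hr m c y]
  refine ⟨(hK1 k (by omega) (fun j => g j + C ((p : ℤ_[p]) ^ k) * r j) r fun j => rfl).1 y hy,
    hK2 k (by omega) _ (fun j => ?_) y hy⟩
  rw [add_sub_cancel_left]
  exact dvd_mul_right _ _

/-- The initial forms. -/
theorem init_nr (w : V → ℕ) (e : J → ℕ) (g : J → MvPolynomial V ℤ_[p])
    (hhom : ∀ j, IsWeightedHomogeneous w (g j) (e j)) (m : J → ℕ) (c : ℤ_[p])
    (hd : 0 < ∑ j, m j * e j) (y : V → ℤ_[p]) (h : NCat g y) : NR g m c y := by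
  refine ⟨h, fun hne => ?_⟩
  by_contra hcon
  push Not at hcon
  have hG : IsWeightedHomogeneous w (Fam g m c) (∑ j, m j * e j) := by
    have h1 : IsWeightedHomogeneous w (∏ j, g j ^ m j) (∑ j, m j * e j) := by
      refine IsWeightedHomogeneous.prod _ _ _ fun j _ => ?_
      have h2 := (hhom j).pow (m j)
      rwa [smul_eq_mul] at h2
    have h3 := (isWeightedHomogeneous_C w c).mul h1
    rwa [zero_add] at h3
  have h1 := congrArg (eval y) hG.sum_weight_X_mul_pderiv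
  rw [map_sum, map_nsmul] at h1
  have h2 : ∀ v, eval y (w v • (X v * pderiv v (Fam g m c))) = 0 := by
    intro v
    rw [map_nsmul, map_mul, hcon v, mul_zero, smul_zero]
  rw [Finset.sum_eq_zero fun v _ => h2 v, eq_comm, nsmul_eq_mul] at h1
  exact hne ((mul_eq_zero.1 h1).resolve_left (by exact_mod_cast hd.ne'))

/-- **The distribution near a weighted centre.** -/
theorem centre_good (w : V → ℕ) (hw : 0 < ∑ v, w v) (e : J → ℕ)
    (f g : J → MvPolynomial V ℤ_[p]) (hlow : ∀ j, LowC w (e j) (f j) (g j)) (m : J → ℕ)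
    (hm : ∀ j, 1 ≤ m j) (c : ℤ_[p]) (hc : c ≠ 0) (hd : 0 < ∑ j, m j * e j) (M0 : ℕ)
    (hg : ∀ y ∈ Sml w M0, (∃ v, 0 < w v ∧ y v ≠ 0) → NCat g y) (M : ℂ → ℕ∞)
    (h0 : ∀ z : ℂ, ‖z‖ ≤ 1 → M z = 0) (h01 : ∀ z, M z = 0 ∨ M z = ⊤)
    (hMw : ∀ T : ℂ, T ^ (∑ j, m j * e j) = (p : ℂ) ^ (∑ v, w v) → M T = ⊤)
    (hMC : ∀ x, NCat f x → MCat f m M x) :
    ∃ k0 : ℕ, ∀ (a : V → ℤ_[p]) (k : ℕ), k0 ≤ k → (∀ i, ‖a i‖ ≤ ((p : ℝ)⁻¹) ^ k0) →
      Gd (Measure.pi fun _ : V => mu p) (bal (fun x => eval x (Fam f m c)) a k) M := by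
  classical
  have hε0 : (0 : ℝ) < (p : ℝ)⁻¹ := inv_pos'
  have hε1 : (p : ℝ)⁻¹ < 1 := inv_lt_one_of_one_lt₀ (by
    exact_mod_cast (Fact.out : p.Prime).one_lt)
  have hp0 : (p : ℤ_[p]) ≠ 0 := by exact_mod_cast (Fact.out : p.Prime).ne_zero
  set d := ∑ j, m j * e j with hdd
  have hgr : ∀ y ∈ Sml w M0, (∃ v, 0 < w v ∧ y v ≠ 0) → NR g m c y := fun y hy hy0 =>
    init_nr w e g (fun j => (hlow j).hom) m c hd y (hg y hy hy0)
  obtain ⟨K, hK⟩ := near_nr w e f g hlow m hm c hc M0 hgr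
  choose r hr using fun (l : ℕ) (j : J) => scaleP_low (hlow j) l
  set fl : ℕ → J → MvPolynomial V ℤ_[p] := fun l j => g j + C ((p : ℤ_[p]) ^ l) * r l j with hfl
  have hfl2 : ∀ l j, scaleP (fun v => l * w v) (f j) = C ((p : ℤ_[p]) ^ (l * e j)) * fl l j :=
    fun l j => hr l j
  set k1 := M0 + ∑ v, K * w v with hk1
  have hKw : ∀ v, K * w v ≤ k1 := by
    intro v
    have := Finset.single_le_sum (f := fun v => K * w v) (fun _ _ => Nat.zero_le _)
      (Finset.mem_univ v)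
    exact this.trans (Nat.le_add_left _ _)
  have hnp : ∀ (z : ℤ_[p]) (n k : ℕ), n ≤ k → ‖z‖ ≤ ((p : ℝ)⁻¹) ^ k → (p : ℤ_[p]) ^ n ∣ z := by
    intro z n k hn hz
    refine dvd_of_norm_le p _ _ ?_
    rw [norm_pk]
    exact hz.trans (pow_le_pow_of_le_one hε0.le hε1.le hn)
  -- the balls with centre on the centre
  have hmain : ∀ (lam : V → ℤ_[p]) (k : ℕ), k1 ≤ k → (∀ i, ‖lam i‖ ≤ ((p : ℝ)⁻¹) ^ k1) →
      (∀ v, 0 < w v → lam v = 0) →
      Gd (Measure.pi fun _ : V => mu p) (bal (fun x => eval x (Fam f m c)) lam k) M := by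
    intro lam k hk hlam hlam0
    set Fl : ℕ → (V → ℤ_[p]) → ℤ_[p] := fun l => bal (fun x => eval x (Fam (fl l) m c)) lam k
      with hFl
    set G : (V → ℤ_[p]) → ℤ_[p] := bal (fun x => eval x (Fam g m c)) lam k with hG
    -- the points
    have hz : ∀ a : V → ℤ_[p], (fun i => lam i + (p : ℤ_[p]) ^ k * a i) ∈ Sml w M0 := by
      intro a v hv
      exact dvd_add (hnp _ _ k1 (Nat.le_add_right _ _) (hlam v))
        (Dvd.dvd.mul_right (pow_dvd_pow _ ((Nat.le_add_right _ _).trans hk)) _)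
    have hz0 : ∀ a : V → ℤ_[p], a ∉ As p w →
        ∃ v, 0 < w v ∧ (fun i => lam i + (p : ℤ_[p]) ^ k * a i) v ≠ 0 := by
      intro a ha
      have h1 : ¬ ∀ v, (p : ℤ_[p]) ^ w v ∣ a v := ha
      push Not at h1
      obtain ⟨v, hv⟩ := h1
      have hwv : 0 < w v := by
        rcases Nat.eq_zero_or_pos (w v) with h2 | h2
        · rw [h2, pow_zero] at hv
          exact absurd (one_dvd _) hv
        · exact h2
      refine ⟨v, hwv, ?_⟩
      beta_reduce
      rw [hlam0 v hwv, zero_add]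
      exact mul_ne_zero (pow_ne_zero _ hp0) fun h2 => hv (h2 ▸ dvd_zero _)
    have hzA : ∀ a : V → ℤ_[p],
        (fun i => lam i + (p : ℤ_[p]) ^ k * a i) ∈ As p (fun v => K * w v) := by
      intro a v
      exact dvd_add (hnp _ _ k1 (hKw v) (hlam v))
        (Dvd.dvd.mul_right (pow_dvd_pow _ ((hKw v).trans hk)) _)
    have hscl : ∀ y : V → ℤ_[p], (fun i => lam i + (p : ℤ_[p]) ^ k * scl w y i) =
        scl w (fun i => lam i + (p : ℤ_[p]) ^ k * y i) := by
      intro y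
      funext i
      show lam i + (p : ℤ_[p]) ^ k * ((p : ℤ_[p]) ^ w i * y i) =
        (p : ℤ_[p]) ^ w i * (lam i + (p : ℤ_[p]) ^ k * y i)
      rcases Nat.eq_zero_or_pos (w i) with h2 | h2
      · rw [h2, pow_zero, one_mul, one_mul]
      · rw [hlam0 i h2]
        ring
    have hFe : ∀ l (z : V → ℤ_[p]), (p : ℤ_[p]) ^ (l * d) * eval z (Fam (fl l) m c) =
        eval (scl (fun v => l * w v) z) (Fam f m c) := by
      intro l z
      have h1 := scaleP_fam (fun v => l * w v) f (fl l) (fun j => l * e j) (hfl2 l) m c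
      have h2 : ∑ j, m j * (l * e j) = l * d := by
        rw [hdd, Finset.mul_sum]
        exact Finset.sum_congr rfl fun j _ => by ring
      rw [← eval_scaleP, h1, map_mul, eval_C, h2]
    have hF0 : Fl 0 = bal (fun x => eval x (Fam f m c)) lam k := by
      funext y
      show eval _ (Fam (fl 0) m c) = eval _ (Fam f m c)
      have h1 := hFe 0 (fun i => lam i + (p : ℤ_[p]) ^ k * y i)
      rw [zero_mul, pow_zero, one_mul] at h1
      rw [h1]
      congr 2
      funext i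
      show (p : ℤ_[p]) ^ (0 * w i) * _ = _
      rw [zero_mul, pow_zero, one_mul]
    rw [← hF0]
    have hcont : ∀ q : MvPolynomial V ℤ_[p], Measurable (bal (fun x => eval x q) lam k) :=
      fun q => (bal_cont (MvPolynomial.continuous_eval _) lam k).measurable
    refine gd_centre w hw d hd Fl G (fun l => hcont _) (hcont _) (fun l y => ?_) (fun y => ?_) M
      hMw (fun l a ha => ?_) (fun a ha => ?_)
    · -- the scaling of `Fl`
      show eval (fun i => lam i + (p : ℤ_[p]) ^ k * scl w y i) (Fam (fl l) m c) =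
        (p : ℤ_[p]) ^ d * eval (fun i => lam i + (p : ℤ_[p]) ^ k * y i) (Fam (fl (l + 1)) m c)
      have h1 := hFe l (fun i => lam i + (p : ℤ_[p]) ^ k * scl w y i)
      have h2 := hFe (l + 1) (fun i => lam i + (p : ℤ_[p]) ^ k * y i)
      apply mul_left_cancel₀ (pow_ne_zero (l * d) hp0)
      rw [h1, ← mul_assoc, ← pow_add, hscl]
      have h3 : l * d + d = (l + 1) * d := by ring
      rw [h3, h2]
      congr 2
      funext i
      show (p : ℤ_[p]) ^ (l * w i) * ((p : ℤ_[p]) ^ w i * _) = (p : ℤ_[p]) ^ ((l + 1) * w i) * _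
      rw [add_mul, one_mul, pow_add, mul_assoc]
    · show eval (fun i => lam i + (p : ℤ_[p]) ^ k * scl w y i) (Fam g m c) =
        (p : ℤ_[p]) ^ d * eval (fun i => lam i + (p : ℤ_[p]) ^ k * y i) (Fam g m c)
      have h1 := scaleP_fam w g g e (fun j => by
        have h2 := scaleP_hom (hlow j).hom 1
        simpa only [one_mul] using h2) m c
      rw [hscl, ← eval_scaleP, h1, map_mul, eval_C]
    · -- local goodness
      have hx1 : scl (fun v => l * w v) (fun i => lam i + (p : ℤ_[p]) ^ k * a i) ∈ Sml w M0 :=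
        (scl_Sml w M0 l _).2 (hz a)
      have hx2 : ∃ v, 0 < w v ∧
          scl (fun v => l * w v) (fun i => lam i + (p : ℤ_[p]) ^ k * a i) v ≠ 0 := by
        obtain ⟨v, hv, hv2⟩ := hz0 a ha
        exact ⟨v, hv, mul_ne_zero (pow_ne_zero _ hp0) hv2⟩
      have hx3 : scl (fun v => l * w v) (fun i => lam i + (p : ℤ_[p]) ^ k * a i) ∈
          As p (fun v => K * w v) := fun v => Dvd.dvd.mul_left (hzA a v) _
      have hnr := hK _ hx1 hx2 hx3
      have hnr2 := (nr_scale _ f (fl l) (fun j => l * e j) (hfl2 l) m c _).1 hnr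
      have hmc := mcat_scale _ f (fl l) (fun j => l * e j) (hfl2 l) m M _ (hMC _ hnr.1)
      obtain ⟨k0, hk0⟩ := loc_good (fl l) m hm c hc _ hnr2 M h0 h01 hmc
      refine ⟨k0, fun k' hk' => ?_⟩
      show Gd _ (bal (bal (fun x => eval x (Fam (fl l) m c)) lam k) a k') M
      rw [bal_bal]
      refine hk0 _ _ (hk'.trans (Nat.le_add_left _ _)) fun i => ?_
      rw [sub_self, norm_zero]
      positivity
    · -- equality of the distributions
      obtain ⟨k0, hk0⟩ := loc_law g m hm c hc _ (hgr _ (hz a) (hz0 a ha))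
      refine ⟨k0, fun k' hk' => ⟨2 * (k + k'), fun l hl => ?_⟩⟩
      show Sd (bal (bal (fun x => eval x (Fam (fl l) m c)) lam k) a k')
        (bal (bal (fun x => eval x (Fam g m c)) lam k) a k')
      rw [bal_bal, bal_bal]
      refine hk0 _ _ (hk'.trans (Nat.le_add_left _ _)) (fun i => ?_) _ fun j => ?_
      · rw [sub_self, norm_zero]
        positivity
      · rw [hfl]
        beta_reduce
        rw [add_sub_cancel_left]
        exact Dvd.dvd.mul_right (map_dvd C (pow_dvd_pow _ hl)) _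
  refine ⟨k1, fun a k hk ha => ?_⟩
  by_cases hL : ∃ y : V → ℤ_[p], ∀ v, 0 < w v → a v + (p : ℤ_[p]) ^ k * y v = 0
  · obtain ⟨y0, hy0⟩ := hL
    have h1 := hmain (fun v => a v + (p : ℤ_[p]) ^ k * y0 v) k hk (fun i => by
      refine (PadicInt.nonarchimedean _ _).trans (max_le (ha i) ?_)
      rw [norm_mul, norm_pk]
      exact (mul_le_of_le_one_right (by positivity) (PadicInt.norm_le_one _)).trans
        (pow_le_pow_of_le_one hε0.le hε1.le hk)) hy0
    have h2 := G5.Gd_trans _ (-y0) M h1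
    refine (congrArg (fun q => Gd (Measure.pi fun _ : V => mu p) q M) ?_).mpr h2
    funext y
    unfold bal
    congr 2
    funext i
    rw [Pi.add_apply, Pi.neg_apply]
    ring
  · push Not at hL
    have hloc : ∀ y : V → ℤ_[p], ∃ k0 : ℕ, ∀ k', k0 ≤ k' →
        Gd (Measure.pi fun _ : V => mu p)
          (bal (bal (fun x => eval x (Fam f m c)) a k) y k') M := by
      intro y
      obtain ⟨v, hv, hv2⟩ := hL y
      have hxn : ∀ i, ‖a i + (p : ℤ_[p]) ^ k * y i‖ ≤ ((p : ℝ)⁻¹) ^ k1 := by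
        intro i
        refine (PadicInt.nonarchimedean _ _).trans (max_le (ha i) ?_)
        rw [norm_mul, norm_pk]
        exact (mul_le_of_le_one_right (by positivity) (PadicInt.norm_le_one _)).trans
          (pow_le_pow_of_le_one hε0.le hε1.le hk)
      have hnr := hK (fun i => a i + (p : ℤ_[p]) ^ k * y i)
        (fun v _ => hnp _ _ k1 (Nat.le_add_right _ _) (hxn v)) ⟨v, hv, hv2⟩
        (fun v => hnp _ _ k1 (hKw v) (hxn v))
      obtain ⟨k0, hk0⟩ := loc_good f m hm c hc _ hnr M h0 h01 (hMC _ hnr.1)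
      refine ⟨k0, fun k' hk' => ?_⟩
      rw [bal_bal]
      refine hk0 _ _ (hk'.trans (Nat.le_add_left _ _)) fun i => ?_
      rw [sub_self, norm_zero]
      positivity
    choose kf hkf using hloc
    exact gd_glue _ (bal_cont (MvPolynomial.continuous_eval _) a k).measurable M kf hkf

end Pool.Agent.L0h21.RW
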