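import Mathlib

set_option autoImplicit false

/-! # Periods of polynomials: a copy of the definitions of `Pool/Agent/N138/SV/Defs.lean`, and two
statements -/

namespace Pool.Agent.L0h21.RW

open MvPolynomial

/-- A family of period functionals of the polynomial `g` with the exponent `e0` (copy of
`Pool.Agent.N138.SV.IsPer`). -/
structure IsPer' {τ : Type} (g : MvPolynomial τ ℂ) (e0 : ℂ)
    (S : Set (ℕ → MvPolynomial τ ℂ →ₗ[ℂ] ℂ)) : Prop where
  e1 : ∀ c ∈ S, ∀ h, c 0 (g * h) = 0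
  e2 : ∀ c ∈ S, ∀ (m : ℕ) h, c (m + 1) (g * h) = ((m : ℂ) - e0) * c m h
  d1 : ∀ c ∈ S, ∀ i h, c 0 (pderiv i g * h) = 0
  d2 : ∀ c ∈ S, ∀ i, ∃ c' ∈ S, ∀ (m : ℕ) h,
    c m (pderiv i h) - c (m + 1) (pderiv i g * h) = c' m h
  mu : ∀ c ∈ S, ∀ i, ∃ c' ∈ S, ∀ (m : ℕ) h, c m (X i * h) = c' m h

/-- `e0` is the leading exponent of a period of `g` (copy of `Pool.Agent.N138.SV.Per`). -/
def Per' {τ : Type} (g : MvPolynomial τ ℂ) (e0 : ℂ) : Prop :=
  ∃ S, IsPer' g e0 S ∧ ∃ c ∈ S, c 0 1 ≠ 0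

/-- Job C: the exponent `e0 = - 1 / m` of a component `q` of multiplicity `m ≥ 2` of
`F = q ^ m G`.

Proof. Read the pair `(n, h)` as the twisted rational function `h F ^ (e0 - n)`; as
`h F ^ (e0 - n) = (h / (q ^ (1 + m n) G ^ n)) G ^ e0`, it is regular along `q` iff
`q ^ (1 + m n) ∣ h`. Let `L n : h ↦ h / (q ^ (1 + m n) G ^ n)` be the linear map into the fraction
field `K` of the polynomial ring, and `W ⊆ K` the subspace of the functions `a / G ^ k` (regular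
along `q`). Let `S` be the set of ALL families
`c n h = (∏_{i < n} (i - e0)) * R (L n h)`, `R : K →ₗ[ℂ] ℂ` any functional which vanishes on `W`.
* `e1`: `L 0 (F h) = q ^ (m - 1) G h ∈ W`. * `e2`: `L (n + 1) (F h) = L n h`.
* `d1`: `L 0 (∂_i F h) = (m q ^ (m - 2) ∂_i q G + q ^ (m - 1) ∂_i G) h ∈ W` as `m ≥ 2`.
* `d2`: `c'` is the family of `R ∘ ∇_i`, `∇_i u = ∂_i u + e0 (∂_i G / G) u` (with `∂_i` extended to
  `K`; it maps `W` into `W`), because `∇_i (L n h) = L n (∂_i h) + (e0 - n) L (n + 1) (∂_i F h)`.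
* `mu`: `R ∘ (X_i ·)`.
* `L 0 1 = 1 / q ∉ W`, because `q` is prime and does not divide `G ^ k`: so there is an `R` with
  `R (1 / q) ≠ 0`.
(Instead of the fraction field one may use any model of the localization at `q G`.) -/
def S_C' : Prop := ∀ {V : Type} (q G : MvPolynomial V ℂ) (m : ℕ), 2 ≤ m → Prime q →
  ¬ q ∣ G → Per' (q ^ m * G) (-1 / (m : ℂ))

/-- Job X: the exponent `-1` of a crossing of two components of `F = q ^ a r ^ b G`.

Proof. `L n : h ↦ h / F ^ (n + 1)` into the fraction field `K`; `W = W_q + W_r`,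
`W_q = {u / (r G) ^ k}`, `W_r = {u / (q G) ^ k}` (regular along `q`, resp. along `r`); `S` = all
families `c n h = n! * R (L n h)`, `R : K →ₗ[ℂ] ℂ` with `R = 0` on `W`.
* `e1`: `L 0 (F h) = h ∈ W`. * `e2`: `L (n + 1) (F h) = L n h`.
* `d1`: `∂_i F h / F = (a ∂_i q / q + b ∂_i r / r + ∂_i G / G) h ∈ W_r + W_q + W_q`.
* `d2`: `R ∘ ∂_i`, since `∂_i (L n h) = L n (∂_i h) - (n + 1) L (n + 1) (∂_i F h)`; `mu`: clear.
* `c 0 1 ≠ 0` for some `c ∈ S`: it is enough that `1 / F ∉ W`. Otherwise, clearing denominators,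
  for a large `N`: `q ^ (N - a) r ^ (N - b) G ^ k = α q ^ N + β r ^ N` for some `k`. As `q ^ i` and
  `r ^ j` have no common factor (`q`, `r` prime, `¬ q ∣ r`, hence also `¬ r ∣ q`),
  `q ^ (N - a) ∣ β`, then `r ^ (N - b) ∣ α` and `G ^ k = α' q ^ a + β' r ^ b`; the value at `Q` is a
  contradiction, as `a, b ≥ 1`. -/
def S_X' : Prop := ∀ {V : Type} (q r G : MvPolynomial V ℂ) (a b : ℕ), 1 ≤ a → 1 ≤ b →
  Prime q → Prime r → ¬ q ∣ r → ∀ Q : V → ℂ, eval Q q = 0 → eval Q r = 0 → eval Q G ≠ 0 →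
  Per' (q ^ a * r ^ b * G) (-1)

end Pool.Agent.L0h21.RW
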