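import Pool.Agent.L0h21.RW.PerDef

set_option autoImplicit false

/-! # Periods of polynomials: from the initial form to the polynomial -/

namespace Pool.Agent.L0h21.RW

open MvPolynomial

/-- Period functionals of a weighted homogeneous polynomial `G` of degree `d` (the weights may be
zero): as `IsPer'`, but without `e1` and `d1`, and `c m h` depends only on the components of `h` of
weighted degree at most `m d`. -/
def HP {V : Type} (w : V → ℕ) (d : ℕ) (G : MvPolynomial V ℂ) (e0 : ℂ) : Prop :=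
  ∃ S : Set (ℕ → MvPolynomial V ℂ →ₗ[ℂ] ℂ),
    (∀ c ∈ S, ∀ (m : ℕ) h, (∀ a ≤ m * d, weightedHomogeneousComponent w a h = 0) → c m h = 0) ∧
    (∀ c ∈ S, ∀ (m : ℕ) h, c (m + 1) (G * h) = ((m : ℂ) - e0) * c m h) ∧
    (∀ c ∈ S, ∀ i, ∃ c' ∈ S, ∀ (m : ℕ) h,
      c m (pderiv i h) - c (m + 1) (pderiv i G * h) = c' m h) ∧
    (∀ c ∈ S, ∀ i, ∃ c' ∈ S, ∀ (m : ℕ) h, c m (X i * h) = c' m h) ∧
    ∃ c ∈ S, c 0 1 ≠ 0

/-- Job T: periods of a polynomial `F` with initial form `G`.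

Proof. Put `F₁ = F - G`; its components of degree `≤ d` vanish, so those of `F₁ ^ k h` of degree
`< k (d + 1)` vanish. For `c ∈ S` let `ĉ m h = ∑_{k < m d + 1} ((-1) ^ k / k!) c (m + k) (F₁ ^ k h)`;
the terms with `k ≥ m d + 1` vanish, since `k (d + 1) > (m + k) d`, so the sum may be extended.
(`ĉ` is `∫ h exp(- τ F) = ∑ (-τ) ^ k / k! ∫ F₁ ^ k h exp (-τ G)`.) Let `Ŝ` be the set of the `ĉ`.
* `e2`: `ĉ (m + 1) (F h) = ∑ (-1)^k/k! [(m + k - e0) c (m + k) (F₁^k h) + c (m + 1 + k) (F₁^(k+1) h)]`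
  `= ∑ (-1)^k/k! (m + k - e0 - k) c (m + k) (F₁^k h) = (m - e0) ĉ m h`.
* `mu`: `(c' for c)^`. * `d2`: `(c' for c)^`, because `F₁^k ∂h = ∂(F₁^k h) - k F₁^(k-1) ∂F₁ h`, and the
  terms with `∂F₁` cancel (shift of `k` by one).
* `e1`: `ĉ 0 (F h) = c 0 (F h) = 0` by the degrees (`d > 0`).
* `d1`: if `e0 = -1`: `ĉ 0 (∂_i F h) = c 0 (∂_i F h) = 0`, since the components of `∂_i F` of degree
  `< d - w i` vanish and `w i < d`. If `e0 ≠ -1` it follows from `e1`, `e2`, `d2` for `ĉ`: `d2` with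
  `m = 0` and `F h` in the place of `h` gives
  `ĉ 0 (∂_i F h) + ĉ 0 (F ∂_i h) - ĉ 1 (F ∂_i F h) = ĉ' 0 (F h)`, that is,
  `(1 + e0) ĉ 0 (∂_i F h) = 0`.
* `ĉ 0 1 = c 0 1`. -/
def S_T : Prop := ∀ {V : Type} [Fintype V] (w : V → ℕ) (d : ℕ) (F G : MvPolynomial V ℂ) (e0 : ℂ),
  0 < d → (∀ a < d, weightedHomogeneousComponent w a F = 0) →
  weightedHomogeneousComponent w d F = G → (e0 = -1 → ∀ v, w v < d) → HP w d G e0 → Per' F e0

end Pool.Agent.L0h21.RW
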